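import Pool.Agent.CRD.Fib.Stmts

/-!
# CRD / Fib, module XFR: the rings of the charts are free over the base
-/

open CategoryTheory Opposite Limits TensorProduct Pretriangulated

namespace Pool.CRD.FB

namespace XFR_

section
variable {B : Type} [CommRing B] (a b : Bˣ) (K : Type) [CommRing K] [Algebra K B] (k : Cov Bool)

open Classical in
/-- the coefficients -/
noncomputable def cf : conSub a b K k →+ ({n : ℤ // n ∈ exR k} →₀ B) × ({n : ℤ // n ∈ exI k} →₀ B) where
  toFun z := (Finsupp.subtypeDomain (· ∈ exR k) (z : ConT a b).re.coeff,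
    Finsupp.subtypeDomain (· ∈ exI k) (z : ConT a b).im.coeff)
  map_zero' := by
    apply Prod.ext
    · ext n; rfl
    · ext n; rfl
  map_add' x y := by
    apply Prod.ext
    · ext n; rfl
    · ext n; rfl

lemma cf_inj : Function.Injective (cf a b K k) := by
  rw [injective_iff_map_eq_zero]
  intro z hz
  have h1 := congrArg Prod.fst hz
  have h2 := congrArg Prod.snd hz
  apply Subtype.ext
  apply QuadraticAlgebra.ext
  · apply LaurentPolynomial.ext
    intro n
    by_cases hn : n ∈ exR k
    · exact DFunLike.congr_fun h1 ⟨n, hn⟩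
    · exact z.2.1 n hn
  · apply LaurentPolynomial.ext
    intro n
    by_cases hn : n ∈ exI k
    · exact DFunLike.congr_fun h2 ⟨n, hn⟩
    · exact z.2.2 n hn

lemma ext_mem (s : Set ℤ) (u : {n : ℤ // n ∈ s} →₀ B) :
    (AddMonoidAlgebra.ofCoeff (u.embDomain (Function.Embedding.subtype (· ∈ s))) :
      LaurentPolynomial B) ∈ LpIn s := by
  intro n hn
  change (u.embDomain (Function.Embedding.subtype (· ∈ s))) n = 0
  apply Finsupp.embDomain_notin_range
  rintro ⟨m, rfl⟩
  exact hn m.2

lemma ext_coeff (s : Set ℤ) (u : {n : ℤ // n ∈ s} →₀ B) (n : {n : ℤ // n ∈ s}) :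
    (AddMonoidAlgebra.ofCoeff (u.embDomain (Function.Embedding.subtype (· ∈ s))) :
      LaurentPolynomial B).coeff (n : ℤ) = u n := by
  change (u.embDomain (Function.Embedding.subtype (· ∈ s)))
    ((Function.Embedding.subtype (· ∈ s)) n) = u n
  exact Finsupp.embDomain_apply_self _ _ _

lemma cf_surj : Function.Surjective (cf a b K k) := by
  classical
  rintro ⟨u, v⟩
  refine ⟨⟨⟨_, _⟩, ⟨ext_mem (exR k) u, ext_mem (exI k) v⟩⟩, ?_⟩
  apply Prod.ext
  · ext n
    exact ext_coeff (exR k) u n
  · ext n
    exact ext_coeff (exI k) v n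

lemma cf_conC (r : B) (z : conSub a b K k) : cf a b K k (conC a b K k r * z) =
    r • cf a b K k z := by
  have e : ∀ (g : LaurentPolynomial B) (n : ℤ),
      (AddMonoidAlgebra.single 0 r * g : LaurentPolynomial B).coeff n = r * g.coeff n := by
    intro g n
    rw [AddMonoidAlgebra.coeff_single_zero_mul]
  apply Prod.ext
  · ext n
    change (AddMonoidAlgebra.single 0 r * (z : ConT a b).re + conQ a b * 0 * (z : ConT a b).im :
      LaurentPolynomial B).coeff n = r * (z : ConT a b).re.coeff n
    rw [mul_zero, zero_mul, add_zero, e]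
  · ext n
    change (AddMonoidAlgebra.single 0 r * (z : ConT a b).im + 0 * (z : ConT a b).re +
      0 * 0 * (z : ConT a b).im : LaurentPolynomial B).coeff n = r * (z : ConT a b).im.coeff n
    rw [zero_mul, mul_zero, zero_mul, add_zero, add_zero, e]

/-- a module which is additively isomorphic to the conic ring, compatible with `conC`, is free -/
lemma free_of {M : Type} [AddCommGroup M] [Module B M] (e : M ≃+ conSub a b K k)
    (he : ∀ (r : B) (m : M), e (r • m) = conC a b K k r * e m) : Module.Free B M := by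
  let φ : M →ₗ[B] ({n : ℤ // n ∈ exR k} →₀ B) × ({n : ℤ // n ∈ exI k} →₀ B) :=
    { toFun := fun m => cf a b K k (e m)
      map_add' := fun x y => by rw [map_add, map_add]
      map_smul' := fun r x => by rw [he, cf_conC]; rfl }
  have hφ : Function.Bijective φ :=
    ⟨(cf_inj a b K k).comp e.injective, (cf_surj a b K k).comp e.surjective⟩
  exact Module.Free.of_equiv (LinearEquiv.ofBijective φ hφ).symm

end

end XFR_

open XFR_ in
theorem xfr_proof : Stmt_XFR := by
  intro K _ c₁ c₂ S X s
  letI := (X.prA s).toRingHom.toAlgebra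
  refine free_of (S.ua s.i s.j) (S.ub s.i s.j) K s.k
    (X.cE s.i s.j s.k).symm.toRingEquiv.toAddEquiv ?_
  intro r m
  change (X.cE s.i s.j s.k).symm (X.prA s r * m) =
    conC (S.ua s.i s.j) (S.ub s.i s.j) K s.k r * (X.cE s.i s.j s.k).symm m
  rw [map_mul]
  congr 1
  rw [AlgEquiv.symm_apply_eq]
  apply Subtype.ext
  rw [ConicData.cE_coe]
  change _ = X.toEc s.i s.j ⟨AddMonoidAlgebra.single 0 r, 0⟩
  rw [X.toEc_re, zpow_zero, mul_one]
  rfl

end Pool.CRD.FB
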