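import Pool.Agent.CRD.Fib.Stmts

/-!
# CRD / Fib: AUS (Auslander)
-/

open CategoryTheory Opposite Limits TensorProduct Abelian

namespace Pool.CRD.FB

namespace AUS_

variable {A : Type} [CommRing A]

/-- the short exact sequence `0 → I → A → A/I → 0` -/
noncomputable def sI (I : Ideal A) : ShortComplex (ModuleCat.{0} A) :=
  ShortComplex.mk (ModuleCat.ofHom (Submodule.subtype I) : ModuleCat.of A I ⟶ ModuleCat.of A A)
    (ModuleCat.ofHom (Submodule.mkQ I) : ModuleCat.of A A ⟶ ModuleCat.of A (A ⧸ I)) (by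
      ext x
      exact Ideal.Quotient.eq_zero_iff_mem.2 x.2)

lemma sI_exact (I : Ideal A) : (sI I).ShortExact := by
  refine ModuleCat.shortComplex_shortExact _ ?_ ?_ ?_
  · exact LinearMap.exact_subtype_mkQ I
  · exact Submodule.subtype_injective I
  · exact Submodule.mkQ_surjective I

lemma baer (N : ModuleCat.{0} A) (h : ∀ I : Ideal A,
    ∀ e : Ext (ModuleCat.of A (A ⧸ I)) N 1, e = 0) : Injective N := by
  rw [← Module.injective_iff_injective_object, ← Module.Baer.iff_injective]
  intro I g
  obtain ⟨ψ, hψ⟩ := Ext.contravariant_sequence_exact₁ (sI_exact I) N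
    (Ext.mk₀ (ModuleCat.ofHom g : ModuleCat.of A I ⟶ N)) (zero_add 1) (h I _)
  obtain ⟨ψ', rfl⟩ := Ext.homEquiv₀.symm.surjective ψ
  have h2 : (sI I).f ≫ ψ' = ModuleCat.ofHom g :=
    Ext.homEquiv₀.symm.injective (by
      refine Eq.trans ?_ hψ
      simp)
  refine ⟨ψ'.hom, fun x hx => ?_⟩
  have h3 := congrArg (fun f => f.hom ⟨x, hx⟩) h2
  exact h3

lemma inj_dim (r : ℕ) : ∀ (N : ModuleCat.{0} A), (∀ I : Ideal A,
    ∀ e : Ext (ModuleCat.of A (A ⧸ I)) N (r + 1), e = 0) → HasInjectiveDimensionLE N r := by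
  induction r with
  | zero =>
    intro N h
    have := baer N h
    infer_instance
  | succ r ih =>
    intro N h
    let ⟨J, _, f, _⟩ := EnoughInjectives.presentation N
    have hS : (ShortComplex.mk f (cokernel.π f) (cokernel.condition f)).ShortExact :=
      { exact := ShortComplex.exact_cokernel f }
    rw [HasInjectiveDimensionLE, ← hS.hasInjectiveDimensionLT_X₃_iff r ‹_›]
    apply ih
    intro I e
    obtain ⟨x, rfl⟩ := Ext.covariant_sequence_exact₃ _ hS e rfl (h I _)
    rw [x.eq_zero_of_injective, Ext.zero_comp]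

end AUS_

open AUS_ in
theorem aus_proof : Stmt_AUS := by
  intro A _ r h M
  have key : ∀ N : ModuleCat.{0} A, HasInjectiveDimensionLE N r := fun N =>
    inj_dim r N (fun I e => by
      have := h I
      exact Ext.eq_zero_of_hasProjectiveDimensionLT e (r + 1) le_rfl)
  rw [HasProjectiveDimensionLE, hasProjectiveDimensionLT_iff]
  intro i hi N e
  have := key N
  exact Ext.eq_zero_of_hasInjectiveDimensionLT e (r + 1) hi

end Pool.CRD.FB
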