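import Pool.Agent.CRD.Fib.Stmts
import Pool.Agent.CRD.Cnc.CSM
import Pool.Agent.CRD.Cnc.CLA
import Pool.Agent.CRD.Cnc.CND

/-!
# CRD / Fib, module CGL: global dimension of the charts of a conic
-/

open CategoryTheory Opposite Limits TensorProduct Pretriangulated

namespace Pool.CRD.FB

namespace CGL_

open Pool.CRD.Cn.CSM_

/-- all modules have projective dimension at most `r` -/
def AllPd (A : Type) [CommRing A] (r : ℕ) : Prop :=
  ∀ M : ModuleCat.{0} A, HasProjectiveDimensionLE M r

lemma allPd_equiv (hGDE : Pool.CRD.Stmt_GDE) {A A' : Type} [CommRing A] [CommRing A'] {r : ℕ}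
    (e : A ≃+* A') (h : AllPd A r) : AllPd A' r := by
  letI : Algebra A A' := e.toRingHom.toAlgebra
  haveI : Algebra.Etale A A' :=
    Algebra.Etale.of_equiv (AlgEquiv.ofBijective (Algebra.ofId A A') e.bijective)
  exact hGDE A A' r h

lemma away_equiv {A C : Type} [CommRing A] [CommRing C] (D : A ≃+* C) (f : A) (g : C)
    (h : D f = g) : Nonempty (Localization.Away f ≃+* Localization.Away g) := by
  subst h
  refine ⟨IsLocalization.ringEquivOfRingEquiv (Localization.Away f)
    (Localization.Away (D f)) (M := Submonoid.powers f) (T := Submonoid.powers (D f)) D ?_⟩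
  rw [Submonoid.map_powers]
  rfl

/-- the pair `(Y² - q, Y)` -/
noncomputable def pair {R : Type} [CommRing R] (q d : R) (h : 2 * d = 1) :
    StandardEtalePair R where
  f := Polynomial.X ^ 2 - Polynomial.C q
  monic_f := Polynomial.monic_X_pow_sub_C q two_ne_zero
  g := Polynomial.X
  cond := by
    refine ⟨Polynomial.C d, 0, 1, ?_⟩
    have h2 : (Polynomial.C (2 : R)) * Polynomial.C d = 1 := by
      rw [← map_mul, h, map_one]
    rw [Polynomial.derivative_sub, Polynomial.derivative_X_pow, Polynomial.derivative_C]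
    simp only [mul_zero, add_zero, sub_zero, pow_one]
    have : ((2 : ℕ) : R) = 2 := by norm_num
    rw [this]
    norm_num
    linear_combination Polynomial.X * h2

section

variable {R : Type} [CommRing R] (q : R)

/-- the square root of `q` -/
noncomputable def rt : QuadraticAlgebra R q 0 := ⟨0, 1⟩

lemma rt_sq : rt q * rt q = algebraMap R (QuadraticAlgebra R q 0) q := by
  apply QuadraticAlgebra.ext
  · change (0 : R) * 0 + q * 1 * 1 = q
    ring
  · change (0 : R) * 1 + 1 * 0 + 0 * 1 * 1 = 0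
    ring

lemma etale_rt (d : R) (h : 2 * d = 1) :
    Algebra.Etale R (Localization.Away (rt q)) := by
  set P := pair q d h with hP
  have hPf : P.f = Polynomial.X ^ 2 - Polynomial.C q := rfl
  have hPg : P.g = Polynomial.X := rfl
  have hX := P.hasMap_X
  have hX1 : P.X * P.X = algebraMap R P.Ring q := by
    have := hX.1
    rw [hPf, map_sub, map_pow, Polynomial.aeval_X, Polynomial.aeval_C, sub_eq_zero, pow_two] at this
    exact this
  have hX2 : IsUnit P.X := by
    have := hX.2
    rwa [hPg, Polynomial.aeval_X] at this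
  let A := QuadraticAlgebra R q 0
  let L := Localization.Away (rt q)
  have hm : P.HasMap (algebraMap A L (rt q)) := by
    constructor
    · rw [hPf, map_sub, map_pow, Polynomial.aeval_X, Polynomial.aeval_C, sub_eq_zero, pow_two,
        ← map_mul, rt_sq, ← IsScalarTower.algebraMap_apply]
    · rw [hPg, Polynomial.aeval_X]
      exact IsLocalization.Away.algebraMap_isUnit (rt q)
  let f : A →ₐ[R] P.Ring := QuadraticAlgebra.lift ⟨P.X, by
    rw [hX1, zero_smul, add_zero, Algebra.algebraMap_eq_smul_one]⟩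
  have hf : f (rt q) = P.X := by
    change (QuadraticAlgebra.lift _) (QuadraticAlgebra.omega) = _
    simp
  let φ : P.Ring →ₐ[R] L := P.lift _ hm
  let ψ : L →ₐ[R] P.Ring := IsLocalization.Away.liftAlgHom (rt q) (f := f) (by
    rw [hf]; exact hX2)
  have hu : IsUnit ((f : A →+* P.Ring) (rt q)) := by
    change IsUnit (f (rt q))
    rw [hf]; exact hX2
  have hψ : ∀ x : A, ψ (algebraMap A L x) = f x := fun x =>
    IsLocalization.Away.lift_eq (S := L) (rt q) (g := (f : A →+* P.Ring)) hu x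
  have e : P.Ring ≃ₐ[R] L := by
    refine AlgEquiv.ofAlgHom φ ψ ?_ ?_
    · apply IsLocalization.algHom_ext (Submonoid.powers (rt q))
      apply QuadraticAlgebra.algHom_ext
      change φ (ψ (algebraMap A L (rt q))) = algebraMap A L (rt q)
      rw [hψ, hf, P.lift_X]
    · apply P.hom_ext
      change ψ (φ P.X) = P.X
      rw [P.lift_X, hψ, hf]
  exact Algebra.Etale.of_equiv e

end

section Model

variable {B : Type} [CommRing B] {c0 c2 : B} {r : ℕ}

lemma allPd_ss (hGDX : Pool.CRD.Stmt_GDX) (hGDE : Pool.CRD.Stmt_GDE) (h2 : IsUnit (2 : B))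
    (hB : AllPd B r) (c0 c2 : B) : AllPd (Localization.Away (ss c0 c2)) (r + 1) := by
  obtain ⟨d, hd⟩ := h2.exists_right_inv
  have h1 : AllPd (Polynomial B) (r + 1) := hGDX B r hB
  haveI := etale_rt (Polynomial.C c0 + Polynomial.C c2 * Polynomial.X ^ 2)
    (Polynomial.C d) (by
      have := congrArg (Polynomial.C : B → Polynomial B) hd
      rwa [map_mul, map_one, map_ofNat] at this)
  exact hGDE (Polynomial B) (Localization.Away (rt (Polynomial.C c0 +
    Polynomial.C c2 * Polynomial.X ^ 2))) (r + 1) h1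

lemma allPd_uu (hGDX : Pool.CRD.Stmt_GDX) (hGDE : Pool.CRD.Stmt_GDE) (h2 : IsUnit (2 : B))
    (hB : AllPd B r) (c0 c2 : B) (h : IsUnit c2) :
    AllPd (Localization.Away (uu c0 c2)) (r + 1) := by
  obtain ⟨e, he⟩ := h.exists_right_inv
  have he1 : ∀ (C : Type) [CommRing C] [Algebra B C],
      algebraMap B C c2 * algebraMap B C e = 1 := by
    intro C _ _
    rw [← map_mul, he, map_one]
  obtain ⟨c', hc'⟩ : ∃ c' : B, c' = -(c0 * e) := ⟨_, rfl⟩
  have hc1 : ∀ (C : Type) [CommRing C] [Algebra B C],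
      algebraMap B C c' = -(algebraMap B C c0 * algebraMap B C e) := by
    intro C _ _
    rw [hc', map_neg, map_mul]
  let Q' := QQ c' e
  have q2 := ss_sq (c0 := c') (c2 := e)
  have q1 := ss_sq (c0 := c0) (c2 := c2)
  have h1 : uu c' e * uu c' e =
      algebraMap B Q' c0 + algebraMap B Q' c2 * (ss c' e) ^ 2 := by
    have hp : (ss c' e) ^ 2 = ss c' e * ss c' e := pow_two _
    rw [hp, q2, hc1 Q']
    linear_combination (algebraMap B Q' c0 - uu c' e ^ 2) * he1 Q'
  have h3 : uu c0 c2 * uu c0 c2 = algebraMap B (QQ c0 c2) c' +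
      algebraMap B (QQ c0 c2) e * (ss c0 c2) ^ 2 := by
    have hp : (ss c0 c2) ^ 2 = ss c0 c2 * ss c0 c2 := pow_two _
    rw [hp, q1, hc1 (QQ c0 c2)]
    linear_combination (- uu c0 c2 ^ 2) * he1 (QQ c0 c2)
  let f : QQ c0 c2 →ₐ[B] Q' := liftA _ _ h1
  let g : Q' →ₐ[B] QQ c0 c2 := liftA _ _ h3
  let σ : QQ c0 c2 ≃ₐ[B] Q' := AlgEquiv.ofAlgHom f g (by
      apply homExt
      · change f (g (uu c' e)) = uu c' e
        rw [liftA_uu, liftA_ss]
      · change f (g (ss c' e)) = ss c' e
        rw [liftA_ss, liftA_uu]) (by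
      apply homExt
      · change g (f (uu c0 c2)) = uu c0 c2
        rw [liftA_uu, liftA_ss]
      · change g (f (ss c0 c2)) = ss c0 c2
        rw [liftA_ss, liftA_uu])
  have hσ : σ.toRingEquiv (uu c0 c2) = ss c' e := by
    change f (uu c0 c2) = _
    rw [liftA_uu]
  obtain ⟨E⟩ := away_equiv σ.toRingEquiv _ _ hσ
  exact allPd_equiv hGDE E.symm (allPd_ss hGDX hGDE h2 hB _ _)

lemma span_top (c0 c2 : B) (h : IsUnit c0) :
    Ideal.span {ss c0 c2, uu c0 c2} = (⊤ : Ideal (QQ c0 c2)) := by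
  obtain ⟨e, he⟩ := h.exists_right_inv
  rw [Ideal.eq_top_iff_one, Ideal.mem_span_pair]
  refine ⟨algebraMap B _ e * ss c0 c2, -(algebraMap B _ e * algebraMap B _ c2 * uu c0 c2), ?_⟩
  have he1 : algebraMap B (QQ c0 c2) c0 * algebraMap B (QQ c0 c2) e = 1 := by
    rw [← map_mul, he, map_one]
  linear_combination algebraMap B (QQ c0 c2) e * ss_sq (c0 := c0) (c2 := c2) + he1

lemma gdim_model (hGDX : Pool.CRD.Stmt_GDX) (hGDE : Pool.CRD.Stmt_GDE)
    (hGDL : Pool.CRD.Stmt_GDL) [IsNoetherianRing B] (h2 : IsUnit (2 : B))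
    (hB : AllPd B r) (h0 : IsUnit c0) (h1 : IsUnit c2) {C : Type} [CommRing C]
    (e : QQ c0 c2 ≃+* C) : IsNoetherianRing C ∧ GDim C (r + 1) := by
  have hn : IsNoetherianRing (QQ c0 c2) := IsNoetherianRing.of_finite (Polynomial B) _
  have hnC : IsNoetherianRing C := isNoetherianRing_of_ringEquiv _ e
  refine ⟨hnC, ?_⟩
  refine hGDL C (r + 1) {e (ss c0 c2), e (uu c0 c2)} ?_ ?_
  · have := congrArg (Ideal.map (e : QQ c0 c2 →+* C)) (span_top c0 c2 h0)
    rw [Ideal.map_span, Ideal.map_top, Set.image_pair] at this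
    exact this
  · intro f hf M _
    rcases hf with rfl | hf
    · obtain ⟨E⟩ := away_equiv e (ss c0 c2) _ rfl
      exact allPd_equiv hGDE E (allPd_ss hGDX hGDE h2 hB c0 c2) M
    · rw [Set.mem_singleton_iff] at hf
      subst hf
      obtain ⟨E⟩ := away_equiv e (uu c0 c2) _ rfl
      exact allPd_equiv hGDE E (allPd_uu hGDX hGDE h2 hB c0 c2 h1) M

end Model

section Charts

variable {B : Type} [CommRing B] (a b : Bˣ) (K : Type) [CommRing K] [Algebra K B]

omit [Algebra K B] in
lemma eqv {A : Type} [CommRing A] [Algebra K A] {S T : Subalgebra K A} (h : S = T) :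
    ∃ e : S ≃+* T, ∀ z : S, ((e z : T) : A) = (z : A) := by
  subst h
  exact ⟨RingEquiv.refl _, fun _ => rfl⟩

lemma chartE (k : Cov Bool) (c0 c2 : B) (ψ : Polynomial B →ₐ[B] LaurentPolynomial B)
    (g : LaurentPolynomial B)
    (h : (⟨0, g⟩ : ConT a b) * ⟨0, g⟩ = algebraMap B (ConT a b) c0 +
      algebraMap B (ConT a b) c2 *
        (algebraMap (LaurentPolynomial B) (ConT a b) (ψ Polynomial.X)) ^ 2)
    (hinj : Function.Injective ψ) (hg : IsUnit g)
    (hre : ∀ f, f ∈ LpIn (B := B) (exR k) ↔ ∃ p, ψ p = f)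
    (him : ∀ f, f ∈ LpIn (B := B) (exI k) ↔ ∃ p, ψ p * g = f) :
    ∃ e : QQ c0 c2 ≃+* conSub a b K k, ((e (uu c0 c2) : conSub a b K k) : ConT a b) =
      algebraMap (LaurentPolynomial B) (ConT a b) (ψ Polynomial.X) := by
  let D : QQ c0 c2 →ₐ[B] ConT a b :=
    liftA (algebraMap (LaurentPolynomial B) (ConT a b) (ψ Polynomial.X)) ⟨0, g⟩ h
  have hDuu : D (uu c0 c2) = algebraMap (LaurentPolynomial B) (ConT a b) (ψ Polynomial.X) :=
    liftA_uu _ _ h
  have hD : ∀ z, D z = algebraMap (LaurentPolynomial B) (ConT a b) (ψ z.re) +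
      algebraMap (LaurentPolynomial B) (ConT a b) (ψ z.im) * ⟨0, g⟩ := by
    intro z
    change (Polynomial.aeval (algebraMap (LaurentPolynomial B) (ConT a b) (ψ Polynomial.X)) z.re :
        ConT a b) +
      Polynomial.aeval (algebraMap (LaurentPolynomial B) (ConT a b) (ψ Polynomial.X)) z.im *
        ⟨0, g⟩ = _
    rw [aev, aev]
  have hDre : ∀ z, (D z).re = ψ z.re := by
    intro z
    rw [hD]
    change ψ z.re + (ψ z.im * 0 + _ * 0 * g) = _
    ring
  have hDim : ∀ z, (D z).im = ψ z.im * g := by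
    intro z
    rw [hD]
    change 0 + (ψ z.im * g + 0 * 0 + 0 * 0 * g) = _
    ring
  let DK : QQ c0 c2 →ₐ[K] ConT a b := D.restrictScalars K
  have hDK : ∀ z, DK z = D z := fun z => rfl
  have hDinj : Function.Injective DK := by
    intro z w hzw
    rw [hDK, hDK] at hzw
    have h1 := congrArg QuadraticAlgebra.re hzw
    have h3 := congrArg QuadraticAlgebra.im hzw
    rw [hDre, hDre] at h1
    rw [hDim, hDim] at h3
    apply QuadraticAlgebra.ext
    · exact hinj h1
    · exact hinj (hg.mul_left_injective h3)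
  have hrange : DK.range = conSub a b K k := by
    ext z
    rw [AlgHom.mem_range]
    constructor
    · rintro ⟨w, rfl⟩
      refine ⟨?_, ?_⟩
      · rw [hDK, hDre]
        exact (hre _).mpr ⟨_, rfl⟩
      · rw [hDK, hDim]
        exact (him _).mpr ⟨_, rfl⟩
    · rintro ⟨hz1, hz2⟩
      obtain ⟨p, hp⟩ := (hre _).mp hz1
      obtain ⟨q, hq⟩ := (him _).mp hz2
      refine ⟨⟨p, q⟩, ?_⟩
      rw [hDK]
      apply QuadraticAlgebra.ext
      · rw [hDre, hp]
      · rw [hDim, hq]
  obtain ⟨e1, he1⟩ : ∃ e1 : QQ c0 c2 ≃ₐ[K] DK.range, ∀ z, ((e1 z : DK.range) : ConT a b) = DK z :=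
    ⟨AlgEquiv.ofInjective DK hDinj, fun z => AlgEquiv.ofInjective_apply DK hDinj z⟩
  obtain ⟨e2, he2⟩ := eqv K hrange
  exact ⟨e1.toRingEquiv.trans e2, (he2 _).trans ((he1 _).trans ((hDK _).trans hDuu))⟩

lemma equiv_ca (c0 c2 : B) (h0 : c0 = ↑b⁻¹) (h2 : c2 = -(↑b⁻¹ * ↑a)) :
    ∃ e : QQ c0 c2 ≃+* conSub a b K ca, ((e (uu c0 c2) : conSub a b K ca) : ConT a b) =
      algebraMap (LaurentPolynomial B) (ConT a b)
        (Polynomial.toLaurentAlg (R := B) Polynomial.X) := by
  refine chartE a b K ca c0 c2 Polynomial.toLaurentAlg 1 ?_ ?_ isUnit_one ?_ ?_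
  · subst h0 h2
    rw [Polynomial.toLaurentAlg_apply, Polynomial.toLaurent_X, ← map_pow,
      LaurentPolynomial.T_pow]
    apply QuadraticAlgebra.ext
    · change (0 : LaurentPolynomial B) * 0 + conQ a b * 1 * 1 =
        algebraMap B (LaurentPolynomial B) (↑b⁻¹) +
        (algebraMap B (LaurentPolynomial B) (-(↑b⁻¹ * a)) * LaurentPolynomial.T (2 * 1) +
          conQ a b * 0 * 0)
      rw [← LaurentPolynomial.C_eq_algebraMap, ← LaurentPolynomial.C_eq_algebraMap, map_neg,
        map_mul]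
      norm_num
      ring
    · change (0 : LaurentPolynomial B) * 1 + 1 * 0 + 0 * 1 * 1 = 0 +
        (algebraMap B (LaurentPolynomial B) (-(↑b⁻¹ * a)) * 0 + 0 * _ + 0 * 0 * 0)
      ring
  · exact Polynomial.toLaurent_injective
  · intro f
    have h : f ∈ LpIn (B := B) (exR ca) ↔ f ∈ LpIn (B := B) {n : ℤ | 0 ≤ n} := by
      constructor
      · exact LpIn.mono (fun n hn => (mem_exR_ca n).mp hn)
      · exact LpIn.mono (fun n hn => (mem_exR_ca n).mpr hn)
    rw [h]
    constructor
    · exact toL_surj f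
    · rintro ⟨p, rfl⟩
      exact toL_mem p
  · intro f
    have h : f ∈ LpIn (B := B) (exI ca) ↔ f ∈ LpIn (B := B) {n : ℤ | 0 ≤ n} := by
      constructor
      · exact LpIn.mono (fun n hn => (mem_exI_ca n).mp hn)
      · exact LpIn.mono (fun n hn => (mem_exI_ca n).mpr hn)
    rw [h]
    constructor
    · intro hf
      obtain ⟨p, hp⟩ := toL_surj f hf
      exact ⟨p, by rw [mul_one]; exact hp⟩
    · rintro ⟨p, rfl⟩
      rw [mul_one]
      exact toL_mem p

lemma equiv_cb (c0 c2 : B) (h0 : c0 = -(↑b⁻¹ * ↑a)) (h2 : c2 = ↑b⁻¹) :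
    ∃ e : QQ c0 c2 ≃+* conSub a b K cb, ((e (uu c0 c2) : conSub a b K cb) : ConT a b) =
      algebraMap (LaurentPolynomial B) (ConT a b)
      (((LaurentPolynomial.invert (R := B)).toAlgHom.comp Polynomial.toLaurentAlg)
        Polynomial.X) := by
  refine chartE a b K cb c0 c2
    ((LaurentPolynomial.invert (R := B)).toAlgHom.comp Polynomial.toLaurentAlg)
    (LaurentPolynomial.T (-1)) ?_ ?_ (LaurentPolynomial.isUnit_T _) ?_ ?_
  · subst h0 h2
    have hX : ((LaurentPolynomial.invert (R := B)).toAlgHom.comp Polynomial.toLaurentAlg)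
        Polynomial.X = LaurentPolynomial.T (-1) := by
      change LaurentPolynomial.invert (Polynomial.toLaurent Polynomial.X) = _
      rw [Polynomial.toLaurent_X, LaurentPolynomial.invert_T]
    rw [hX, ← map_pow, LaurentPolynomial.T_pow]
    have hT : (LaurentPolynomial.T 2 : LaurentPolynomial B) * LaurentPolynomial.T (-2) = 1 := by
      rw [← LaurentPolynomial.T_add]
      norm_num
    have hTT : (LaurentPolynomial.T (-1) : LaurentPolynomial B) * LaurentPolynomial.T (-1) =
        LaurentPolynomial.T (-2) := by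
      rw [← LaurentPolynomial.T_add]
      norm_num
    apply QuadraticAlgebra.ext
    · change (0 : LaurentPolynomial B) * 0 + conQ a b * LaurentPolynomial.T (-1) *
          LaurentPolynomial.T (-1) =
        algebraMap B (LaurentPolynomial B) (-(↑b⁻¹ * a)) +
        (algebraMap B (LaurentPolynomial B) (↑b⁻¹) * LaurentPolynomial.T (2 * (-1)) +
          conQ a b * 0 * 0)
      rw [← LaurentPolynomial.C_eq_algebraMap, ← LaurentPolynomial.C_eq_algebraMap, map_neg,
        map_mul]
      have e2 : (2 * (-1) : ℤ) = -2 := by norm_num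
      rw [e2, mul_assoc, hTT]
      linear_combination (-(LaurentPolynomial.C (↑b⁻¹ : B)) * LaurentPolynomial.C (a : B)) * hT
    · change (0 : LaurentPolynomial B) * LaurentPolynomial.T (-1) + LaurentPolynomial.T (-1) * 0 +
          0 * LaurentPolynomial.T (-1) * LaurentPolynomial.T (-1) = 0 +
        (algebraMap B (LaurentPolynomial B) (↑b⁻¹) * 0 + 0 * _ + 0 * 0 * 0)
      ring
  · exact (LaurentPolynomial.invert (R := B)).injective.comp Polynomial.toLaurent_injective
  · intro f
    have h : f ∈ LpIn (B := B) (exR cb) ↔ f ∈ LpIn (B := B) {n : ℤ | n ≤ 0} := by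
      constructor
      · exact LpIn.mono (fun n hn => (mem_exR_cb n).mp hn)
      · exact LpIn.mono (fun n hn => (mem_exR_cb n).mpr hn)
    rw [h]
    constructor
    · intro hf
      obtain ⟨p, hp⟩ := toL_surj (LaurentPolynomial.invert f)
        (inv_mem (fun n hn => by
          have h1 : -n ≤ 0 := hn
          change 0 ≤ n
          omega) hf)
      refine ⟨p, ?_⟩
      change LaurentPolynomial.invert (Polynomial.toLaurent p) = f
      rw [hp, Cn.CSM_.inv_inv]
    · rintro ⟨p, rfl⟩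
      exact inv_mem (fun n hn => by
        have h1 : 0 ≤ -n := hn
        change n ≤ 0
        omega) (toL_mem p)
  · intro f
    have h : f ∈ LpIn (B := B) (exI cb) ↔ f ∈ LpIn (B := B) {n : ℤ | n ≤ -1} := by
      constructor
      · exact LpIn.mono (fun n hn => (mem_exI_cb n).mp hn)
      · exact LpIn.mono (fun n hn => (mem_exI_cb n).mpr hn)
    rw [h]
    constructor
    · intro hf
      have hf1 : f * LaurentPolynomial.T 1 ∈ LpIn (B := B) {n : ℤ | n ≤ 0} :=
        LpIn.mul (s := {n : ℤ | n ≤ -1}) (t := {1}) (fun x hx y hy => by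
          rw [Set.mem_singleton_iff] at hy
          have h1 : x ≤ -1 := hx
          change x + y ≤ 0
          omega) hf (single_mem_LpIn (Set.mem_singleton 1) _)
      obtain ⟨p, hp⟩ := toL_surj (LaurentPolynomial.invert (f * LaurentPolynomial.T 1))
        (inv_mem (fun n hn => by
          have h1 : -n ≤ 0 := hn
          change 0 ≤ n
          omega) hf1)
      refine ⟨p, ?_⟩
      change LaurentPolynomial.invert (Polynomial.toLaurent p) * _ = f
      rw [hp, Cn.CSM_.inv_inv, LaurentPolynomial.mul_T_assoc]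
      norm_num
    · rintro ⟨p, rfl⟩
      refine LpIn.mul (s := {n : ℤ | n ≤ 0}) (t := {-1}) (fun x hx y hy => by
          rw [Set.mem_singleton_iff] at hy
          have h1 : x ≤ 0 := hx
          change x + y ≤ -1
          omega) ?_ (single_mem_LpIn (Set.mem_singleton (-1)) _)
      exact inv_mem (fun n hn => by
        have h1 : 0 ≤ -n := hn
        change n ≤ 0
        omega) (toL_mem p)

end Charts

end CGL_

open CGL_ Pool.CRD.Cn.CSM_ in
theorem cgl_proof (hGDX : Pool.CRD.Stmt_GDX) (hGDE : Pool.CRD.Stmt_GDE)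
    (hGDL : Pool.CRD.Stmt_GDL) : Stmt_CGL := by
  intro B _ _ a b K _ _ r h2 hB k
  obtain ⟨c0, hc0⟩ : ∃ c : B, c = ↑b⁻¹ := ⟨_, rfl⟩
  obtain ⟨c2, hc2⟩ : ∃ c : B, c = -(↑b⁻¹ * (a : B)) := ⟨_, rfl⟩
  have hb : IsUnit c0 := by rw [hc0]; exact b⁻¹.isUnit
  have hab : IsUnit c2 := by rw [hc2]; exact (b⁻¹.isUnit.mul a.isUnit).neg
  rcases cov_cases k with rfl | rfl | rfl
  · obtain ⟨e, -⟩ := equiv_ca a b K c0 c2 hc0 hc2
    exact gdim_model hGDX hGDE hGDL h2 hB hb hab e
  · obtain ⟨e, -⟩ := equiv_cb a b K c2 c0 hc2 hc0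
    exact gdim_model hGDX hGDE hGDL h2 hB hab hb e
  · obtain ⟨e, he⟩ := equiv_ca a b K c0 c2 hc0 hc2
    have hn := (gdim_model hGDX hGDE hGDL h2 hB hb hab e).1
    have he' : e (uu c0 c2) = (Cn.TA (K := K) a b : (Cnc a b K).ring ca) := by
      apply Subtype.ext
      rw [he, Polynomial.toLaurentAlg_apply, Polynomial.toLaurent_X]
      rfl
    have h3 : AllPd (Localization.Away (uu c0 c2)) (r + 1) :=
      allPd_uu hGDX hGDE h2 hB _ _ hab
    obtain ⟨E⟩ := away_equiv (C := (Cnc a b K).ring ca) e _ _ he'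
    letI : Algebra ((Cnc a b K).ring ca) ((Cnc a b K).ring cab) :=
      ((Cnc a b K).map (homOfLE cab_le_ca).op).hom.toRingHom.toAlgebra
    have h4 : IsLocalization.Away (Cn.TA (K := K) a b) ((Cnc a b K).ring cab) :=
      Cn.cla_proof K B a b
    have E' : Localization.Away (Cn.TA (K := K) a b) ≃+* (Cnc a b K).ring cab :=
      (IsLocalization.algEquiv (Submonoid.powers (Cn.TA (K := K) a b)) _ _).toRingEquiv
    have h5 : AllPd ((Cnc a b K).ring cab) (r + 1) :=
      allPd_equiv hGDE E' (allPd_equiv hGDE E h3)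
    have h6 : IsNoetherianRing ((Cnc a b K).ring cab) :=
      IsLocalization.isNoetherianRing (Submonoid.powers (Cn.TA (K := K) a b)) _ hn
    exact ⟨h6, fun M _ => h5 M⟩

end Pool.CRD.FB
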