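import Pool.Agent.CRD.Fib.Stmts

/-!
# CRD / Fib, module CKS: change of the base ring along a surjective homomorphism
-/

open CategoryTheory Opposite Limits TensorProduct Pretriangulated

namespace Pool.CRD.FB

namespace CKS_

lemma conT_ind2 {B : Type} [CommRing B] {a b : Bˣ} {P : ConT a b → Prop} (J : Set B)
    (hJ : (0 : B) ∈ J)
    (hadd : ∀ x y, P x → P y → P (x + y)) (s t : Set ℤ)
    (hre : ∀ n ∈ s, ∀ r ∈ J, P ⟨AddMonoidAlgebra.single n r, 0⟩)
    (him : ∀ n ∈ t, ∀ r ∈ J, P ⟨0, AddMonoidAlgebra.single n r⟩) (h0 : P 0)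
    (z : ConT a b) (hz1 : z.re ∈ LpIn s) (hz2 : z.im ∈ LpIn t)
    (hc1 : ∀ n, z.re.coeff n ∈ J) (hc2 : ∀ n, z.im.coeff n ∈ J) : P z := by
  classical
  have key1 : ∀ (f : ℤ →₀ B), (∀ n, n ∉ s → f n = 0) → (∀ n, f n ∈ J) →
      P ⟨AddMonoidAlgebra.ofCoeff f, 0⟩ := by
    intro f
    induction f using Finsupp.induction with
    | zero => intro _ _; exact h0
    | single_add n r f hn hr ih =>
      intro hf hfJ
      have hfn : f n = 0 := Finsupp.notMem_support_iff.1 hn
      have hns : n ∈ s := by
        by_contra h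
        have := hf n h
        rw [Finsupp.add_apply, Finsupp.single_eq_same, hfn, add_zero] at this
        exact hr this
      have hrJ : r ∈ J := by
        have := hfJ n
        rwa [Finsupp.add_apply, Finsupp.single_eq_same, hfn, add_zero] at this
      have hf' : ∀ m, m ∉ s → f m = 0 := by
        intro m hm
        have := hf m hm
        rw [Finsupp.add_apply, Finsupp.single_eq_of_ne (fun (h : m = n) => hm (by rw [h]; exact hns)), zero_add] at this
        exact this
      have hfJ' : ∀ m, f m ∈ J := by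
        intro m
        by_cases hm : m = n
        · rw [hm, hfn]; exact hJ
        · have := hfJ m
          rwa [Finsupp.add_apply, Finsupp.single_eq_of_ne hm, zero_add] at this
      have := hadd _ _ (hre n hns r hrJ) (ih hf' hfJ')
      convert this using 1
      apply QuadraticAlgebra.ext
      · rfl
      · exact (add_zero _).symm
  have key2 : ∀ (f : ℤ →₀ B), (∀ n, n ∉ t → f n = 0) → (∀ n, f n ∈ J) →
      P ⟨0, AddMonoidAlgebra.ofCoeff f⟩ := by
    intro f
    induction f using Finsupp.induction with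
    | zero => intro _ _; exact h0
    | single_add n r f hn hr ih =>
      intro hf hfJ
      have hfn : f n = 0 := Finsupp.notMem_support_iff.1 hn
      have hns : n ∈ t := by
        by_contra h
        have := hf n h
        rw [Finsupp.add_apply, Finsupp.single_eq_same, hfn, add_zero] at this
        exact hr this
      have hrJ : r ∈ J := by
        have := hfJ n
        rwa [Finsupp.add_apply, Finsupp.single_eq_same, hfn, add_zero] at this
      have hf' : ∀ m, m ∉ t → f m = 0 := by
        intro m hm
        have := hf m hm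
        rw [Finsupp.add_apply, Finsupp.single_eq_of_ne (fun (h : m = n) => hm (by rw [h]; exact hns)), zero_add] at this
        exact this
      have hfJ' : ∀ m, f m ∈ J := by
        intro m
        by_cases hm : m = n
        · rw [hm, hfn]; exact hJ
        · have := hfJ m
          rwa [Finsupp.add_apply, Finsupp.single_eq_of_ne hm, zero_add] at this
      have := hadd _ _ (him n hns r hrJ) (ih hf' hfJ')
      convert this using 1
      apply QuadraticAlgebra.ext
      · exact (add_zero _).symm
      · rfl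
  have := hadd _ _ (key1 z.re.coeff hz1 hc1) (key2 z.im.coeff hz2 hc2)
  convert this using 1
  apply QuadraticAlgebra.ext
  · exact (add_zero _).symm
  · exact (zero_add _).symm

variable {B B' : Type} [CommRing B] [CommRing B'] (f : B →+* B') {a b : Bˣ} {a' b' : B'ˣ}
  (κ μ : B'ˣ) (ha : (a' : B') = (κ : B') ^ 2 * f a) (hb : (b' : B') = (μ : B') ^ 2 * f b)
  (K K' : Type) [CommRing K] [CommRing K'] [Algebra K B] [Algebra K' B']

lemma conMap_single_re (n : ℤ) (r : B) :
    conMap f κ μ ha hb ⟨AddMonoidAlgebra.single n r, 0⟩ =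
      ⟨AddMonoidAlgebra.single n (f r * ((κ ^ n : B'ˣ) : B')), 0⟩ := by
  apply QuadraticAlgebra.ext
  · exact lauMap_single f κ n r
  · change LaurentPolynomial.C (μ : B') * lauMap f κ 0 = 0
    rw [map_zero, mul_zero]

lemma conMap_single_im (n : ℤ) (r : B) :
    conMap f κ μ ha hb ⟨0, AddMonoidAlgebra.single n r⟩ =
      ⟨0, AddMonoidAlgebra.single n ((μ : B') * (f r * ((κ ^ n : B'ˣ) : B')))⟩ := by
  apply QuadraticAlgebra.ext
  · change lauMap f κ 0 = 0
    exact map_zero _
  · change LaurentPolynomial.C (μ : B') * lauMap f κ (AddMonoidAlgebra.single n r) = _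
    rw [lauMap_single, ← LaurentPolynomial.single_eq_C, AddMonoidAlgebra.single_mul_single,
      zero_add]

lemma surj (k : Cov Bool) (hf : Function.Surjective f) :
    Function.Surjective (conMapR f κ μ ha hb K K' k) := by
  intro z
  have key : ∃ w ∈ conSub a b K k, conMap f κ μ ha hb w = (z : ConT a' b') := by
    refine conT_induction (P := fun z => ∃ w ∈ conSub a b K k, conMap f κ μ ha hb w = z) ?_
      (exR k) (exI k) ?_ ?_ ?_ (z : ConT a' b') z.2.1 z.2.2
    · rintro x y ⟨w1, h1, rfl⟩ ⟨w2, h2, rfl⟩
      exact ⟨w1 + w2, add_mem h1 h2, map_add _ _ _⟩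
    · intro n hn r
      obtain ⟨r0, hr0⟩ := hf (r * ((κ ^ (-n) : B'ˣ) : B'))
      refine ⟨⟨AddMonoidAlgebra.single n r0, 0⟩, ⟨single_mem_LpIn hn _, zero_mem _⟩, ?_⟩
      rw [conMap_single_re, hr0, mul_assoc, ← Units.val_mul, ← zpow_add, neg_add_cancel,
        zpow_zero, Units.val_one, mul_one]
    · intro n hn r
      obtain ⟨r0, hr0⟩ := hf (((μ⁻¹ : B'ˣ) : B') * (r * ((κ ^ (-n) : B'ˣ) : B')))
      refine ⟨⟨0, AddMonoidAlgebra.single n r0⟩, ⟨zero_mem _, single_mem_LpIn hn _⟩, ?_⟩
      rw [conMap_single_im, hr0, mul_assoc (((μ⁻¹ : B'ˣ) : B')), mul_assoc r, ← Units.val_mul,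
        ← zpow_add, neg_add_cancel, zpow_zero, Units.val_one, mul_one, ← mul_assoc,
        Units.mul_inv, one_mul]
    · exact ⟨0, zero_mem _, map_zero _⟩
  obtain ⟨w, hw, hwz⟩ := key
  exact ⟨⟨w, hw⟩, Subtype.ext hwz⟩

end CKS_

open CKS_ in
theorem cks_proof : Stmt_CKS := by
  intro B B' _ _ f a b a' b' κ μ ha hb K K' _ _ _ _ k hf
  refine ⟨surj f κ μ ha hb K K' k hf, fun w => ⟨fun h => ?_, fun h => ?_⟩⟩
  · -- coefficients in the kernel
    have h1 : conMap f κ μ ha hb (w : ConT a b) = 0 := congrArg Subtype.val h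
    have hre : lauMap f κ (w : ConT a b).re = 0 := congrArg QuadraticAlgebra.re h1
    have him : LaurentPolynomial.C (μ : B') * lauMap f κ (w : ConT a b).im = 0 :=
      congrArg QuadraticAlgebra.im h1
    have him' : lauMap f κ (w : ConT a b).im = 0 := by
      have h2 : LaurentPolynomial.C ((μ⁻¹ : B'ˣ) : B') *
          (LaurentPolynomial.C (μ : B') * lauMap f κ (w : ConT a b).im) = 0 := by
        rw [him, mul_zero]
      rwa [← mul_assoc, ← map_mul, Units.inv_mul, map_one, one_mul] at h2
    have hc : ∀ g : LaurentPolynomial B, lauMap f κ g = 0 → ∀ n,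
        g.coeff n ∈ (RingHom.ker f : Set B) := by
      intro g hg n
      have h2 := lauMap_coeff f κ g n
      rw [hg] at h2
      have h3 : f (g.coeff n) * ((κ ^ n : B'ˣ) : B') = 0 := h2.symm
      have h4 : f (g.coeff n) * ((κ ^ n : B'ˣ) : B') * (((κ ^ n)⁻¹ : B'ˣ) : B') = 0 := by
        rw [h3, zero_mul]
      rw [mul_assoc, Units.mul_inv, mul_one] at h4
      exact h4
    have hre2 := w.2.1
    have him2 := w.2.2
    have key : ∃ hw : (w : ConT a b) ∈ conSub a b K k,
        (⟨(w : ConT a b), hw⟩ : conSub a b K k) ∈ Ideal.map (conC a b K k) (RingHom.ker f) := by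
      refine conT_ind2 (P := fun z => ∃ hz : z ∈ conSub a b K k,
        (⟨z, hz⟩ : conSub a b K k) ∈ Ideal.map (conC a b K k) (RingHom.ker f))
        (RingHom.ker f : Set B) (Ideal.zero_mem _) ?_ (exR k) (exI k) ?_ ?_ ?_
        (w : ConT a b) hre2 him2 (hc _ hre) (hc _ him')
      · rintro x y ⟨hx, hx'⟩ ⟨hy, hy'⟩
        exact ⟨add_mem hx hy, Ideal.add_mem _ hx' hy'⟩
      · intro n hn r hr
        refine ⟨⟨single_mem_LpIn hn _, zero_mem _⟩, ?_⟩
        have e : (⟨⟨AddMonoidAlgebra.single n r, 0⟩, ⟨single_mem_LpIn hn _, zero_mem _⟩⟩ :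
            conSub a b K k) = ⟨⟨AddMonoidAlgebra.single n 1, 0⟩,
              ⟨single_mem_LpIn hn _, zero_mem _⟩⟩ * conC a b K k r := by
          apply Subtype.ext
          apply QuadraticAlgebra.ext
          · change (AddMonoidAlgebra.single n r : LaurentPolynomial B) =
              AddMonoidAlgebra.single n 1 * AddMonoidAlgebra.single 0 r + conQ a b * 0 * 0
            rw [AddMonoidAlgebra.single_mul_single, add_zero, one_mul, mul_zero, add_zero]
          · change (0 : LaurentPolynomial B) = AddMonoidAlgebra.single n 1 * 0 +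
              0 * AddMonoidAlgebra.single 0 r + 0 * 0 * 0
            ring
        rw [e]
        exact Ideal.mul_mem_left _ _ (Ideal.mem_map_of_mem _ hr)
      · intro n hn r hr
        refine ⟨⟨zero_mem _, single_mem_LpIn hn _⟩, ?_⟩
        have e : (⟨⟨0, AddMonoidAlgebra.single n r⟩, ⟨zero_mem _, single_mem_LpIn hn _⟩⟩ :
            conSub a b K k) = ⟨⟨0, AddMonoidAlgebra.single n 1⟩,
              ⟨zero_mem _, single_mem_LpIn hn _⟩⟩ * conC a b K k r := by
          apply Subtype.ext
          apply QuadraticAlgebra.ext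
          · change (0 : LaurentPolynomial B) = 0 * AddMonoidAlgebra.single 0 r +
              conQ a b * AddMonoidAlgebra.single n 1 * 0
            ring
          · change (AddMonoidAlgebra.single n r : LaurentPolynomial B) =
              0 * 0 + AddMonoidAlgebra.single n 1 * AddMonoidAlgebra.single 0 r +
                0 * AddMonoidAlgebra.single n 1 * 0
            rw [AddMonoidAlgebra.single_mul_single, add_zero, one_mul]
            ring
        rw [e]
        exact Ideal.mul_mem_left _ _ (Ideal.mem_map_of_mem _ hr)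
      · exact ⟨zero_mem _, Ideal.zero_mem _⟩
    obtain ⟨hw, hw'⟩ := key
    exact hw'
  · have hle : Ideal.map (conC a b K k) (RingHom.ker f) ≤
        RingHom.ker (conMapR f κ μ ha hb K K' k) := by
      rw [Ideal.map_le_iff_le_comap]
      intro r hr
      rw [Ideal.mem_comap, RingHom.mem_ker]
      apply Subtype.ext
      change conMap f κ μ ha hb ⟨AddMonoidAlgebra.single 0 r, 0⟩ = 0
      rw [conMap_single_re, RingHom.mem_ker.1 hr, zero_mul]
      apply QuadraticAlgebra.ext
      · exact AddMonoidAlgebra.single_zero _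
      · rfl
    exact hle h

end Pool.CRD.FB
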