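import Pool.Agent.CRD.Fib.Stmts

open CategoryTheory Opposite Limits TensorProduct Pretriangulated

namespace Pool.CRD.FB

namespace CMC_

lemma lau_comp {B B' B'' : Type} [CommRing B] [CommRing B'] [CommRing B''] (f : B →+* B')
    (g : B' →+* B'') (κ : B'ˣ) (κ' : B''ˣ) (p : LaurentPolynomial B) :
    lauMap g κ' (lauMap f κ p) =
      lauMap (g.comp f) (κ' * Units.map (g : B' →* B'') κ) p := by
  apply LaurentPolynomial.ext
  intro n
  rw [lauMap_coeff, lauMap_coeff, lauMap_coeff, map_mul, RingHom.comp_apply, mul_zpow,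
    Units.val_mul, ← map_zpow, Units.coe_map]
  show g (f (p.coeff n)) * g _ * _ = _
  have : ((g : B' →* B'') ((κ ^ n : B'ˣ) : B')) = g ((κ ^ n : B'ˣ) : B') := rfl
  rw [this]
  ring

lemma lau_C {B' B'' : Type} [CommRing B'] [CommRing B''] (g : B' →+* B'') (κ' : B''ˣ) (r : B') :
    lauMap g κ' (LaurentPolynomial.C r) = LaurentPolynomial.C (g r) := by
  rw [← LaurentPolynomial.single_eq_C, lauMap_single, zpow_zero, Units.val_one, mul_one,
    LaurentPolynomial.single_eq_C]

end CMC_

open CMC_ in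
theorem cmc_proof : Stmt_CMC := by
  intro B B' B'' _ _ _ f g a b a' b' κ μ a'' b'' κ' μ' ha hb ha' hb' h1 h2 w
  apply QuadraticAlgebra.ext
  · rw [conMap_re, conMap_re, conMap_re, lau_comp]
  · rw [conMap_im, conMap_im, conMap_im, map_mul, lau_comp, lau_C, ← mul_assoc, ← map_mul]
    rfl

end Pool.CRD.FB
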