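import Pool.Agent.CRD.Fib.Stmts

/-!
# CRD / Fib: EVK, the evaluation on the fibre over a closed point
-/

open CategoryTheory Opposite Limits TensorProduct Pretriangulated

namespace Pool.CRD.FB

namespace EVK_

variable {K : Type} [Field K] {c₁ c₂ : CurveData K} {S : SurfData c₁ c₂} (X : ConicData S)
  (z : S.Pt)

/-- the constants in the ring of the chart -/
noncomputable def cstE (s : Ch3) : S.A s.i s.j →+* X.A s.i s.j s.k :=
  (X.cE s.i s.j s.k).toRingEquiv.toRingHom.comp (conC (S.ua s.i s.j) (S.ub s.i s.j) K s.k)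

lemma cstE_coe (s : Ch3) (r : S.A s.i s.j) :
    ((cstE X s r : X.A s.i s.j s.k) : X.E) = algebraMap S.L X.E r := by
  change X.toEc s.i s.j ⟨AddMonoidAlgebra.single 0 r, 0⟩ = _
  rw [X.toEc_re, zpow_zero, mul_one]

lemma IX_eq (s : Ch3) : X.IX z s = Ideal.map (cstE X s) (z.IS s.i s.j) := by
  unfold ConicData.IX SurfData.Pt.IS
  rw [Ideal.map_sup, Ideal.map_map, Ideal.map_map]
  have h1 : (cstE X s).comp (S.inc₁ s.i s.j).toRingHom = (X.dir₁.e s).toRingHom := by
    apply RingHom.ext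
    intro f
    apply Subtype.ext
    change ((cstE X s (S.inc₁ s.i s.j f) : X.A s.i s.j s.k) : X.E) = _
    rw [cstE_coe]
    rfl
  have h2 : (cstE X s).comp (S.inc₂ s.i s.j).toRingHom = (X.dir₂.e s).toRingHom := by
    apply RingHom.ext
    intro f
    apply Subtype.ext
    change ((cstE X s (S.inc₂ s.i s.j f) : X.A s.i s.j s.k) : X.E) = _
    rw [cstE_coe]
    rfl
  rw [h1, h2]
  rfl

end EVK_

open EVK_ in
theorem evk_proof (hZVS : Stmt_ZVS) (hZVC : Stmt_ZVC) (hCKS : Stmt_CKS) : Stmt_EVK := by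
  intro K _ c₁ c₂ S X z s
  have hIX := IX_eq X z s
  refine ⟨fun hs => ?_, fun hn => ?_⟩
  · have hsurj : Function.Surjective (z.evS hs).toRingHom := fun k =>
      ⟨algebraMap K _ k, (z.evS hs).commutes k⟩
    obtain ⟨h1, h2⟩ := hCKS (S.A s.i s.j) K (z.evS hs).toRingHom (S.ua s.i s.j) (S.ub s.i s.j) z.u z.v
      (Units.map (z.χO.toRingHom : z.O →* K) (z.κO hs))
      (Units.map (z.χO.toRingHom : z.O →* K) (z.μO hs)) (z.u_eq hs) (z.v_eq hs) K K s.k hsurj
    have hker : RingHom.ker (z.evS hs).toRingHom = z.IS s.i s.j := by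
      ext f
      rw [RingHom.mem_ker]
      exact (hZVS K c₁ c₂ S z s.i s.j).1 hs f
    refine ⟨fun y => ?_, fun f => ?_⟩
    · obtain ⟨w, hw⟩ := h1 y
      exact ⟨X.cE s.i s.j s.k w, by rw [hZVC K c₁ c₂ S X z s hs w, hw]⟩
    · obtain ⟨w, rfl⟩ := (X.cE s.i s.j s.k).surjective f
      rw [hZVC K c₁ c₂ S X z s hs w, h2, hker, hIX]
      have h3 : Ideal.map (cstE X s) (z.IS s.i s.j) =
          Ideal.map ((X.cE s.i s.j s.k).toRingEquiv.toRingHom)
            (Ideal.map (conC (S.ua s.i s.j) (S.ub s.i s.j) K s.k) (z.IS s.i s.j)) := by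
        rw [Ideal.map_map]
        rfl
      rw [h3]
      constructor
      · intro h
        exact Ideal.mem_map_of_mem _ h
      · intro h
        have h5 : w ∈ Ideal.comap ((X.cE s.i s.j s.k).toRingEquiv.toRingHom)
          (Ideal.map ((X.cE s.i s.j s.k).toRingEquiv.toRingHom)
            (Ideal.map (conC (S.ua s.i s.j) (S.ub s.i s.j) K s.k) (z.IS s.i s.j))) := h
        rwa [Ideal.comap_map_of_bijective ((X.cE s.i s.j s.k).toRingEquiv.toRingHom)
          (X.cE s.i s.j s.k).bijective] at h5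
  · rw [hIX, (hZVS K c₁ c₂ S z s.i s.j).2 hn]
    exact Ideal.map_top _

end Pool.CRD.FB
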