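import Pool.Agent.CRD.Fib.Stmts

/-!
# CRD / Fib: the fibre over `z` as a base change of the restriction to the smallest charts
-/

open CategoryTheory Opposite Limits TensorProduct Pretriangulated

namespace Pool.CRD.FB

namespace GBK_

/-- base changes along equal ring homomorphisms -/
noncomputable def btE {A B M : Type} [CommRing A] [CommRing B] [AddCommGroup M] [Module A M]
    {f f' : A →+* B} (h : ∀ x, f x = f' x) : BT f M ≃ₗ[B] BT f' M :=
  let F : BT f M →+ BT f' M := BTmap (RingHom.id A) (RingHom.id B) h (AddMonoidHom.id M)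
    (fun _ _ => rfl)
  let G : BT f' M →+ BT f M := BTmap (RingHom.id A) (RingHom.id B) (fun x => (h x).symm)
    (AddMonoidHom.id M) (fun _ _ => rfl)
  { toFun := F
    map_add' := F.map_add
    map_smul' := fun c x => BTmap_smul _ _ _ _ _ c x
    invFun := G
    left_inv := fun x => by
      refine bt_induction f (P := fun x => G (F x) = x) ?_ ?_ ?_ x
      · rw [map_zero, map_zero]
      · intro b m; rfl
      · intro x y hx hy
        rw [map_add, map_add, hx, hy]
    right_inv := fun x => by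
      refine bt_induction f' (P := fun x => F (G x) = x) ?_ ?_ ?_ x
      · rw [map_zero, map_zero]
      · intro b m; rfl
      · intro x y hx hy
        rw [map_add, map_add, hx, hy] }

lemma btE_bt {A B M : Type} [CommRing A] [CommRing B] [AddCommGroup M] [Module A M]
    {f f' : A →+* B} (h : ∀ x, f x = f' x) (b : B) (m : M) :
    btE h (bt f b m) = bt f' b m := rfl

end GBK_

theorem gbk_proof (hZVC : Stmt_ZVC) : Stmt_GBK := by
  intro K _ c₁ c₂ S X z N
  have hh : ∀ (U : (Cov Bool)ᵒᵖ) (x : X.A z.z₁.mn z.z₂.mn U.unop),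
      (X.gK z).h U x = ((X.evN z).app U).hom.toRingHom x := by
    intro U x
    have h1 := hZVC K c₁ c₂ S X z ⟨z.z₁.mn, z.z₂.mn, U.unop⟩ z.in_mn
      ((X.cE z.z₁.mn z.z₂.mn U.unop).symm x)
    rw [AlgEquiv.apply_symm_apply] at h1
    exact h1.symm
  let e : ∀ U : (Cov Bool)ᵒᵖ, BT ((X.gK z).h U) (N.obj ((X.gK z).m.op.obj U)) ≃ₗ[(Cnc z.u z.v K).obj U]
      BT (A := X.R.obj ((X.gK z).m.op.obj U)) ((X.evN z).app U).hom.toRingHom
        (N.obj ((X.gK z).m.op.obj U)) := fun U =>
    GBK_.btE (A := X.R.obj ((X.gK z).m.op.obj U)) (B := (Cnc z.u z.v K).obj U)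
      (M := N.obj ((X.gK z).m.op.obj U)) (f := (X.gK z).h U)
      (f' := ((X.evN z).app U).hom.toRingHom) (hh U)
  refine ⟨mkIso (M := (X.fz z).obj N)
    (N := (bc (X.evN z)).obj ((pb X.R (ConicData.chF z.z₁.mn z.z₂.mn)).obj N))
    (fun U => e U) ?_⟩
  intro U V f x
  refine bt_induction ((X.gK z).h U) (M := N.obj ((X.gK z).m.op.obj U))
    (P := fun x => e V ((X.gK z).rs' N f x) =
      bcRs (X.evN z) ((pb X.R (ConicData.chF z.z₁.mn z.z₂.mn)).obj N) f (e U x)) ?_ ?_ ?_ x
  · rw [map_zero, map_zero, map_zero]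
    exact (map_zero (bcRs (X.evN z) ((pb X.R (ConicData.chF z.z₁.mn z.z₂.mn)).obj N) f)).symm
  · intro b m
    rfl
  · intro x y hx hy
    rw [map_add, map_add, hx, hy, map_add]
    exact (map_add (bcRs (X.evN z) ((pb X.R (ConicData.chF z.z₁.mn z.z₂.mn)).obj N) f) _ _).symm

end Pool.CRD.FB
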