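import Pool.Agent.CRD.Fib.Stmts
import Pool.Agent.CRD.Lib.BcAlg

/-!
# CRD / Fib, module GCO: base change preserves coherence and vector bundles
-/

open CategoryTheory Opposite Limits TensorProduct Pretriangulated

namespace Pool.CRD.FB

namespace GCO_

section
variable {A B A' B' : Type} [CommRing A] [CommRing B] [CommRing A'] [CommRing B']
  {M M' : Type} [AddCommGroup M] [AddCommGroup M'] [Module A M] [Module A' M']

/-- `B ⊗ M` is a base change -/
lemma bt_bc [Algebra A B] (f : A →+* B) (hf : algebraMap A B = f) [Module A (BT f M)]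
    [IsScalarTower A B (BT f M)] (i : M →ₗ[A] BT f M) (hi : ∀ x, i x = bt f 1 x) :
    IsBaseChange B i := by
  have hAB : ‹Algebra A B› = f.toAlgebra := by
    apply Algebra.algebra_ext
    intro r
    rw [hf]
    rfl
  subst hAB
  letI : Algebra A B := f.toAlgebra
  rw [isBaseChange_iff_cmp]
  have h1 : ∀ x : B ⊗[A] M, cmp B i x = (show BT f M from x) := by
    intro x
    induction x with
    | zero => rw [map_zero]; rfl
    | tmul b x =>
      rw [cmp_tmul, hi, smul_bt, mul_one]
      rfl
    | add x y hx hy => rw [map_add, hx, hy]; rfl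
  constructor
  · intro x y hxy
    rw [h1, h1] at hxy
    exact hxy
  · intro y
    exact ⟨(show B ⊗[A] M from y), h1 _⟩

theorem bt_square (f : A →+* B) (f' : A' →+* B') (a : A →+* A') (b : B →+* B')
    (h : ∀ x, b (f x) = f' (a x)) (ρ : M →+ M') (hρ : ∀ (r : A) (m : M), ρ (r • m) = a r • ρ m)
    (hbc : letI : Algebra A A' := a.toAlgebra
      letI : Module A M' := Module.compHom M' a
      haveI : IsScalarTower A A' M' := ⟨fun x y z => by rw [Algebra.smul_def, mul_smul]; rfl⟩
      IsBaseChange A' ({ toFun := ρ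
                         map_add' := map_add ρ
                         map_smul' := hρ } : M →ₗ[A] M')) :
    letI : Algebra B B' := b.toAlgebra
    letI : Module B (BT f' M') := Module.compHom (BT f' M') b
    haveI : IsScalarTower B B' (BT f' M') :=
      ⟨fun x y z => by rw [Algebra.smul_def, mul_smul]; rfl⟩
    IsBaseChange B' ({ toFun := BTmap a b h ρ hρ
                       map_add' := map_add _
                       map_smul' := BTmap_smul a b h ρ hρ } : BT f M →ₗ[B] BT f' M') := by
  letI a1 : Algebra A B := f.toAlgebra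
  letI a2 : Algebra A' B' := f'.toAlgebra
  letI a3 : Algebra A A' := a.toAlgebra
  letI a4 : Algebra B B' := b.toAlgebra
  letI a5 : Algebra A B' := (b.comp f).toAlgebra
  haveI t1 : IsScalarTower A B B' := IsScalarTower.of_algebraMap_eq fun x => rfl
  haveI t2 : IsScalarTower A A' B' := IsScalarTower.of_algebraMap_eq fun x => h x
  letI m1 : Module A M' := Module.compHom M' a
  haveI t3 : IsScalarTower A A' M' := ⟨fun x y z => by rw [Algebra.smul_def, mul_smul]; rfl⟩
  letI m2 : Module A (BT f M) := Module.compHom (BT f M) f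
  haveI t4 : IsScalarTower A B (BT f M) := ⟨fun x y z => by rw [Algebra.smul_def, mul_smul]; rfl⟩
  letI m3 : Module A' (BT f' M') := Module.compHom (BT f' M') f'
  haveI t5 : IsScalarTower A' B' (BT f' M') :=
    ⟨fun x y z => by rw [Algebra.smul_def, mul_smul]; rfl⟩
  letI m4 : Module B (BT f' M') := Module.compHom (BT f' M') b
  haveI t6 : IsScalarTower B B' (BT f' M') :=
    ⟨fun x y z => by rw [Algebra.smul_def, mul_smul]; rfl⟩
  let i : M →ₗ[A] BT f M :=
    { toFun := fun x => bt f 1 x
      map_add' := fun x y => bt_add_right f 1 x y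
      map_smul' := fun r x => by
        rw [bt_smul_right]
        exact (smul_bt f (f r) 1 x).symm }
  let j : M' →ₗ[A'] BT f' M' :=
    { toFun := fun x => bt f' 1 x
      map_add' := fun x y => bt_add_right f' 1 x y
      map_smul' := fun r x => by
        rw [bt_smul_right]
        exact (smul_bt f' (f' r) 1 x).symm }
  exact bc_square _ hbc i (bt_bc f rfl i fun _ => rfl) j (bt_bc f' rfl j fun _ => rfl)
    ({ toFun := BTmap a b h ρ hρ
       map_add' := map_add _
       map_smul' := BTmap_smul a b h ρ hρ } : BT f M →ₗ[B] BT f' M')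
    (fun m => by
      show BTmap a b h ρ hρ (bt f 1 m) = bt f' 1 (ρ m)
      rw [BTmap_bt, map_one])

end

end GCO_

open GCO_ in
theorem gco_proof : Stmt_GCO := by
  intro K L _ _ C D _ _ R₁ R₂ g M hM
  refine ⟨⟨fun X => ?_, fun {X Y} f => ?_⟩, fun hP X => ?_⟩
  · letI := (g.h X).toAlgebra
    haveI : Module.Finite (R₁.obj (g.m.op.obj X)) (M.obj (g.m.op.obj X)) := hM.1 _
    exact Module.Finite.base_change (R₁.obj (g.m.op.obj X)) (R₂.obj X) (M.obj (g.m.op.obj X))
  · exact bt_square (g.h X) (g.h Y) _ _ (g.nat f) (M.map (g.m.op.map f)).hom.toAddMonoidHom _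
      (hM.2 (g.m.op.map f))
  · letI := (g.h X).toAlgebra
    haveI : Module.Projective (R₁.obj (g.m.op.obj X)) (M.obj (g.m.op.obj X)) := hP _
    exact (inferInstance : Module.Projective (R₂.obj X)
      (R₂.obj X ⊗[R₁.obj (g.m.op.obj X)] (M.obj (g.m.op.obj X))))

end Pool.CRD.FB
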