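import Pool.Agent.CRD.Fib.Stmts

open CategoryTheory Opposite Limits TensorProduct Pretriangulated

namespace Pool.CRD.FB

namespace GLT_

section Alg

variable {A B : Type} [CommRing A] [CommRing B] (f : A →+* B) {M N : Type} [AddCommGroup M]
  [AddCommGroup N] [Module A M] [Module A N]

lemma bt_bij (φ : N →ₗ[A] M) (hφ : Function.Injective φ) (g : A) (hg : IsUnit (f g))
    (h : ∀ m, ∃ n, φ n = g • m) : Function.Bijective (BTlin f φ) := by
  choose ψ0 hψ0 using h
  let ψ : M →ₗ[A] N :=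
    { toFun := ψ0
      map_add' := fun x y => hφ (by rw [hψ0, map_add, hψ0, hψ0, smul_add])
      map_smul' := fun r x => hφ (by rw [hψ0, map_smul, hψ0, RingHom.id_apply, smul_comm]) }
  have hψ1 : ∀ m, φ (ψ m) = g • m := hψ0
  have hψ2 : ∀ n, ψ (φ n) = g • n := fun n => hφ (by rw [hψ1, map_smul])
  have h1 : ∀ x, BTlin f φ (BTlin f ψ x) = f g • x := by
    intro x
    refine bt_induction f (P := fun x => BTlin f φ (BTlin f ψ x) = f g • x) ?_ ?_ ?_ x
    · rw [map_zero, map_zero, smul_zero]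
    · intro b m
      rw [BTlin_bt, BTlin_bt, hψ1, bt_smul_right, smul_bt]
    · intro x y hx hy
      rw [map_add, map_add, hx, hy, smul_add]
  have h2 : ∀ x, BTlin f ψ (BTlin f φ x) = f g • x := by
    intro x
    refine bt_induction f (P := fun x => BTlin f ψ (BTlin f φ x) = f g • x) ?_ ?_ ?_ x
    · rw [map_zero, map_zero, smul_zero]
    · intro b m
      rw [BTlin_bt, BTlin_bt, hψ2, bt_smul_right, smul_bt]
    · intro x y hx hy
      rw [map_add, map_add, hx, hy, smul_add]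
  constructor
  · intro x y hxy
    have h3 := congrArg (BTlin f ψ) hxy
    rw [h2, h2] at h3
    exact hg.smul_left_cancel.1 h3
  · intro y
    obtain ⟨u, hu⟩ := hg
    refine ⟨BTlin f ψ ((↑u⁻¹ : B) • y), ?_⟩
    rw [h1, ← hu, smul_smul, Units.mul_inv, one_smul]

end Alg

section Con

variable {B B' : Type} [CommRing B] [CommRing B'] (f : B →+* B') {a b : Bˣ} {a' b' : B'ˣ}
  (κ μ : B'ˣ) (ha : (a' : B') = (κ : B') ^ 2 * f a) (hb : (b' : B') = (μ : B') ^ 2 * f b)
  (K K' : Type) [CommRing K] [CommRing K'] [Algebra K B] [Algebra K' B']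

lemma conMapR_conC (k : Cov Bool) (r : B) :
    conMapR f κ μ ha hb K K' k (conC a b K k r) = conC a' b' K' k (f r) := by
  apply Subtype.ext
  apply QuadraticAlgebra.ext
  · change lauMap f κ (AddMonoidAlgebra.single 0 r) = AddMonoidAlgebra.single 0 (f r)
    rw [lauMap_single, zpow_zero, Units.val_one, mul_one]
  · change LaurentPolynomial.C (μ : B') * lauMap f κ 0 = 0
    rw [map_zero, mul_zero]

end Con

variable {K : Type} [Field K] {c₁ c₂ : CurveData K} {S : SurfData c₁ c₂} (X : ConicData S)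

lemma cE_conC (i j k : Cov Bool) (r : S.A i j) :
    ((X.cE i j k (conC (S.ua i j) (S.ub i j) K k r) : X.A i j k) : X.E) =
      algebraMap S.L X.E r := by
  rw [X.cE_coe]
  change X.toEc i j ⟨AddMonoidAlgebra.single 0 r, 0⟩ = _
  rw [X.toEc_re, zpow_zero, mul_one]

lemma unit_of (k : (Cov Bool)ᵒᵖ) (r : S.A cab cab) (hr : (r : S.L) ≠ 0)
    (g : X.A cab cab k.unop) (hg : (g : X.E) = algebraMap S.L X.E r) :
    IsUnit ((X.gL cab cab).h k g) := by
  have h1 : (X.cE cab cab k.unop).symm g =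
      conC (S.ua cab cab) (S.ub cab cab) K k.unop r := by
    rw [AlgEquiv.symm_apply_eq]
    apply Subtype.ext
    rw [cE_conC, hg]
  have h2 : (X.gL cab cab).h k g =
      conC S.x₁u S.x₂u S.L k.unop (r : S.L) := by
    change conMapR (S.A cab cab).val.toRingHom (S.h₁u cab) (S.h₂u cab) (S.ua_spec cab cab)
      (S.ub_spec cab cab) K S.L k.unop ((X.cE cab cab k.unop).symm g) = _
    rw [h1, conMapR_conC]
    rfl
  rw [h2]
  exact (IsUnit.mk0 _ hr).map _

end GLT_

open GLT_ in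
theorem glt_proof : Stmt_GLT := by
  intro K _ c₁ c₂ S X M N φ _ _ hmono hh
  have key : ∀ k : (Cov Bool)ᵒᵖ, ∃ g : X.A cab cab k.unop,
      IsUnit ((X.gL cab cab).h k g) ∧
      ∀ m : M.obj ((X.gL cab cab).m.op.obj k), ∃ n : N.obj ((X.gL cab cab).m.op.obj k),
        φ.app _ n = (show X.R.toRing.obj ((X.gL cab cab).m.op.obj k) from g) • m := by
    intro k
    rcases hh with ⟨y, hy⟩ | ⟨y, hy⟩
    · obtain ⟨f, hf, hf0⟩ := Submodule.exists_mem_ne_zero_of_ne_bot (y.J_ne_bot cab)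
      refine ⟨X.dir₁.e ⟨cab, cab, k.unop⟩ f, ?_, fun m => hy ((X.gL cab cab).m.op.obj k) f hf m⟩
      refine unit_of X k (S.inc₁ cab cab f) ?_ _ rfl
      intro h
      apply hf0
      apply Subtype.ext
      have h' : S.e₁ (f : c₁.F) = 0 := h
      exact (map_eq_zero S.e₁).1 h'
    · obtain ⟨f, hf, hf0⟩ := Submodule.exists_mem_ne_zero_of_ne_bot (y.J_ne_bot cab)
      refine ⟨X.dir₂.e ⟨cab, cab, k.unop⟩ f, ?_, fun m => hy ((X.gL cab cab).m.op.obj k) f hf m⟩
      refine unit_of X k (S.inc₂ cab cab f) ?_ _ rfl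
      intro h
      apply hf0
      apply Subtype.ext
      have h' : S.e₂ (f : c₂.F) = 0 := h
      exact (map_eq_zero S.e₂).1 h'
  have hb : ∀ k : (Cov Bool)ᵒᵖ,
      Function.Bijective (((X.gL cab cab).map' φ).app k).hom := by
    intro k
    obtain ⟨g, hg, hg2⟩ := key k
    exact bt_bij ((X.gL cab cab).h k) (M := M.obj ((X.gL cab cab).m.op.obj k))
      (N := N.obj ((X.gL cab cab).m.op.obj k)) (φ.app ((X.gL cab cab).m.op.obj k)).hom
      (inj_of_mono φ _) g hg hg2
  exact ⟨mkIso (M := (X.gL cab cab).obj N) (N := (X.gL cab cab).obj M)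
    (fun k => LinearEquiv.ofBijective (((X.gL cab cab).map' φ).app k).hom (hb k))
    (fun f x => rs_nat ((X.gL cab cab).map' φ) f x)⟩

end Pool.CRD.FB
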