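import Pool.Agent.CRD.Fib.Stmts

/-!
# CRD / Fib: GOK, the fibre over `z` through the local ring
-/

open CategoryTheory Opposite Limits TensorProduct Pretriangulated

namespace Pool.CRD.FB

namespace GOK_

lemma mk_congr {K L : Type} [CommRing K] [CommRing L] {C D : Type} [SmallCategory C]
    [SmallCategory D] {R₁ : PAlg K C} {R₂ : PAlg L D} (m : D ⥤ C)
    (h h' : ∀ X : Dᵒᵖ, R₁.obj (m.op.obj X) →+* R₂.obj X)
    (nat : ∀ {X Y : Dᵒᵖ} (f : X ⟶ Y) (x : R₁.obj (m.op.obj X)),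
      (R₂.map f).hom (h X x) = h Y ((R₁.map (m.op.map f)).hom x))
    (nat' : ∀ {X Y : Dᵒᵖ} (f : X ⟶ Y) (x : R₁.obj (m.op.obj X)),
      (R₂.map f).hom (h' X x) = h' Y ((R₁.map (m.op.map f)).hom x)) (e : h = h') :
    (⟨m, h, nat⟩ : GMor R₁ R₂) = ⟨m, h', nat'⟩ := by
  subst e; rfl

lemma conMap_congr {B B' : Type} [CommRing B] [CommRing B'] {f f' : B →+* B'} {a b : Bˣ}
    {a' b' κ μ κ' μ' : B'ˣ} (ha : (a' : B') = (κ : B') ^ 2 * f a)
    (hb : (b' : B') = (μ : B') ^ 2 * f b) (ha' : (a' : B') = (κ' : B') ^ 2 * f' a)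
    (hb' : (b' : B') = (μ' : B') ^ 2 * f' b) (hf : f = f') (hκ : κ = κ') (hμ : μ = μ')
    (w : ConT a b) : conMap f κ μ ha hb w = conMap f' κ' μ' ha' hb' w := by
  subst hf; subst hκ; subst hμ
  rfl

variable {K : Type} [Field K] {c₁ c₂ : CurveData K} {S : SurfData c₁ c₂} (X : ConicData S)
  (z : S.Pt)

lemma p1 : (z.u : K) = (((1 : Kˣ)) : K) ^ 2 * z.χO.toRingHom z.uO := by
  rw [Units.val_one, one_pow, one_mul]; rfl

lemma p2 : (z.v : K) = (((1 : Kˣ)) : K) ^ 2 * z.χO.toRingHom z.vO := by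
  rw [Units.val_one, one_pow, one_mul]; rfl

lemma key (hCMC : Stmt_CMC) (w : ConT (S.ua z.z₁.mn z.z₂.mn) (S.ub z.z₁.mn z.z₂.mn)) :
    conMap z.χO.toRingHom 1 1 (p1 z) (p2 z)
      (conMap (Subalgebra.inclusion (z.A_le_O_of_In z.in_mn)).toRingHom
        (z.κO z.in_mn) (z.μO z.in_mn) (z.uO_eq z.in_mn) (z.vO_eq z.in_mn) w) =
    conMap (z.evS z.in_mn).toRingHom
      (Units.map (z.χO.toRingHom : z.O →* K) (z.κO z.in_mn))
      (Units.map (z.χO.toRingHom : z.O →* K) (z.μO z.in_mn)) (z.u_eq z.in_mn) (z.v_eq z.in_mn) w := by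
  have e1 : (1 : Kˣ) * Units.map (z.χO.toRingHom : z.O →* K) (z.κO z.in_mn) =
      Units.map (z.χO.toRingHom : z.O →* K) (z.κO z.in_mn) := one_mul _
  have e2 : (1 : Kˣ) * Units.map (z.χO.toRingHom : z.O →* K) (z.μO z.in_mn) =
      Units.map (z.χO.toRingHom : z.O →* K) (z.μO z.in_mn) := one_mul _
  have e3 : z.χO.toRingHom.comp (Subalgebra.inclusion (z.A_le_O_of_In z.in_mn)).toRingHom =
      (z.evS z.in_mn).toRingHom := RingHom.ext fun _ => rfl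
  have h1 : (z.u : K) = (((1 : Kˣ) * Units.map (z.χO.toRingHom : z.O →* K) (z.κO z.in_mn) : Kˣ) :
      K) ^ 2 * (z.χO.toRingHom.comp (Subalgebra.inclusion (z.A_le_O_of_In z.in_mn)).toRingHom)
        (S.ua z.z₁.mn z.z₂.mn) := by
    rw [e1]
    exact z.u_eq z.in_mn
  have h2 : (z.v : K) = (((1 : Kˣ) * Units.map (z.χO.toRingHom : z.O →* K) (z.μO z.in_mn) : Kˣ) :
      K) ^ 2 * (z.χO.toRingHom.comp (Subalgebra.inclusion (z.A_le_O_of_In z.in_mn)).toRingHom)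
        (S.ub z.z₁.mn z.z₂.mn) := by
    rw [e2]
    exact z.v_eq z.in_mn
  rw [hCMC _ _ _ _ _ _ _ _ _ _ _ _ _ _ _ (z.uO_eq z.in_mn) (z.vO_eq z.in_mn) (p1 z) (p2 z) h1 h2]
  exact conMap_congr _ _ _ _ e3 e1 e2 _

lemma comp_eq (hCMC : Stmt_CMC) : (X.gO z).comp
    (cnG z.χO.toRingHom 1 1 (a := z.uO) (b := z.vO) (a' := z.u) (b' := z.v) (p1 z) (p2 z) z.O K) =
      X.gK z := by
  refine mk_congr (ConicData.chF z.z₁.mn z.z₂.mn) _ _
    (fun f x => ((X.gO z).comp (cnG z.χO.toRingHom 1 1 (a := z.uO) (b := z.vO) (a' := z.u)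
      (b' := z.v) (p1 z) (p2 z) z.O K)).nat f x) (fun f x => (X.gK z).nat f x) ?_
  funext k
  apply RingHom.ext
  intro x
  apply Subtype.ext
  exact key z hCMC _

end GOK_

open GOK_ in
theorem gok_proof (hCMC : Stmt_CMC) (hGTR : Stmt_GTR) : Stmt_GOK := by
  intro K _ c₁ c₂ S X z N
  obtain ⟨e⟩ := hGTR K z.O K Ch3 (Cov Bool) (Cov Bool) X.R (Cnc z.uO z.vO z.O)
    (Cnc z.u z.v K) (X.gO z)
    (cnG z.χO.toRingHom 1 1 (a := z.uO) (b := z.vO) (a' := z.u) (b' := z.v) (p1 z) (p2 z) z.O K) N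
  rw [comp_eq X z hCMC] at e
  exact ⟨e.symm⟩

end Pool.CRD.FB
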