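import Pool.Agent.CRD.Fib.Stmts

/-!
# CRD / Fib: GOL, the generic fibre through the local ring
-/

open CategoryTheory Opposite Limits TensorProduct Pretriangulated

namespace Pool.CRD.FB

namespace GOL_

section alg

variable {A A' L : Type} [CommRing A] [CommRing A'] [CommRing L]

/-- base change in two steps -/
lemma sq_bij (a : A →+* A') (h1 : A →+* L) (h2 : A' →+* L)
    (h : ∀ x, RingHom.id L (h1 x) = h2 (a x))
    {M M' : Type} [AddCommGroup M] [AddCommGroup M'] [Module A M] [Module A' M']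
    (ρ : M →+ M') (hρ : ∀ (r : A) (m : M), ρ (r • m) = a r • ρ m)
    (hb : letI : Algebra A A' := a.toAlgebra
      letI : Module A M' := Module.compHom M' a
      haveI : IsScalarTower A A' M' := ⟨fun x y z => by rw [Algebra.smul_def, mul_smul]; rfl⟩
      IsBaseChange A' ({ toFun := ρ, map_add' := map_add ρ, map_smul' := hρ } : M →ₗ[A] M')) :
    Function.Bijective (BTmap (f := h1) (f' := h2) a (RingHom.id L) h ρ hρ) := by
  let _ : Algebra A A' := a.toAlgebra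
  let _ : Module A M' := Module.compHom M' a
  have : IsScalarTower A A' M' := ⟨fun x y z => by rw [Algebra.smul_def, mul_smul]; rfl⟩
  let _ : Algebra A' L := h2.toAlgebra
  let _ : Algebra A L := h1.toAlgebra
  have : IsScalarTower A A' L := IsScalarTower.of_algebraMap_eq (fun x => h x)
  have h3 := hb.comp (TensorProduct.isBaseChange A' M' L)
  rw [isBaseChange_iff_cmp] at h3
  have e : ∀ x : L ⊗[A] M, cmp L (((TensorProduct.mk A' L M' 1).restrictScalars A).comp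
      ({ toFun := ρ, map_add' := map_add ρ, map_smul' := hρ } : M →ₗ[A] M')) x =
      (BTmap (f := h1) (f' := h2) a (RingHom.id L) h ρ hρ (x : BT h1 M) : L ⊗[A'] M') := by
    intro x
    induction x using TensorProduct.induction_on with
    | zero =>
      rw [map_zero]
      exact (map_zero (BTmap (f := h1) (f' := h2) a (RingHom.id L) h ρ hρ)).symm
    | tmul l m =>
      rw [cmp_tmul]
      change l • ((1 : L) ⊗ₜ[A'] ρ m) = l ⊗ₜ[A'] ρ m
      rw [TensorProduct.smul_tmul', smul_eq_mul, mul_one]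
    | add x y hx hy =>
      rw [map_add, hx, hy]
      exact (map_add (BTmap (f := h1) (f' := h2) a (RingHom.id L) h ρ hρ) x y).symm
  have e2 : (BTmap (f := h1) (f' := h2) a (RingHom.id L) h ρ hρ : BT h1 M → BT h2 M') =
      cmp L (((TensorProduct.mk A' L M' 1).restrictScalars A).comp
      ({ toFun := ρ, map_add' := map_add ρ, map_smul' := hρ } : M →ₗ[A] M')) := by
    funext x
    exact (e x).symm
  rw [e2]
  exact h3

end alg

section gen

variable {K L : Type} [CommRing K] [CommRing L] {C D : Type} [SmallCategory C]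
    [SmallCategory D] {R₁ : PAlg K C} {R₂ : PAlg L D} (T G : GMor R₁ R₂)
    (f : ∀ k : Dᵒᵖ, T.m.op.obj k ⟶ G.m.op.obj k)
    (hf : ∀ {k l : Dᵒᵖ} (g : k ⟶ l), T.m.op.map g ≫ f l = f k ≫ G.m.op.map g)
    (hc : ∀ (k : Dᵒᵖ) (x : R₁.obj (T.m.op.obj k)),
      RingHom.id (R₂.obj k) (T.h k x) = G.h k ((R₁.map (f k)).hom.toRingHom x))

/-- the comparison map -/
noncomputable def psi (N : PMod R₁) (k : Dᵒᵖ) :
    BT (T.h k) (N.obj (T.m.op.obj k)) →+ BT (G.h k) (N.obj (G.m.op.obj k)) :=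
  BTmap (f := T.h k) (f' := G.h k) (R₁.map (f k)).hom.toRingHom
    (RingHom.id (R₂.obj k)) (hc k)
    (M := N.obj (T.m.op.obj k)) (M' := N.obj (G.m.op.obj k))
    (N.map (f k)).hom.toAddMonoidHom (fun r m => rs_smul N (f k) r m)

lemma psi_bt (N : PMod R₁) (k : Dᵒᵖ) (b : R₂.obj k) (m : N.obj (T.m.op.obj k)) :
    psi T G f hc N k (bt _ b m) = bt _ b (rs N (f k) m) := rfl

lemma psi_bij (N : PMod R₁) (hN : IsCoh R₁ N) (k : Dᵒᵖ) :
    Function.Bijective (psi T G f hc N k) :=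
  sq_bij (R₁.map (f k)).hom.toRingHom (T.h k) (G.h k)
    (hc k) (M := N.obj (T.m.op.obj k))
    (M' := N.obj (G.m.op.obj k)) (N.map (f k)).hom.toAddMonoidHom
    (fun r m => rs_smul N (f k) r m) (hN.2 (f k))

/-- the comparison map is an isomorphism -/
noncomputable def psiIso (N : PMod R₁) (hN : IsCoh R₁ N) : T.obj N ≅ G.obj N :=
  mkIso (M := T.obj N) (N := G.obj N)
    (fun k => LinearEquiv.ofBijective
      ({ toFun := psi T G f hc N k
         map_add' := map_add _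
         map_smul' := fun c x => BTmap_smul _ _ _ _ _ c x } :
        BT (T.h k) (N.obj (T.m.op.obj k)) →ₗ[R₂.obj k]
          BT (G.h k) (N.obj (G.m.op.obj k))) (psi_bij T G f hc N hN k)) (by
    intro k l g x
    change psi T G f hc N l (T.rs' N g x) = G.rs' N g (psi T G f hc N k x)
    refine bt_induction _ (P := fun x => psi T G f hc N l (T.rs' N g x) =
      G.rs' N g (psi T G f hc N k x)) ?_ ?_ ?_ x
    · rw [map_zero, map_zero, map_zero, map_zero]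
    · intro b m
      rw [GMor.rs'_bt, psi_bt, psi_bt, GMor.rs'_bt]
      congr 1
      rw [← rs_comp, ← rs_comp, hf]
    · intro x y hx hy
      rw [map_add, map_add, map_add, map_add, hx, hy])

end gen

section geo

lemma conMap_congr {B B' : Type} [CommRing B] [CommRing B'] {f f' : B →+* B'} {a b : Bˣ}
    {a' b' κ μ κ' μ' : B'ˣ} (ha : (a' : B') = (κ : B') ^ 2 * f a)
    (hb : (b' : B') = (μ : B') ^ 2 * f b) (ha' : (a' : B') = (κ' : B') ^ 2 * f' a)
    (hb' : (b' : B') = (μ' : B') ^ 2 * f' b) (hf : f = f') (hκ : κ = κ') (hμ : μ = μ')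
    (w : ConT a b) : conMap f κ μ ha hb w = conMap f' κ' μ' ha' hb' w := by
  subst hf; subst hκ; subst hμ
  rfl

variable {K : Type} [Field K] {c₁ c₂ : CurveData K} {S : SurfData c₁ c₂} (X : ConicData S)
  (z : S.Pt)

/-- to the conic over the local ring and then to the generic fibre -/
noncomputable abbrev tG : GMor X.R (Cnc S.x₁u S.x₂u S.L) :=
  (X.gO z).comp (cnG z.O.val.toRingHom (S.h₁u z.z₁.t) (S.h₂u z.z₂.t) z.uO_spec z.vO_spec z.O S.L)

/-- the restriction from the chart over `(m₁, m₂)` to the chart over `(cab, cab)` -/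
noncomputable def fk (k : (Cov Bool)ᵒᵖ) : (tG X z).m.op.obj k ⟶ (X.gL cab cab).m.op.obj k :=
  (homOfLE (show (⟨cab, cab, k.unop⟩ : Ch3) ≤ ⟨z.z₁.mn, z.z₂.mn, k.unop⟩ from
    ⟨cab_le _, cab_le _, le_rfl⟩)).op

/-- an element of the ring of a chart of the generic fibre as an element of the total ring -/
noncomputable def cv {k : (Cov Bool)ᵒᵖ} (y : (Cnc S.x₁u S.x₂u S.L).obj k) : ConT S.x₁u S.x₂u :=
  Subtype.val (p := fun y => y ∈ conSub S.x₁u S.x₂u S.L k.unop) y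

lemma toL_gL (i j : Cov Bool) (k : (Cov Bool)ᵒᵖ) (x : X.A i j k.unop) :
    X.toL (cv ((X.gL i j).h k x)) = (x : X.E) := by
  obtain ⟨w, rfl⟩ := (X.cE i j k.unop).surjective x
  change X.toL (conMap (S.A i j).val.toRingHom (S.h₁u i) (S.h₂u j) (S.ua_spec i j) (S.ub_spec i j)
    ((X.cE i j k.unop).symm (X.cE i j k.unop w) : ConT (S.ua i j) (S.ub i j))) = _
  rw [AlgEquiv.symm_apply_apply, ConicData.cE_coe]
  rfl

lemma toL_tG (hCMC : Stmt_CMC) (k : (Cov Bool)ᵒᵖ) (x : X.A z.z₁.mn z.z₂.mn k.unop) :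
    X.toL (cv ((tG X z).h k x)) = (x : X.E) := by
  rw [← toL_gL X z.z₁.mn z.z₂.mn k x]
  congr 1
  have e1 : S.h₁u z.z₁.mn = S.h₁u z.z₁.t *
      Units.map (z.O.val.toRingHom : z.O →* S.L) (z.κO z.in_mn) := by
    apply Units.ext
    change S.h₁ z.z₁.mn = S.h₁ z.z₁.t * (S.h₁ z.z₁.mn / S.h₁ z.z₁.t)
    have := S.h₁_ne z.z₁.t
    field_simp
  have e2 : S.h₂u z.z₂.mn = S.h₂u z.z₂.t *
      Units.map (z.O.val.toRingHom : z.O →* S.L) (z.μO z.in_mn) := by
    apply Units.ext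
    change S.h₂ z.z₂.mn = S.h₂ z.z₂.t * (S.h₂ z.z₂.mn / S.h₂ z.z₂.t)
    have := S.h₂_ne z.z₂.t
    field_simp
  have e3 : (S.A z.z₁.mn z.z₂.mn).val.toRingHom = z.O.val.toRingHom.comp
      (Subalgebra.inclusion (z.A_le_O_of_In z.in_mn)).toRingHom := RingHom.ext fun _ => rfl
  have h1 : (S.x₁u : S.L) = ((S.h₁u z.z₁.t *
      Units.map (z.O.val.toRingHom : z.O →* S.L) (z.κO z.in_mn) : S.Lˣ) : S.L) ^ 2 *
        (z.O.val.toRingHom.comp (Subalgebra.inclusion (z.A_le_O_of_In z.in_mn)).toRingHom)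
          (S.ua z.z₁.mn z.z₂.mn) := by
    rw [← e1]
    exact S.ua_spec z.z₁.mn z.z₂.mn
  have h2 : (S.x₂u : S.L) = ((S.h₂u z.z₂.t *
      Units.map (z.O.val.toRingHom : z.O →* S.L) (z.μO z.in_mn) : S.Lˣ) : S.L) ^ 2 *
        (z.O.val.toRingHom.comp (Subalgebra.inclusion (z.A_le_O_of_In z.in_mn)).toRingHom)
          (S.ub z.z₁.mn z.z₂.mn) := by
    rw [← e2]
    exact S.ub_spec z.z₁.mn z.z₂.mn
  change conMap z.O.val.toRingHom (S.h₁u z.z₁.t) (S.h₂u z.z₂.t) z.uO_spec z.vO_spec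
    (conMap (Subalgebra.inclusion (z.A_le_O_of_In z.in_mn)).toRingHom
      (z.κO z.in_mn) (z.μO z.in_mn) (z.uO_eq z.in_mn) (z.vO_eq z.in_mn)
      ((X.cE z.z₁.mn z.z₂.mn k.unop).symm x : ConT (S.ua z.z₁.mn z.z₂.mn) (S.ub z.z₁.mn z.z₂.mn))) =
    conMap (S.A z.z₁.mn z.z₂.mn).val.toRingHom (S.h₁u z.z₁.mn) (S.h₂u z.z₂.mn)
      (S.ua_spec z.z₁.mn z.z₂.mn) (S.ub_spec z.z₁.mn z.z₂.mn)
      ((X.cE z.z₁.mn z.z₂.mn k.unop).symm x : ConT (S.ua z.z₁.mn z.z₂.mn) (S.ub z.z₁.mn z.z₂.mn))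
  rw [hCMC _ _ _ _ _ _ _ _ _ _ _ _ _ _ _ (z.uO_eq z.in_mn) (z.vO_eq z.in_mn) z.uO_spec z.vO_spec h1 h2]
  exact (conMap_congr _ _ _ _ e3 e1 e2 _).symm

lemma cv_inj {k : (Cov Bool)ᵒᵖ} {y y' : (Cnc S.x₁u S.x₂u S.L).obj k} (h : cv y = cv y') :
    y = y' := Subtype.ext h

lemma compat1 (hCMC : Stmt_CMC) (k : (Cov Bool)ᵒᵖ) (x : X.A z.z₁.mn z.z₂.mn k.unop)
    (y : X.A cab cab k.unop) (h : (y : X.E) = x) :
    X.toL (cv ((tG X z).h k x)) = X.toL (cv ((X.gL cab cab).h k y)) :=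
  (toL_tG X z hCMC k x).trans (h.symm.trans (toL_gL X cab cab k y).symm)

lemma compat2 (hCMC : Stmt_CMC) (k : (Cov Bool)ᵒᵖ) (x : X.A z.z₁.mn z.z₂.mn k.unop)
    (y : X.A cab cab k.unop) (h : (y : X.E) = x) :
    cv ((tG X z).h k x) = cv ((X.gL cab cab).h k y) :=
  X.toL_inj (compat1 X z hCMC k x y h)

lemma compat3 (hCMC : Stmt_CMC) (k : (Cov Bool)ᵒᵖ) (x : X.A z.z₁.mn z.z₂.mn k.unop)
    (y : X.A cab cab k.unop) (h : (y : X.E) = x) :
    (tG X z).h k x = (X.gL cab cab).h k y :=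
  cv_inj (compat2 X z hCMC k x y h)

/-- the restriction map -/
noncomputable def rho (k : (Cov Bool)ᵒᵖ) (x : X.R.obj ((tG X z).m.op.obj k)) : X.A cab cab k.unop :=
  (X.R.map (fk X z k)).hom.toRingHom x

lemma rho_val (k : (Cov Bool)ᵒᵖ) (x : X.A z.z₁.mn z.z₂.mn k.unop) :
    ((rho X z k x : X.A cab cab k.unop) : X.E) = (x : X.E) :=
  Subalgebra.coe_inclusion (h := X.A_mono (cab_le _) (cab_le _) le_rfl) x

lemma compat4 (hCMC : Stmt_CMC) (k : (Cov Bool)ᵒᵖ) (x : X.R.obj ((tG X z).m.op.obj k)) :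
    (tG X z).h k x = (X.gL cab cab).h k (rho X z k x) :=
  compat3 X z hCMC k x (rho X z k x) (rho_val X z k x)

lemma compat (hCMC : Stmt_CMC) (k : (Cov Bool)ᵒᵖ) (x : X.R.obj ((tG X z).m.op.obj k)) :
    RingHom.id ((Cnc S.x₁u S.x₂u S.L).obj k) ((tG X z).h k x) =
      (X.gL cab cab).h k ((X.R.map (fk X z k)).hom.toRingHom x) :=
  compat4 X z hCMC k x

end geo

end GOL_

open GOL_ in
theorem gol_proof (hCMC : Stmt_CMC) (hGTR : Stmt_GTR) : Stmt_GOL := by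
  intro K _ c₁ c₂ S X z N hN
  obtain ⟨e⟩ := hGTR K z.O S.L Ch3 (Cov Bool) (Cov Bool) X.R (Cnc z.uO z.vO z.O)
    (Cnc S.x₁u S.x₂u S.L) (X.gO z)
    (cnG z.O.val.toRingHom (S.h₁u z.z₁.t) (S.h₂u z.z₂.t) z.uO_spec z.vO_spec z.O S.L) N
  exact ⟨(psiIso (tG X z) (X.gL cab cab) (fk X z) (fun _ => rfl) (compat X z hCMC) N hN).symm ≪≫
    e.symm⟩

end Pool.CRD.FB
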