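import Pool.Agent.CRD.Fib.Stmts

/-!
# CRD / Fib, module GTR: transitivity of base change
-/

open CategoryTheory Opposite Limits TensorProduct Pretriangulated

namespace Pool.CRD.FB

namespace GTR_

section
variable {A B C : Type} [CommRing A] [CommRing B] [CommRing C] (f : A →+* B) (f' : B →+* C)
  {M N : Type} [AddCommGroup M] [Module A M] [AddCommGroup N] [Module B N]

/-- the universal property of `B ⊗ M` -/
noncomputable def lft (φ : M →+ N) (hφ : ∀ (a : A) (m : M), φ (a • m) = f a • φ m) :
    BT f M →+ N :=
  letI := f.toAlgebra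
  TensorProduct.liftAddHom
    { toFun := fun x =>
        { toFun := fun m => x • φ m
          map_zero' := by rw [map_zero, smul_zero]
          map_add' := fun m n => by rw [map_add, smul_add] }
      map_zero' := by
        ext m
        exact zero_smul B (φ m)
      map_add' := fun x y => by
        ext m
        exact add_smul x y (φ m) }
    (fun r x m => by
      change (f r * x) • φ m = x • φ (r • m)
      rw [hφ, smul_smul, mul_comm])

lemma lft_bt (φ : M →+ N) (hφ : ∀ (a : A) (m : M), φ (a • m) = f a • φ m) (b : B) (m : M) :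
    lft f φ hφ (bt f b m) = b • φ m := rfl

lemma lft_smul (φ : M →+ N) (hφ : ∀ (a : A) (m : M), φ (a • m) = f a • φ m) (b : B)
    (x : BT f M) : lft f φ hφ (b • x) = b • lft f φ hφ x := by
  induction x using bt_induction with
  | h0 => rw [smul_zero, map_zero, smul_zero]
  | h1 y m => rw [smul_bt, lft_bt, lft_bt, mul_smul]
  | h2 x y hx hy => rw [smul_add, map_add, hx, hy, map_add, smul_add]

variable (M)

/-- from the twofold base change -/
noncomputable def fw : BT f' (BT f M) →+ BT (f'.comp f) M :=
  lft f' (BTmap (f := f) (f' := f'.comp f) (RingHom.id A) f' (fun _ => rfl) (AddMonoidHom.id M)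
    (fun _ _ => rfl)) (fun _ _ => BTmap_smul _ _ _ _ _ _ _)

lemma fw_bt (c : C) (b : B) (m : M) :
    fw f f' M (bt f' c (bt f b m)) = bt (f'.comp f) (c * f' b) m := rfl

/-- to the twofold base change -/
noncomputable def bw : BT (f'.comp f) M →+ BT f' (BT f M) :=
  lft (f'.comp f)
    { toFun := fun m => bt f' 1 (bt f 1 m)
      map_zero' := by
        have h : bt f 1 (0 : M) = 0 := by
          have := bt_smul_right f 1 0 (0 : M)
          rw [zero_smul, map_zero, zero_mul] at this
          rw [this]
          exact (smul_bt f 0 1 (0 : M)).symm.trans (by rw [zero_smul]) |>.trans rfl |> fun h => by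
            rw [← h, zero_mul]
        rw [h]
        have := bt_smul_right f' 1 0 (0 : BT f M)
        rw [zero_smul, map_zero, zero_mul] at this
        rw [this]
        have h2 := smul_bt f' 0 1 (0 : BT f M)
        rw [zero_smul, zero_mul] at h2
        exact h2.symm
      map_add' := fun x y => by rw [bt_add_right, bt_add_right] }
    (fun a m => by
      change bt f' 1 (bt f 1 (a • m)) = _ • bt f' 1 (bt f 1 m)
      rw [bt_smul_right, ← smul_bt f (f a) 1 m, bt_smul_right, smul_bt]
      rfl)

lemma bw_bt (c : C) (m : M) : bw f f' M (bt (f'.comp f) c m) = c • bt f' 1 (bt f 1 m) := rfl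

/-- transitivity of base change for rings -/
noncomputable def eqv : BT f' (BT f M) ≃ₗ[C] BT (f'.comp f) M where
  toFun := fw f f' M
  map_add' := map_add _
  map_smul' := lft_smul _ _ _
  invFun := bw f f' M
  left_inv x := by
    induction x using bt_induction with
    | h0 => rw [map_zero, map_zero]
    | h1 c y =>
      induction y using bt_induction with
      | h0 =>
        have h2 := bt_smul_right f' c 0 (0 : BT f M)
        rw [zero_smul, map_zero, zero_mul] at h2
        have h3 := smul_bt f' 0 1 (0 : BT f M)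
        rw [zero_smul, zero_mul] at h3
        rw [h2, ← h3, map_zero, map_zero]
      | h1 b m =>
        rw [fw_bt, bw_bt, smul_bt, mul_one, mul_comm, ← bt_smul_right, smul_bt, mul_one]
      | h2 x y hx hy => rw [bt_add_right, map_add, map_add, hx, hy]
    | h2 x y hx hy => rw [map_add, map_add, hx, hy]
  right_inv x := by
    induction x using bt_induction with
    | h0 => rw [map_zero, map_zero]
    | h1 c m => rw [bw_bt, smul_bt, fw_bt, map_one, mul_one, mul_one]
    | h2 x y hx hy => rw [map_add, map_add, hx, hy]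

lemma eqv_bt (c : C) (b : B) (m : M) :
    eqv f f' M (bt f' c (bt f b m)) = bt (f'.comp f) (c * f' b) m := rfl

end

section
variable {A B C A' B' C' : Type} [CommRing A] [CommRing B] [CommRing C] [CommRing A'] [CommRing B']
  [CommRing C'] {f : A →+* B} {g : B →+* C} {f' : A' →+* B'} {g' : B' →+* C'} (a : A →+* A')
  (b : B →+* B') (c : C →+* C') (h1 : ∀ x, b (f x) = f' (a x)) (h2 : ∀ x, c (g x) = g' (b x))
  (h3 : ∀ x, c ((g.comp f) x) = (g'.comp f') (a x))
  {M M' : Type} [AddCommGroup M] [AddCommGroup M'] [Module A M] [Module A' M'] (ρ : M →+ M')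
  (hρ : ∀ (r : A) (m : M), ρ (r • m) = a r • ρ m)

lemma eqv_nat (x : BT g (BT f M)) :
    eqv f' g' M' (BTmap (f := g) (f' := g') b c h2 (BTmap (f := f) (f' := f') a b h1 ρ hρ)
      (fun _ _ => BTmap_smul _ _ _ _ _ _ _) x) =
      BTmap (f := g.comp f) (f' := g'.comp f') a c h3 ρ hρ (eqv f g M x) := by
  induction x using bt_induction with
  | h0 => rw [map_zero, map_zero, map_zero, map_zero]
  | h1 c' y =>
    induction y using bt_induction with
    | h0 =>
      have h2' := bt_smul_right g c' 0 (0 : BT f M)
      rw [zero_smul, map_zero, zero_mul] at h2'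
      have h3' := smul_bt g 0 1 (0 : BT f M)
      rw [zero_smul, zero_mul] at h3'
      rw [h2', ← h3', map_zero, map_zero, map_zero, map_zero]
    | h1 b' m =>
      rw [BTmap_bt, BTmap_bt, eqv_bt, eqv_bt, BTmap_bt, map_mul, h2]
    | h2 x y hx hy => rw [bt_add_right, map_add, map_add, hx, hy, map_add, map_add]
  | h2 x y hx hy => rw [map_add, map_add, hx, hy, map_add, map_add]

end

end GTR_

open GTR_ in
theorem gtr_proof : Stmt_GTR := by
  intro K L L' _ _ _ C D D' _ _ _ R₁ R₂ R₃ g g' M
  exact ⟨mkIso (M := g'.obj (g.obj M)) (N := (g.comp g').obj M)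
    (fun X => eqv (g.h (g'.m.op.obj X)) (g'.h X) (M.obj (g.m.op.obj (g'.m.op.obj X))))
    fun {X Y} f x => eqv_nat (f := g.h (g'.m.op.obj X)) (g := g'.h X)
      (f' := g.h (g'.m.op.obj Y)) (g' := g'.h Y) _ _ _ (g.nat (g'.m.op.map f)) (g'.nat f)
      ((g.comp g').nat f) _ (fun r m => rs_smul M (g.m.op.map (g'.m.op.map f)) r m) x⟩

end Pool.CRD.FB
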