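import Pool.Agent.CRD.Fib.Stmts

/-!
# ICO: the functor `I_z` preserves coherence
-/

open CategoryTheory Opposite Limits TensorProduct Pretriangulated

namespace Pool.CRD.FB

namespace ICO_

section Gen

variable {A B C D P P' Q Q' : Type} [CommRing A] [CommRing B] [CommRing C] [CommRing D]
  [Algebra A B] [Algebra C D] [AddCommGroup P] [AddCommGroup P'] [AddCommGroup Q]
  [AddCommGroup Q'] [Module A P] [Module C P'] [Module A Q] [Module B Q] [IsScalarTower A B Q]
  [Module C Q'] [Module D Q'] [IsScalarTower C D Q']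

/-- a tensor with a factor in the ideal generated by the annihilator vanishes -/
theorem tmul_zero' (I : Ideal A) (hI : ∀ a ∈ I, ∀ p : P, a • p = 0) (b : B)
    (hb : b ∈ Ideal.map (algebraMap A B) I) (p : P) : b ⊗ₜ[A] p = 0 := by
  refine Submodule.span_induction (p := fun b _ => b ⊗ₜ[A] p = 0) ?_ ?_ ?_ ?_ hb
  · rintro _ ⟨a, ha, rfl⟩
    rw [Algebra.algebraMap_eq_smul_one, TensorProduct.smul_tmul, hI a ha, TensorProduct.tmul_zero]
  · exact TensorProduct.zero_tmul _ _
  · intro x y _ _ hx hy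
    rw [TensorProduct.add_tmul, hx, hy, add_zero]
  · intro r x _ hx
    rw [smul_eq_mul]
    have h : (r * x) ⊗ₜ[A] p = r • (x ⊗ₜ[A] p) := by
      rw [TensorProduct.smul_tmul', smul_eq_mul]
    rw [h, hx, smul_zero]

/-- transfer of base change along a surjection of rings -/
theorem gen (α : A →+* C) (β : B →+* D)
    (hcomm : ∀ a, β (algebraMap A B a) = algebraMap C D (α a)) (hα : Function.Surjective α)
    (hβ : Function.Surjective β)
    (hker : ∀ b, β b = 0 → b ∈ Ideal.map (algebraMap A B) (RingHom.ker α))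
    (e : P ≃+ P') (he : ∀ (a : A) (p : P), e (a • p) = α a • e p)
    (e' : Q ≃+ Q') (he' : ∀ (b : B) (q : Q), e' (b • q) = β b • e' q)
    (m : P →ₗ[A] Q) (m' : P' →ₗ[C] Q') (hm : ∀ p, e' (m p) = m' (e p))
    (h : IsBaseChange D m') : IsBaseChange B m := by
  have hI : ∀ a ∈ RingHom.ker α, ∀ p : P, a • p = 0 := by
    intro a ha p
    apply e.injective
    rw [he, (RingHom.mem_ker).mp ha, zero_smul, map_zero]
  rw [isBaseChange_iff_cmp] at h ⊢
  -- the comparison
  let τ : B ⊗[A] P →+ D ⊗[C] P' := TensorProduct.liftAddHom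
    { toFun := fun b =>
        { toFun := fun p => β b ⊗ₜ[C] e p
          map_zero' := by rw [map_zero, TensorProduct.tmul_zero]
          map_add' := fun p q => by rw [map_add, TensorProduct.tmul_add] }
      map_zero' := by
        ext p
        change β 0 ⊗ₜ[C] e p = 0
        rw [map_zero, TensorProduct.zero_tmul]
      map_add' := fun b b' => by
        ext p
        change β (b + b') ⊗ₜ[C] e p = β b ⊗ₜ[C] e p + β b' ⊗ₜ[C] e p
        rw [map_add, TensorProduct.add_tmul] }
    (fun a b p => by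
      change β (a • b) ⊗ₜ[C] e p = β b ⊗ₜ[C] e (a • p)
      rw [he, ← TensorProduct.smul_tmul, Algebra.smul_def, map_mul, hcomm, ← Algebra.smul_def])
  have hτ : ∀ b p, τ (b ⊗ₜ[A] p) = β b ⊗ₜ[C] e p := fun b p => rfl
  -- the inverse
  let φ : B →+ (P →+ B ⊗[A] P) :=
    { toFun := fun b =>
        { toFun := fun p => b ⊗ₜ[A] p
          map_zero' := TensorProduct.tmul_zero _ _
          map_add' := fun p q => TensorProduct.tmul_add _ _ _ }
      map_zero' := by
        ext p
        exact TensorProduct.zero_tmul _ _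
      map_add' := fun b b' => by
        ext p
        exact TensorProduct.add_tmul _ _ _ }
  have hφ : (β : B →+ D).ker ≤ φ.ker := by
    intro b hb
    rw [AddMonoidHom.mem_ker] at hb ⊢
    ext p
    exact tmul_zero' _ hI b (hker b hb) p
  let ψ : D →+ (P →+ B ⊗[A] P) := (AddMonoidHom.liftOfSurjective (β : B →+ D) hβ) ⟨φ, hφ⟩
  have hψ : ∀ b, ψ (β b) = φ b := fun b =>
    AddMonoidHom.liftOfRightInverse_comp_apply (β : B →+ D) _ _ ⟨φ, hφ⟩ b
  let σ : D ⊗[C] P' →+ B ⊗[A] P := TensorProduct.liftAddHom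
    { toFun := fun d => (ψ d).comp (e.symm : P' →+ P)
      map_zero' := by
        ext p
        change ψ 0 _ = 0
        rw [map_zero]
        rfl
      map_add' := fun d d' => by
        ext p
        change ψ (d + d') _ = ψ d _ + ψ d' _
        rw [map_add]
        rfl }
    (fun c d p => by
      obtain ⟨a, rfl⟩ := hα c
      obtain ⟨b, rfl⟩ := hβ d
      obtain ⟨p, rfl⟩ := e.surjective p
      change ψ (α a • β b) (e.symm (e p)) = ψ (β b) (e.symm (α a • e p))
      rw [← he, e.symm_apply_apply, e.symm_apply_apply, Algebra.smul_def, ← hcomm, ← map_mul, hψ,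
        hψ]
      change (algebraMap A B a * b) ⊗ₜ[A] p = b ⊗ₜ[A] (a • p)
      rw [← Algebra.smul_def, TensorProduct.smul_tmul])
  have hσ : ∀ x, σ (τ x) = x := by
    intro x
    induction x with
    | zero => rw [map_zero, map_zero]
    | tmul b p =>
      rw [hτ]
      change ψ (β b) (e.symm (e p)) = _
      rw [hψ, e.symm_apply_apply]
      rfl
    | add x y hx hy => rw [map_add, map_add, hx, hy]
  have hsurj : Function.Surjective τ := by
    intro y
    induction y with
    | zero => exact ⟨0, map_zero _⟩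
    | tmul d p =>
      obtain ⟨b, rfl⟩ := hβ d
      obtain ⟨p, rfl⟩ := e.surjective p
      exact ⟨b ⊗ₜ[A] p, hτ b p⟩
    | add x y hx hy =>
      obtain ⟨x', rfl⟩ := hx
      obtain ⟨y', rfl⟩ := hy
      exact ⟨x' + y', map_add _ _ _⟩
  have hsq : ∀ x, e' (cmp B m x) = cmp D m' (τ x) := by
    intro x
    induction x with
    | zero => rw [map_zero, map_zero, map_zero, map_zero]
    | tmul b p => rw [hτ, cmp_tmul, cmp_tmul, he', hm]
    | add x y hx hy => rw [map_add, map_add, map_add, map_add, hx, hy]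
  constructor
  · intro x y hxy
    have h1 : τ x = τ y := by
      apply h.1
      rw [← hsq, ← hsq, hxy]
    rw [← hσ x, ← hσ y, h1]
  · intro q
    obtain ⟨y, hy⟩ := h.2 (e' q)
    obtain ⟨x, rfl⟩ := hsurj y
    refine ⟨x, ?_⟩
    apply e'.injective
    rw [hsq, hy]

/-- base change to zero -/
theorem gen0 (I : Ideal A) (hI : ∀ a ∈ I, ∀ p : P, a • p = 0)
    (h1 : Ideal.map (algebraMap A B) I = ⊤) [Subsingleton Q] (m : P →ₗ[A] Q) :
    IsBaseChange B m := by
  rw [isBaseChange_iff_cmp]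
  have h2 : ∀ x : B ⊗[A] P, x = 0 := by
    intro x
    induction x with
    | zero => rfl
    | tmul b p => exact tmul_zero' I hI b (by rw [h1]; trivial) p
    | add x y hx hy => rw [hx, hy, add_zero]
  constructor
  · intro x y _
    rw [h2 x, h2 y]
  · intro q
    exact ⟨0, Subsingleton.elim _ _⟩

/-- finite generation along a surjection of rings -/
theorem fin (α : A →+* C) (hα : Function.Surjective α) (e : P ≃+ P')
    (he : ∀ (a : A) (p : P), e (a • p) = α a • e p) (h : Module.Finite C P') :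
    Module.Finite A P := by
  obtain ⟨S, hS⟩ := h.fg_top
  classical
  refine ⟨⟨S.image e.symm, ?_⟩⟩
  rw [eq_top_iff]
  intro p _
  have h1 : ∀ q : P', q ∈ Submodule.span C (S : Set P') →
      e.symm q ∈ Submodule.span A ((S.image e.symm : Finset P) : Set P) := by
    intro q hq
    induction hq using Submodule.span_induction with
    | mem x hx =>
      apply Submodule.subset_span
      rw [Finset.coe_image]
      exact ⟨x, hx, rfl⟩
    | zero => rw [map_zero]; exact zero_mem _
    | add x y _ _ hx hy => rw [map_add]; exact add_mem hx hy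
    | smul c x _ hx =>
      obtain ⟨a, rfl⟩ := hα c
      have h2 : e.symm (α a • x) = a • e.symm x := by
        apply e.injective
        rw [he, e.apply_symm_apply, e.apply_symm_apply]
      rw [h2]
      exact Submodule.smul_mem _ _ hx
  have h2 := h1 (e p) (by rw [hS]; trivial)
  rwa [e.symm_apply_apply] at h2

end Gen

section
variable {K : Type} [Field K] {c₁ c₂ : CurveData K} {S : SurfData c₁ c₂} (X : ConicData S)
  (z : S.Pt)

/-- sections over a chart containing the point -/
def eI (M : PMod (Cnc z.u z.v K)) (s : Ch3) (hs : z.In s.i s.j) :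
    ConicData.Icar z M s ≃+ sec M s.k where
  toFun m := m
  invFun m := ⟨m, fun h => absurd hs h⟩
  left_inv _ := rfl
  right_inv _ := rfl
  map_add' _ _ := rfl

theorem eI_smul (M : PMod (Cnc z.u z.v K)) (s : Ch3) (hs : z.In s.i s.j)
    (a : X.A s.i s.j s.k) (p : ConicData.Icar z M s) :
    eI z M s hs (a • p) = X.ev z hs a • eI z M s hs p := by
  change X.act z s a • (p : sec M s.k) = _
  rw [X.act_of_in z hs]
  rfl

/-- the functions of the first curve -/
noncomputable def d1 (s : Ch3) : c₁.A s.i →+* X.A s.i s.j s.k := (X.dir₁.e s).toRingHom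
/-- the functions of the second curve -/
noncomputable def d2 (s : Ch3) : c₂.A s.j →+* X.A s.i s.j s.k := (X.dir₂.e s).toRingHom

theorem IX_eq (s : Ch3) :
    X.IX z s = Ideal.map (d1 X s) (z.z₁.J s.i) ⊔ Ideal.map (d2 X s) (z.z₂.J s.j) := rfl

theorem IX_map {s t : Ch3} (h : t ≤ s) :
    Ideal.map (Subalgebra.inclusion (X.A_mono h.1 h.2.1 h.2.2)).toRingHom (X.IX z s) =
      X.IX z t := by
  rw [IX_eq, IX_eq, Ideal.map_sup, Ideal.map_map, Ideal.map_map]
  have h1 : (Subalgebra.inclusion (X.A_mono h.1 h.2.1 h.2.2)).toRingHom.comp (d1 X s) =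
      (d1 X t).comp (c₁.res h.1).toRingHom := by
    ext f
    rfl
  have h2 : (Subalgebra.inclusion (X.A_mono h.1 h.2.1 h.2.2)).toRingHom.comp (d2 X s) =
      (d2 X t).comp (c₂.res h.2.1).toRingHom := by
    ext f
    rfl
  have h3 : Ideal.map (c₁.res h.1).toRingHom (z.z₁.J s.i) = z.z₁.J t.i := z.z₁.J_map h.1
  have h4 : Ideal.map (c₂.res h.2.1).toRingHom (z.z₂.J s.j) = z.z₂.J t.j := z.z₂.J_map h.2.1
  rw [h1, h2, ← Ideal.map_map, ← Ideal.map_map, h3, h4]

/-- the ideal of the point kills the sections -/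
theorem kill (hEVK : Stmt_EVK) (M : PMod (Cnc z.u z.v K)) (s : Ch3) (f : X.A s.i s.j s.k)
    (hf : f ∈ X.IX z s) (m : ConicData.Icar z M s) : f • m = 0 := by
  apply ConicData.Icar_eq
  intro hs
  rw [ConicData.Icar_smul_coe, X.act_of_in z hs,
    (((hEVK K c₁ c₂ S X z s).1 hs).2 f).mpr hf, zero_smul]
  rfl

theorem fini (hEVK : Stmt_EVK) (M : PMod (Cnc z.u z.v K)) (hM : IsCoh (Cnc z.u z.v K) M)
    (s : Ch3) : Module.Finite (X.A s.i s.j s.k) (ConicData.Icar z M s) := by
  by_cases hs : z.In s.i s.j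
  · have h1 : Module.Finite (conSub z.u z.v K s.k) (sec M s.k) := hM.1 (op s.k)
    exact fin (X.ev z hs).toRingHom ((hEVK K c₁ c₂ S X z s).1 hs).1 (eI z M s hs)
      (fun a p => eI_smul X z M s hs a p) h1
  · have : Subsingleton (ConicData.Icar z M s) := ⟨fun a b =>
      ConicData.Icar_eq z (fun h => absurd h hs)⟩
    infer_instance

end

end ICO_

open ICO_ in
theorem ico_proof (hEVK : Stmt_EVK) : Stmt_ICO := by
  intro K _ c₁ c₂ S X z M hM
  refine ⟨fun Y => fini X z hEVK M hM Y.unop, ?_⟩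
  intro Y Y' f
  have h : Y'.unop ≤ Y.unop := leOfHom f.unop
  let _ : Algebra (X.R.obj Y) (X.R.obj Y') := (X.R.map f).hom.toRingHom.toAlgebra
  let _ : Module (X.R.obj Y) (((X.IF z).obj M).obj Y) :=
    inferInstanceAs (Module (X.R.toRing.obj Y) (((X.IF z).obj M).obj Y))
  let _ : Module (X.R.obj Y') (((X.IF z).obj M).obj Y') :=
    inferInstanceAs (Module (X.R.toRing.obj Y') (((X.IF z).obj M).obj Y'))
  let _ : Module (X.R.obj Y) (((X.IF z).obj M).obj Y') :=
    Module.compHom (((X.IF z).obj M).obj Y') (X.R.map f).hom.toRingHom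
  have : IsScalarTower (X.R.obj Y) (X.R.obj Y') (((X.IF z).obj M).obj Y') :=
    ⟨fun a b c => by rw [Algebra.smul_def, mul_smul]; rfl⟩
  have hgen : Ideal.map (algebraMap (X.R.obj Y) (X.R.obj Y')) (X.IX z Y.unop) = X.IX z Y'.unop :=
    IX_map X z h
  by_cases ht : z.In Y'.unop.i Y'.unop.j
  · have hs : z.In Y.unop.i Y.unop.j := SurfData.Pt.In.mono z h.1 h.2.1 ht
    have hc := hM.2 (homOfLE h.2.2 : Y'.unop.k ⟶ Y.unop.k).op
    let _ : Algebra ((Cnc z.u z.v K).obj (op Y.unop.k)) ((Cnc z.u z.v K).obj (op Y'.unop.k)) :=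
      ((Cnc z.u z.v K).map (homOfLE h.2.2 : Y'.unop.k ⟶ Y.unop.k).op).hom.toRingHom.toAlgebra
    let _ : Module ((Cnc z.u z.v K).obj (op Y.unop.k)) (M.obj (op Y.unop.k)) :=
      inferInstanceAs (Module ((Cnc z.u z.v K).toRing.obj (op Y.unop.k)) (M.obj (op Y.unop.k)))
    let _ : Module ((Cnc z.u z.v K).obj (op Y'.unop.k)) (M.obj (op Y'.unop.k)) :=
      inferInstanceAs (Module ((Cnc z.u z.v K).toRing.obj (op Y'.unop.k)) (M.obj (op Y'.unop.k)))
    let _ : Module ((Cnc z.u z.v K).obj (op Y.unop.k)) (M.obj (op Y'.unop.k)) :=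
      Module.compHom (M.obj (op Y'.unop.k))
        ((Cnc z.u z.v K).map (homOfLE h.2.2 : Y'.unop.k ⟶ Y.unop.k).op).hom.toRingHom
    have : IsScalarTower ((Cnc z.u z.v K).obj (op Y.unop.k))
        ((Cnc z.u z.v K).obj (op Y'.unop.k)) (M.obj (op Y'.unop.k)) :=
      ⟨fun a b c => by rw [Algebra.smul_def, mul_smul]; rfl⟩
    exact gen (A := X.R.obj Y) (B := X.R.obj Y') (C := (Cnc z.u z.v K).obj (op Y.unop.k))
      (D := (Cnc z.u z.v K).obj (op Y'.unop.k)) (P := ((X.IF z).obj M).obj Y)
      (P' := M.obj (op Y.unop.k)) (Q := ((X.IF z).obj M).obj Y') (Q' := M.obj (op Y'.unop.k))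
      (X.ev z hs).toRingHom (X.ev z ht).toRingHom
      (fun a => X.ev_res z h hs ht a)
      ((hEVK K c₁ c₂ S X z Y.unop).1 hs).1 ((hEVK K c₁ c₂ S X z Y'.unop).1 ht).1
      (fun b hb => by
        have h1 := (((hEVK K c₁ c₂ S X z Y'.unop).1 ht).2 b).mp hb
        rw [← hgen] at h1
        refine Ideal.map_mono ?_ h1
        intro a ha
        exact (((hEVK K c₁ c₂ S X z Y.unop).1 hs).2 a).mpr ha)
      (eI z M Y.unop hs)
      (fun a p => eI_smul X z M Y.unop hs a p)
      (eI z M Y'.unop ht)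
      (fun a p => eI_smul X z M Y'.unop ht a p)
      _ _ (fun p => ConicData.Ires_in z M h p ht) hc
  · have hsub : Subsingleton (((X.IF z).obj M).obj Y') := ⟨fun a b =>
      ConicData.Icar_eq z (fun h => absurd h ht)⟩
    exact gen0 (A := X.R.obj Y) (B := X.R.obj Y') (P := ((X.IF z).obj M).obj Y)
      (Q := ((X.IF z).obj M).obj Y') (X.IX z Y.unop)
      (fun a ha p => kill X z hEVK M Y.unop a ha p)
      (hgen.trans ((hEVK K c₁ c₂ S X z Y'.unop).2 ht)) _

end Pool.CRD.FB
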