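import Pool.Agent.CRD.Fib.Stmts

set_option autoImplicit false

/-!
# CRD, area FB, module IES: the essential image of `I_z`
-/

open CategoryTheory Opposite Limits TensorProduct Pretriangulated

namespace Pool.CRD.FB

namespace IES_

section alg

variable {A A' Q Q' M M' : Type} [CommRing A] [CommRing A'] [CommRing Q] [CommRing Q']
  [AddCommGroup M] [AddCommGroup M'] [Module A M] [Module A' M']
  [Algebra A A'] [Module A M'] [IsScalarTower A A' M']

/-- module structure through a surjection whose kernel acts as zero -/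
noncomputable abbrev thr (q : A →+* Q) (hq : Function.Surjective q)
    (hk : ∀ a, q a = 0 → ∀ m : M, a • m = 0) : Module Q M :=
  letI : SMul Q M := ⟨fun c m => Function.surjInv hq c • m⟩
  Function.Surjective.moduleLeft q hq (fun c m => by
    change Function.surjInv hq (q c) • m = c • m
    have h1 := hk (Function.surjInv hq (q c) - c) (by
      rw [map_sub, Function.surjInv_eq hq, sub_self]) m
    rw [sub_smul, sub_eq_zero] at h1
    exact h1)

lemma thr_smul (q : A →+* Q) (hq : Function.Surjective q)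
    (hk : ∀ a, q a = 0 → ∀ m : M, a • m = 0) (a : A) (m : M) :
    (letI := thr q hq hk; (q a) • m) = a • m := by
  change Function.surjInv hq (q a) • m = a • m
  have h1 := hk (Function.surjInv hq (q a) - a) (by
    rw [map_sub, Function.surjInv_eq hq, sub_self]) m
  rw [sub_smul, sub_eq_zero] at h1
  exact h1

theorem bij_of (i : M →ₗ[A] M') (hi : IsBaseChange A' i) (q : A →+* Q) (q' : A' →+* Q)
    (hq : Function.Surjective q) (hqq : ∀ a, q' (algebraMap A A' a) = q a)
    (hk : ∀ a, q a = 0 → ∀ m : M, a • m = 0) (hk' : ∀ a, q' a = 0 → ∀ m : M', a • m = 0) :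
    Function.Bijective i := by
  constructor
  · letI m1 : Module Q M := thr q hq hk
    letI m2 : Module A' M := Module.compHom M q'
    have hs : ∀ (a : A) (m : M), q a • m = a • m := fun a m => thr_smul q hq hk a m
    haveI : IsScalarTower A A' M := ⟨fun a s m => by
      change q' (a • s) • m = a • (q' s • m)
      rw [Algebra.smul_def, map_mul, hqq, mul_smul, hs]⟩
    have h1 : ∀ m : M, hi.lift (LinearMap.id : M →ₗ[A] M) (i m) = m := fun m => hi.lift_eq _ m
    exact Function.LeftInverse.injective h1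
  · intro y
    refine hi.inductionOn y (motive := fun y => ∃ x, i x = y) ?_ ?_ ?_ ?_
    · exact ⟨0, map_zero _⟩
    · intro m; exact ⟨m, rfl⟩
    · rintro s _ ⟨x, rfl⟩
      obtain ⟨a, ha⟩ := hq (q' s)
      refine ⟨a • x, ?_⟩
      rw [map_smul, ← algebraMap_smul A' a (i x)]
      have h1 := hk' (algebraMap A A' a - s) (by rw [map_sub, hqq, ha, sub_self]) (i x)
      rw [sub_smul, sub_eq_zero] at h1
      exact h1
    · rintro _ _ ⟨x, rfl⟩ ⟨y, rfl⟩
      exact ⟨x + y, map_add _ _ _⟩

theorem bc_of (i : M →ₗ[A] M') (hi : IsBaseChange A' i) (q : A →+* Q) (q' : A' →+* Q')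
    (hq : Function.Surjective q) (hq' : Function.Surjective q') [Algebra Q Q']
    (hqq : ∀ a, q' (algebraMap A A' a) = algebraMap Q Q' (q a))
    [Module Q M] [Module Q' M'] [Module Q M'] [IsScalarTower Q Q' M']
    (hs : ∀ (a : A) (m : M), q a • m = a • m) (hs' : ∀ (a : A') (m : M'), q' a • m = a • m)
    (j : M →ₗ[Q] M') (hj : ∀ m, j m = i m) : IsBaseChange Q' j := by
  apply IsBaseChange.of_lift_unique
  intro N _ _ _ _ g
  letI n1 : Module A' N := Module.compHom N q'
  letI n2 : Module A N := Module.compHom N q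
  haveI : IsScalarTower A A' N := ⟨fun a s m => by
    change q' (a • s) • m = q a • (q' s • m)
    rw [Algebra.smul_def, map_mul, hqq, mul_smul, algebraMap_smul]⟩
  let g0 : M →ₗ[A] N :=
    { toFun := g
      map_add' := map_add g
      map_smul' := fun a m => by
        rw [← hs, map_smul]
        rfl }
  let g2 : M' →ₗ[Q'] N :=
    { toFun := hi.lift g0
      map_add' := map_add _
      map_smul' := fun c y => by
        obtain ⟨a, rfl⟩ := hq' c
        rw [hs', map_smul]
        rfl }
  refine ⟨g2, ?_, ?_⟩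
  · ext m
    change hi.lift g0 (j m) = g m
    rw [hj, hi.lift_eq]
    rfl
  · intro h hh
    let h0 : M' →ₗ[A'] N :=
      { toFun := h
        map_add' := map_add h
        map_smul' := fun a m => by
          rw [← hs', map_smul]
          rfl }
    have h1 : h0 = hi.lift g0 := by
      apply hi.algHom_ext
      intro m
      rw [hi.lift_eq]
      change h (i m) = g m
      rw [← hj, ← hh]
      rfl
    ext y
    exact congrArg (fun t : M' →ₗ[A'] N => t y) h1

theorem fin_of (q : A →+* Q) [Module.Finite A M] [Module Q M]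
    (hs : ∀ (a : A) (m : M), q a • m = a • m) : Module.Finite Q M := by
  letI := q.toAlgebra
  haveI : IsScalarTower A Q M := ⟨fun a c m => by
    rw [Algebra.smul_def, mul_smul]
    exact hs a _⟩
  exact Module.Finite.of_restrictScalars_finite A Q M

end alg

/-! ### geometry -/

section geo

variable {K : Type} [Field K] {c₁ c₂ : CurveData K} {S : SurfData c₁ c₂} {X : ConicData S}
  {z : S.Pt} (P : PMod X.R)

/-- sections over a chart -/
def Sec (P : PMod X.R) (s : Ch3) : Type := P.obj (op s)

noncomputable instance (P : PMod X.R) (s : Ch3) : AddCommGroup (Sec P s) :=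
  inferInstanceAs (AddCommGroup (P.obj (op s)))

noncomputable instance (P : PMod X.R) (s : Ch3) : Module (X.A s.i s.j s.k) (Sec P s) :=
  inferInstanceAs (Module (X.R.toRing.obj (op s)) (P.obj (op s)))

/-- restriction of functions -/
def inA (X : ConicData S) {s t : Ch3} (h : t ≤ s) : X.A s.i s.j s.k →+* X.A t.i t.j t.k :=
  (Subalgebra.inclusion (X.A_mono h.1 h.2.1 h.2.2)).toRingHom

/-- restriction of sections -/
noncomputable def rS {s t : Ch3} (h : t ≤ s) (x : Sec P s) : Sec P t := rs P (homOfLE h).op x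

lemma rS_add {s t : Ch3} (h : t ≤ s) (x y : Sec P s) : rS P h (x + y) = rS P h x + rS P h y :=
  rs_add P _ x y

lemma rS_zero {s t : Ch3} (h : t ≤ s) : rS P h 0 = 0 := rs_zero P _

lemma rS_smul {s t : Ch3} (h : t ≤ s) (f : X.A s.i s.j s.k) (x : Sec P s) :
    rS P h (f • x) = inA X h f • rS P h x := rs_smul P (homOfLE h).op f x

lemma rS_id {s : Ch3} (h : s ≤ s) (x : Sec P s) : rS P h x = x := rs_id P _ x

lemma rS_comp {s t r : Ch3} (h : t ≤ s) (h' : r ≤ t) (h'' : r ≤ s) (x : Sec P s) :
    rS P h'' x = rS P h' (rS P h x) := rs_comp P (homOfLE h).op (homOfLE h').op x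

lemma kill (h1 : KilledBy X.dir₁ z.z₁ P) (h2 : KilledBy X.dir₂ z.z₂ P) (s : Ch3)
    (f : X.A s.i s.j s.k) (hf : f ∈ X.IX z s) (x : Sec P s) : f • x = 0 := by
  have h3 : X.IX z s ≤ (LinearMap.toSpanSingleton (X.A s.i s.j s.k) (Sec P s) x).ker := by
    unfold ConicData.IX
    refine sup_le ?_ ?_
    · refine Ideal.map_le_iff_le_comap.2 ?_
      intro g hg
      exact LinearMap.mem_ker.2 (h1 (op s) g hg x)
    · refine Ideal.map_le_iff_le_comap.2 ?_
      intro g hg
      exact LinearMap.mem_ker.2 (h2 (op s) g hg x)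
  exact LinearMap.mem_ker.1 (h3 hf)

/-- the smallest charts -/
noncomputable def sm (z : S.Pt) (k : Cov Bool) : Ch3 := ⟨z.z₁.mn, z.z₂.mn, k⟩

lemma sm_in (k : Cov Bool) : z.In (sm z k).i (sm z k).j := z.in_mn

lemma sm_mono {k l : Cov Bool} (h : l ≤ k) : sm z l ≤ sm z k := ⟨le_rfl, le_rfl, h⟩

lemma sm_le {s : Ch3} (hs : z.In s.i s.j) : sm z s.k ≤ s :=
  ⟨((z.in_iff _ _).1 hs).1, ((z.in_iff _ _).1 hs).2, le_rfl⟩

/-- the evaluation on the chart as a ring homomorphism -/
noncomputable def q (X : ConicData S) {s : Ch3} (hs : z.In s.i s.j) :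
    X.A s.i s.j s.k →+* conSub z.u z.v K s.k := (X.ev z hs).toRingHom

/-- the evaluation on the smallest charts -/
noncomputable def qk (X : ConicData S) (z : S.Pt) (k : Cov Bool) :
    X.A (sm z k).i (sm z k).j (sm z k).k →+* conSub z.u z.v K k := q X (z := z) (s := sm z k) z.in_mn

lemma q_res {s t : Ch3} (h : t ≤ s) (hs : z.In s.i s.j) (ht : z.In t.i t.j)
    (f : X.A s.i s.j s.k) : q X ht (inA X h f) =
      Subalgebra.inclusion (conSub_mono z.u z.v K h.2.2) (q X hs f) := X.ev_res z h hs ht f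

lemma qk_res {k l : Cov Bool} (h : l ≤ k) (f : X.A (sm z k).i (sm z k).j (sm z k).k) :
    qk X z l (inA X (sm_mono h) f) =
      Subalgebra.inclusion (conSub_mono z.u z.v K h) (qk X z k f) :=
  q_res (sm_mono h) z.in_mn z.in_mn f

lemma q_qk {s : Ch3} (hs : z.In s.i s.j) (f : X.A s.i s.j s.k) :
    qk X z s.k (inA X (sm_le hs) f) = q X hs f := by
  refine (q_res (sm_le hs) hs z.in_mn f).trans ?_
  rfl

lemma q_surj (hE : Stmt_EVK) {s : Ch3} (hs : z.In s.i s.j) : Function.Surjective (q X hs) :=
  ((hE K c₁ c₂ S X z s).1 hs).1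

lemma qk_surj (hE : Stmt_EVK) (k : Cov Bool) : Function.Surjective (qk X z k) :=
  q_surj (X := X) hE (s := sm z k) z.in_mn

/-- the data -/
structure Dat (P : PMod X.R) (z : S.Pt) : Prop where
  hE : Stmt_EVK
  hK : ∀ (s : Ch3) (f : X.A s.i s.j s.k), f ∈ X.IX z s → ∀ x : Sec P s, f • x = 0

variable {P} (D : Dat P z)

include D in
lemma q_kill {s : Ch3} (hs : z.In s.i s.j) (f : X.A s.i s.j s.k) (hf : q X hs f = 0)
    (x : Sec P s) : f • x = 0 :=
  D.hK s f ((((D.hE K c₁ c₂ S X z s).1 hs).2 f).1 hf) x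

/-- the module structure over the ring of the conic -/
noncomputable abbrev Mm (k : Cov Bool) : Module (conSub z.u z.v K k) (Sec P (sm z k)) :=
  thr (qk X z k) (qk_surj D.hE k) (q_kill D (s := sm z k) z.in_mn)

lemma Mm_smul (k : Cov Bool) (f : X.A (sm z k).i (sm z k).j (sm z k).k) (x : Sec P (sm z k)) :
    (letI := Mm D k; (qk X z k f) • x) = f • x :=
  thr_smul (qk X z k) (qk_surj D.hE k) (q_kill D (s := sm z k) z.in_mn) f x

lemma Mr_smul {k l : Cov Bool} (h : l ≤ k) (c : conSub z.u z.v K k) (x : Sec P (sm z k)) :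
    (letI := Mm D k; letI := Mm D l;
      rS P (sm_mono h) (c • x) =
        (Subalgebra.inclusion (conSub_mono z.u z.v K h) c • rS P (sm_mono h) x :
          Sec P (sm z l))) := by
  letI := Mm D k
  letI := Mm D l
  obtain ⟨f, rfl⟩ := qk_surj (X := X) D.hE k c
  have h1 := Mm_smul D k f x
  have h2 := Mm_smul D l (inA X (sm_mono h) f) (rS P (sm_mono h) x)
  have h3 := qk_res (X := X) h f
  refine (congrArg (rS P (sm_mono h)) h1).trans ((rS_smul P (sm_mono h) f x).trans
    (h2.symm.trans ?_))
  exact congrArg (fun t : conSub z.u z.v K l => t • rS P (sm_mono h) x) h3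

/-- the module on the conic -/
noncomputable def MM : PMod (Cnc z.u z.v K) :=
  mkP (Cnc z.u z.v K)
    (fun Y => letI := Mm D Y.unop; ModuleCat.of (conSub z.u z.v K Y.unop) (Sec P (sm z Y.unop)))
    (fun {_ _} f x => rS P (sm_mono (leOfHom f.unop)) x)
    (fun f x y => rS_add P (sm_mono (leOfHom f.unop)) x y)
    (fun f r x => Mr_smul D (leOfHom f.unop) r x)
    (fun Y x => rS_id P _ x)
    (fun {U V W} f g x => rS_comp P (sm_mono (leOfHom f.unop)) (sm_mono (leOfHom g.unop)) _ x)

/-! ### base change -/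

/-- the algebra structure -/
abbrev algA (X : ConicData S) {s t : Ch3} (h : t ≤ s) :
    Algebra (X.A s.i s.j s.k) (X.A t.i t.j t.k) := (inA X h).toAlgebra

/-- the module structure -/
noncomputable abbrev modA (P : PMod X.R) {s t : Ch3} (h : t ≤ s) :
    Module (X.A s.i s.j s.k) (Sec P t) := Module.compHom (Sec P t) (inA X h)

lemma towA (P : PMod X.R) {s t : Ch3} (h : t ≤ s) :
    (letI := algA X h; letI := modA P h;
      IsScalarTower (X.A s.i s.j s.k) (X.A t.i t.j t.k) (Sec P t)) := by
  letI := algA X h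
  letI := modA P h
  exact ⟨fun a b c => by rw [Algebra.smul_def, mul_smul]; rfl⟩

/-- restriction as a linear map -/
noncomputable def rSl (P : PMod X.R) {s t : Ch3} (h : t ≤ s) :
    (letI := modA P h; Sec P s →ₗ[X.A s.i s.j s.k] Sec P t) :=
  letI := modA P h
  { toFun := rS P h
    map_add' := rS_add P h
    map_smul' := fun a x => rS_smul P h a x }

lemma cart (hP : IsCoh X.R P) {s t : Ch3} (h : t ≤ s) :
    (letI := algA X h; letI := modA P h; haveI := towA P h;
      IsBaseChange (X.A t.i t.j t.k) (rSl P h)) := hP.2 (homOfLE h).op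

include D in
lemma bij (hP : IsCoh X.R P) {s : Ch3} (hs : z.In s.i s.j) :
    Function.Bijective (rS P (sm_le hs)) := by
  letI := algA X (sm_le hs)
  letI := modA P (sm_le hs)
  haveI := towA P (sm_le hs)
  exact bij_of (rSl P (sm_le hs)) (cart hP (sm_le hs)) (q X hs) (qk X z s.k) (q_surj D.hE hs)
    (fun a => q_qk hs a) (fun a ha x => q_kill D hs a ha x)
    (fun a ha x => q_kill D (s := sm z s.k) z.in_mn a ha x)

include D in
lemma zero {s : Ch3} (hs : ¬ z.In s.i s.j) (x : Sec P s) : x = 0 := by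
  have h1 : (1 : X.A s.i s.j s.k) ∈ X.IX z s := by
    rw [(D.hE K c₁ c₂ S X z s).2 hs]
    trivial
  have h2 := D.hK s 1 h1 x
  rwa [one_smul] at h2

lemma MM_fin (hP : IsCoh X.R P) (Y : (Cov Bool)ᵒᵖ) :
    Module.Finite ((Cnc z.u z.v K).toRing.obj Y) ((MM D).obj Y) := by
  letI := Mm D Y.unop
  haveI : Module.Finite (X.A (sm z Y.unop).i (sm z Y.unop).j (sm z Y.unop).k)
    (Sec P (sm z Y.unop)) := hP.1 (op (sm z Y.unop))
  exact fin_of (M := Sec P (sm z Y.unop)) (qk X z Y.unop) (fun a x => Mm_smul D Y.unop a x)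

/-- restriction in the conic -/
noncomputable abbrev inC (z : S.Pt) {k l : Cov Bool} (h : l ≤ k) :
    conSub z.u z.v K k →+* conSub z.u z.v K l :=
  (Subalgebra.inclusion (conSub_mono z.u z.v K h)).toRingHom

lemma MM_cart' (hP : IsCoh X.R P) {k l : Cov Bool} (h : l ≤ k) :
    (letI := Mm D k; letI := Mm D l; letI := (inC z h).toAlgebra
     letI : Module (conSub z.u z.v K k) (Sec P (sm z l)) :=
       Module.compHom (Sec P (sm z l)) (inC z h)
     haveI : IsScalarTower (conSub z.u z.v K k) (conSub z.u z.v K l) (Sec P (sm z l)) :=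
       ⟨fun a b c => by rw [Algebra.smul_def, mul_smul]; rfl⟩
     IsBaseChange (conSub z.u z.v K l)
      ({ toFun := rS P (sm_mono h)
         map_add' := rS_add P (sm_mono h)
         map_smul' := fun c x => Mr_smul D h c x } :
        Sec P (sm z k) →ₗ[conSub z.u z.v K k] Sec P (sm z l))) := by
  letI := Mm D k
  letI := Mm D l
  letI := (inC z h).toAlgebra
  letI : Module (conSub z.u z.v K k) (Sec P (sm z l)) :=
    Module.compHom (Sec P (sm z l)) (inC z h)
  haveI : IsScalarTower (conSub z.u z.v K k) (conSub z.u z.v K l) (Sec P (sm z l)) :=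
    ⟨fun a b c => by rw [Algebra.smul_def, mul_smul]; rfl⟩
  letI := algA X (sm_mono (z := z) h)
  letI := modA P (sm_mono (z := z) h)
  haveI := towA P (sm_mono (z := z) h)
  exact bc_of (rSl P (sm_mono h)) (cart hP (sm_mono h)) (qk X z k) (qk X z l)
    (qk_surj D.hE k) (qk_surj D.hE l) (fun a => qk_res h a) (fun a x => Mm_smul D k a x)
    (fun a x => Mm_smul D l a x) _ (fun x => rfl)

lemma MM_coh (hP : IsCoh X.R P) : IsCoh (Cnc z.u z.v K) (MM D) :=
  ⟨fun Y => MM_fin D hP Y, fun {Y Y'} f => MM_cart' D hP (leOfHom f.unop)⟩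

/-! ### the isomorphism -/

open Classical in
/-- the comparison on a chart -/
noncomputable def th (s : Ch3) (x : Sec P s) : ConicData.Icar z (MM D) s :=
  if h : z.In s.i s.j then ⟨rS P (sm_le h) x, fun h' => absurd h h'⟩ else 0

lemma th_in {s : Ch3} (h : z.In s.i s.j) (x : Sec P s) :
    (th D s x : sec (MM D) s.k) = rS P (sm_le h) x := by
  unfold th
  rw [dif_pos h]

/-- the comparison as a linear map -/
noncomputable def thl (s : Ch3) : Sec P s →ₗ[X.A s.i s.j s.k] ConicData.Icar z (MM D) s where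
  toFun := th D s
  map_add' x y := by
    apply ConicData.Icar_eq
    intro h
    rw [th_in D h]
    refine (rS_add P (sm_le h) x y).trans ?_
    rw [AddSubgroup.coe_add, th_in D h, th_in D h]
    rfl
  map_smul' a x := by
    apply ConicData.Icar_eq
    intro h
    rw [RingHom.id_apply, ConicData.Icar_smul_coe, th_in D h, th_in D h, X.act_of_in z h]
    refine (rS_smul P (sm_le h) a x).trans ?_
    have h1 := Mm_smul D s.k (inA X (sm_le h) a) (rS P (sm_le h) x)
    refine h1.symm.trans ?_
    letI := Mm D s.k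
    exact congrArg (fun t : conSub z.u z.v K s.k => t • rS P (sm_le h) x) (q_qk h a)

lemma th_res {s t : Ch3} (h : t ≤ s) (x : Sec P s) :
    th D t (rS P h x) = ConicData.Ires z (MM D) h (th D s x) := by
  apply ConicData.Icar_eq
  intro ht
  have hs : z.In s.i s.j := SurfData.Pt.In.mono z h.1 h.2.1 ht
  rw [ConicData.Ires_in z (MM D) h _ ht, th_in D ht, th_in D hs]
  exact (rS_comp P h (sm_le ht) ((sm_le ht).trans h) x).symm.trans
    (rS_comp P (sm_le hs) (sm_mono h.2.2) ((sm_le ht).trans h) x)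

lemma th_bij (hP : IsCoh X.R P) (s : Ch3) : Function.Bijective (th D s) := by
  by_cases hs : z.In s.i s.j
  · have h1 := bij D hP hs
    constructor
    · intro x y hxy
      apply h1.1
      have h2 := congrArg (fun t : ConicData.Icar z (MM D) s => (t : sec (MM D) s.k)) hxy
      rw [th_in D hs, th_in D hs] at h2
      exact h2
    · intro y
      obtain ⟨x, hx⟩ := h1.2 (y : sec (MM D) s.k)
      refine ⟨x, ?_⟩
      apply Subtype.ext
      rw [th_in D hs]
      exact hx
  · constructor
    · intro x y _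
      rw [zero D hs x, zero D hs y]
    · intro y
      refine ⟨0, ?_⟩
      apply ConicData.Icar_eq
      intro h
      exact absurd h hs

/-- the comparison -/
noncomputable def TH : P ⟶ (X.IF z).obj (MM D) :=
  mkHom (M := P) (N := X.Iobj z (MM D)) (fun Y => thl D Y.unop)
    (fun f x => th_res D (leOfHom f.unop) x)

lemma TH_iso (hP : IsCoh X.R P) : IsIso (TH D) := by
  have h : ∀ Y, Function.Bijective ((TH D).app Y).hom := fun Y => th_bij D hP Y.unop
  have : Mono (TH D) := (pmod_mono_iff _).2 (fun Y => (h Y).1)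
  have : Epi (TH D) := (pmod_epi_iff _).2 (fun Y => (h Y).2)
  exact isIso_of_mono_of_epi _

end geo

end IES_

open IES_ in
theorem ies_proof (hEVK : Stmt_EVK) : Stmt_IES := by
  intro K _ c₁ c₂ S X z P hP h1 h2
  have D : Dat P z := ⟨hEVK, kill P h1 h2⟩
  haveI := TH_iso D hP
  exact ⟨MM D, MM_coh D hP, ⟨(asIso (TH D)).symm⟩⟩

end Pool.CRD.FB
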