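import Pool.Agent.CRD.Fib.Stmts

/-!
# CRD / Fib, module IEX: `I_z` is exact
-/

open CategoryTheory Opposite Limits TensorProduct Pretriangulated

namespace Pool.CRD.FB

theorem iex_proof : Stmt_IEX := by
  intro K _ c₁ c₂ S X z
  refine exF_of_exact _ ⟨fun {M N f g} => Functor.map_add _⟩ ?_
  intro T hT
  have := hT.mono_f
  have := hT.epi_g
  have e := fun Y => exact_app T hT.exact Y
  refine ⟨fun Y x y h => ?_, fun Y x => ⟨fun h => ?_, ?_⟩, fun Y x => ?_⟩
  · exact Subtype.ext (inj_of_mono T.f (op Y.unop.k) (congrArg Subtype.val h))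
  · obtain ⟨y, hy⟩ := (e (op Y.unop.k) x.1).1 (congrArg Subtype.val h)
    refine ⟨⟨y, fun h' => ?_⟩, Subtype.ext hy⟩
    apply inj_of_mono T.f (op Y.unop.k)
    rw [hy, map_zero]
    exact x.2 h'
  · rintro ⟨y, rfl⟩
    apply Subtype.ext
    exact (e (op Y.unop.k) _).2 ⟨y.1, rfl⟩
  · by_cases h' : z.In Y.unop.i Y.unop.j
    · obtain ⟨y, hy⟩ := surj_of_epi T.g (op Y.unop.k) x.1
      exact ⟨⟨y, fun h'' => absurd h' h''⟩, Subtype.ext hy⟩
    · refine ⟨0, ?_⟩
      rw [map_zero]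
      exact Subtype.ext (x.2 h').symm

end Pool.CRD.FB
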