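import Pool.Agent.CRD.Fib.Stmts

/-!
# CRD / Fib / IFF: the functor `I_z` is fully faithful
-/

open CategoryTheory Opposite Limits TensorProduct Pretriangulated

namespace Pool.CRD.FB

namespace IFF_

variable {K : Type} [Field K] {c₁ c₂ : CurveData K} {S : SurfData c₁ c₂} (X : ConicData S)
  (z : S.Pt)

/-- the smallest chart over `k` -/
noncomputable def ch (k : Cov Bool) : Ch3 := ⟨z.z₁.mn, z.z₂.mn, k⟩

lemma ch_in (k : Cov Bool) : z.In (ch z k).i (ch z k).j := z.in_mn

/-- a section on the chart `k` as a section of `I_z M` on the smallest chart -/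
def up (M : PMod (Cnc z.u z.v K)) (k : Cov Bool) (m : sec M k) : ConicData.Icar z M (ch z k) :=
  ⟨m, fun h => absurd z.in_mn h⟩

lemma ires_up (M : PMod (Cnc z.u z.v K)) {k l : Cov Bool} (h : ch z l ≤ ch z k) (h' : l ≤ k)
    (m : sec M k) : ConicData.Ires z M h (up z M k m) = up z M l (rsC M h' m) := by
  apply ConicData.Icar_eq
  intro ht
  rw [ConicData.Ires_in z M _ _ ht]
  rfl

lemma ch_mono {k l : Cov Bool} (h : l ≤ k) : ch z l ≤ ch z k := ⟨le_rfl, le_rfl, h⟩

variable {M N : PMod (Cnc z.u z.v K)} (ψ : (X.IF z).obj M ⟶ (X.IF z).obj N)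

/-- `ψ` on the chart `s` as a function -/
noncomputable def pfn (s : Ch3) (x : ConicData.Icar z M s) : ConicData.Icar z N s :=
  ψ.app (op s) x

lemma pf_add (s : Ch3) (x y : ConicData.Icar z M s) :
    pfn X z ψ s (x + y) = pfn X z ψ s x + pfn X z ψ s y :=
  map_add (ψ.app (op s)).hom x y

lemma pf_smul (s : Ch3) (f : X.A s.i s.j s.k) (x : ConicData.Icar z M s) :
    pfn X z ψ s (f • x) = f • pfn X z ψ s x :=
  (ψ.app (op s)).hom.map_smul (show X.R.toRing.obj (op s) from f)
    (show ((X.IF z).obj M).obj (op s) from x)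

lemma pf_res {s t : Ch3} (h : t ≤ s) (x : ConicData.Icar z M s) :
    pfn X z ψ t (ConicData.Ires z M h x) = ConicData.Ires z N h (pfn X z ψ s x) :=
  rs_nat ψ (homOfLE h).op x

/-- the morphism on the chart `k` -/
noncomputable def φk (hEVK : ∀ s : Ch3, ∀ hs : z.In s.i s.j, Function.Surjective (X.ev z hs))
    (k : Cov Bool) : sec M k →ₗ[conSub z.u z.v K k] sec N k where
  toFun m := (pfn X z ψ (ch z k) (up z M k m)).1
  map_add' m n := by
    have e : up z M k (m + n) = up z M k m + up z M k n := rfl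
    rw [e, pf_add]
    rfl
  map_smul' r m := by
    obtain ⟨f, rfl⟩ := hEVK (ch z k) (ch_in z k) r
    have e : up z M k ((show conSub z.u z.v K k from X.ev z (ch_in z k) f) • m) =
        (f : X.A (ch z k).i (ch z k).j (ch z k).k) • up z M k m := by
      apply Subtype.ext
      rw [ConicData.Icar_smul_coe, X.act_of_in z (ch_in z k)]
      rfl
    refine (congrArg (fun y => (pfn X z ψ (ch z k) y).1) e).trans ?_
    refine (congrArg Subtype.val (pf_smul X z ψ (ch z k) f (up z M k m))).trans ?_
    refine (ConicData.Icar_smul_coe X z N (ch z k) f _).trans ?_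
    rw [X.act_of_in z (ch_in z k)]
    rfl

end IFF_

open IFF_ in
theorem iff_proof (hEVK : Stmt_EVK) : Stmt_IFF := by
  intro K _ c₁ c₂ S X z M N
  have hsurj : ∀ s : Ch3, ∀ hs : z.In s.i s.j, Function.Surjective (X.ev z hs) :=
    fun s hs => ((hEVK K c₁ c₂ S X z s).1 hs).1
  constructor
  · intro φ φ' h
    apply pmod_ext
    intro Y m
    have h1 : ((X.IF z).map φ).app (op (ch z Y.unop)) (up z M Y.unop m) =
        ((X.IF z).map φ').app (op (ch z Y.unop)) (up z M Y.unop m) := by
      have h' : (X.IF z).map φ = (X.IF z).map φ' := h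
      rw [h']
    have h2 : X.Imap z φ (ch z Y.unop) (up z M Y.unop m) =
        X.Imap z φ' (ch z Y.unop) (up z M Y.unop m) := h1
    have h3 := congrArg (fun x : ConicData.Icar z N (ch z Y.unop) =>
      (x : sec N (ch z Y.unop).k)) h2
    exact h3
  · intro ψ
    refine ⟨mkHom (fun Y => φk X z ψ hsurj Y.unop) ?_, ?_⟩
    · intro Y Y' f m
      have h1 := pf_res X z ψ (ch_mono z (leOfHom f.unop)) (up z M Y.unop m)
      rw [ires_up z M _ (leOfHom f.unop)] at h1
      have h2 := congrArg (fun x : ConicData.Icar z N (ch z Y'.unop) =>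
        (x : sec N (ch z Y'.unop).k)) h1
      have h3 : (ConicData.Ires z N (ch_mono z (leOfHom f.unop))
          (pfn X z ψ (ch z Y.unop) (up z M Y.unop m)) : sec N (ch z Y'.unop).k) =
          rsC N (ch_mono z (leOfHom f.unop)).2.2
            (pfn X z ψ (ch z Y.unop) (up z M Y.unop m) : sec N (ch z Y.unop).k) :=
        ConicData.Ires_in z N _ _ (ch_in z _)
      exact h2.trans h3
    · apply pmod_ext
      intro Y x
      obtain ⟨s⟩ := Y
      change ConicData.Icar z M s at x
      change X.Imap z _ s x = pfn X z ψ s x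
      apply ConicData.Icar_eq
      intro hs
      rw [ConicData.Imap_coe]
      change (pfn X z ψ (ch z s.k) (up z M s.k (x : sec M s.k))).1 = (pfn X z ψ s x).1
      have hle : ch z s.k ≤ s := ⟨((z.in_iff _ _).1 hs).1, ((z.in_iff _ _).1 hs).2, le_rfl⟩
      have e : up z M s.k ((x : ConicData.Icar z M s) : sec M s.k) =
          ConicData.Ires z M hle x := by
        apply ConicData.Icar_eq
        intro ht
        rw [ConicData.Ires_in z M _ _ ht]
        exact (rsC_id M _ _).symm
      rw [e, pf_res, ConicData.Ires_in z N _ _ (ch_in z _)]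
      exact rsC_id N _ _

end Pool.CRD.FB
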