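import Pool.Agent.CRD.Fib.Stmts

open CategoryTheory Opposite Limits TensorProduct

namespace Pool.CRD.FB

namespace LOO_

variable {K : Type} [Field K] {c₁ c₂ : CurveData K}

lemma fg_cov (c : CurveData K) (t : Cov Bool) : (c.A t).FG := by
  rcases cov_bool_cases t with rfl | rfl | rfl
  · exact c.fg_a
  · exact c.fg_b
  · rw [c.cab_a]
    exact c.fg_a.sup ⟨{c.w⁻¹}, by simp⟩

lemma fg_A (S : SurfData c₁ c₂) (i j : Cov Bool) : (S.A i j).FG :=
  Subalgebra.FG.sup ((fg_cov c₁ i).map S.e₁) ((fg_cov c₂ j).map S.e₂)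

lemma noeth (S : SurfData c₁ c₂) (i j : Cov Bool) : IsNoetherianRing (S.A i j) := by
  have : Algebra.FiniteType K (S.A i j) :=
    (Subalgebra.fg_iff_finiteType _).1 (fg_A S i j)
  exact Algebra.FiniteType.isNoetherianRing K _

/-- fractions -/
def fracSub (S : SurfData c₁ c₂) (i j : Cov Bool) : Subalgebra K S.L where
  carrier := {x | ∃ d ∈ S.A i j, d ≠ 0 ∧ x * d ∈ S.A i j}
  mul_mem' := by
    rintro x y ⟨d, hd, hd0, h⟩ ⟨e, he, he0, h'⟩
    refine ⟨d * e, mul_mem hd he, mul_ne_zero hd0 he0, ?_⟩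
    have := mul_mem h h'
    convert this using 1
    ring
  add_mem' := by
    rintro x y ⟨d, hd, hd0, h⟩ ⟨e, he, he0, h'⟩
    refine ⟨d * e, mul_mem hd he, mul_ne_zero hd0 he0, ?_⟩
    have := add_mem (mul_mem h he) (mul_mem h' hd)
    convert this using 1
    ring
  algebraMap_mem' k := ⟨1, one_mem _, one_ne_zero, by
    rw [mul_one]; exact Subalgebra.algebraMap_mem _ k⟩

lemma e₁_mem (S : SurfData c₁ c₂) (i j : Cov Bool) (f : c₁.F) : S.e₁ f ∈ fracSub S i j := by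
  obtain ⟨p, hp, q, hq, hq0, rfl⟩ := c₁.frac i f
  refine ⟨S.e₁ q, (le_sup_left : _ ≤ S.A i j) ⟨q, hq, rfl⟩, ?_, ?_⟩
  · intro h
    exact hq0 (S.e₁.toRingHom.injective (by simpa using h))
  · rw [← map_mul, div_mul_cancel₀ _ hq0]
    exact (le_sup_left : _ ≤ S.A i j) ⟨p, hp, rfl⟩

lemma e₂_mem (S : SurfData c₁ c₂) (i j : Cov Bool) (f : c₂.F) : S.e₂ f ∈ fracSub S i j := by
  obtain ⟨p, hp, q, hq, hq0, rfl⟩ := c₂.frac j f
  refine ⟨S.e₂ q, (le_sup_right : _ ≤ S.A i j) ⟨q, hq, rfl⟩, ?_, ?_⟩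
  · intro h
    exact hq0 (S.e₂.toRingHom.injective (by simpa using h))
  · rw [← map_mul, div_mul_cancel₀ _ hq0]
    exact (le_sup_right : _ ≤ S.A i j) ⟨p, hp, rfl⟩

lemma prod_mem (S : SurfData c₁ c₂) (i j : Cov Bool) (p : TensorProduct K c₁.F c₂.F) :
    Algebra.TensorProduct.productMap S.e₁ S.e₂ p ∈ fracSub S i j := by
  induction p using TensorProduct.induction_on with
  | zero => rw [map_zero]; exact zero_mem _
  | tmul x y =>
    rw [Algebra.TensorProduct.productMap_apply_tmul]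
    exact mul_mem (e₁_mem S i j x) (e₂_mem S i j y)
  | add x y hx hy => rw [map_add]; exact add_mem hx hy

lemma frac_mem (S : SurfData c₁ c₂) (i j : Cov Bool) (x : S.L) :
    ∃ d ∈ S.A i j, d ≠ 0 ∧ x * d ∈ S.A i j := by
  obtain ⟨p, q, hq, rfl⟩ := S.frac x
  obtain ⟨d, hd, hd0, h⟩ := prod_mem S i j p
  obtain ⟨e, he, he0, h'⟩ := prod_mem S i j q
  refine ⟨(Algebra.TensorProduct.productMap S.e₁ S.e₂ q * e) * d, mul_mem h' hd,
    mul_ne_zero (mul_ne_zero hq he0) hd0, ?_⟩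
  have := mul_mem h he
  convert this using 1
  field_simp

end LOO_

open LOO_ in
theorem loo_proof (_hFRX : G.Stmt_FRX) : Stmt_LOO := by
  intro K _ c₁ c₂ S z
  let _i : Algebra (S.A z.z₁.t z.z₂.t) z.O :=
    (Subalgebra.inclusion z.A_le_O).toRingHom.toAlgebra
  have hmap : ∀ b : S.A z.z₁.t z.z₂.t, ((algebraMap (S.A z.z₁.t z.z₂.t) z.O b : z.O) : S.L) = b :=
    fun b => rfl
  let P : Ideal (S.A z.z₁.t z.z₂.t) := RingHom.ker z.χ
  have : P.IsPrime := RingHom.ker_isPrime z.χ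
  have hP : ∀ b, b ∈ P.primeCompl ↔ z.χ b ≠ 0 := fun b => Iff.rfl
  have hloc : IsLocalization.AtPrime z.O P := by
    refine (isLocalization_iff P.primeCompl z.O).2 ⟨?_, ?_, ?_⟩
    · rintro ⟨b, hb⟩
      have hb' : z.χ b ≠ 0 := hb
      have hb0 : (b : S.L) ≠ 0 := by
        intro h
        apply hb'
        have : b = 0 := Subtype.ext h
        rw [this, map_zero]
      rw [isUnit_iff_exists_inv]
      refine ⟨⟨(b : S.L)⁻¹, b, hb', ?_⟩, ?_⟩
      · rw [inv_mul_cancel₀ hb0]; exact one_mem _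
      · apply Subtype.ext
        change (b : S.L) * (b : S.L)⁻¹ = 1
        exact mul_inv_cancel₀ hb0
    · intro f
      obtain ⟨b, hb, hf⟩ := f.2
      refine ⟨(⟨_, hf⟩, ⟨b, hb⟩), ?_⟩
      apply Subtype.ext
      rfl
    · intro x y h
      refine ⟨1, ?_⟩
      have : x = y := Subtype.ext (congrArg (fun t : z.O => (t : S.L)) h)
      rw [this]
  have := noeth S z.z₁.t z.z₂.t
  refine ⟨IsLocalization.AtPrime.isLocalRing z.O P,
    IsLocalization.isNoetherianRing P.primeCompl z.O inferInstance, fun x => ?_⟩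
  obtain ⟨d, hd, hd0, h⟩ := frac_mem S z.z₁.t z.z₂.t x
  refine ⟨⟨x * d, z.A_le_O h⟩, ⟨d, z.A_le_O hd⟩, ?_, ?_⟩
  · intro h0
    exact hd0 (congrArg (fun t : z.O => (t : S.L)) h0)
  · change x = (x * d) / d
    rw [mul_div_assoc, div_self hd0, mul_one]

end Pool.CRD.FB
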