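import Pool.Agent.CRD.Fib.Stmts
import Pool.Agent.CRD.G.DefsE

/-!
# CRD / Fib, module OXZ: the restriction of `O_X(j)` to the fibre over `z` is `O(j)`

The first part (values of the cocycle of `w^{-j}` on the fibre) is taken from the module SKP.
-/

set_option autoImplicit false

open CategoryTheory Opposite Limits TensorProduct Pretriangulated

namespace Pool.CRD.FB

namespace OXZ_

section alg
variable {A B : Type} [CommRing A] [CommRing B] (f : A →+* B) (c : Bˣ)

/-- `a ↦ f(a) c` -/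
noncomputable def g0 : A →+ B := (AddMonoidHom.mulRight (c : B)).comp f.toAddMonoidHom

theorem g0_apply (a : A) : g0 f c a = f a * c := rfl

theorem g0_smul (a m : A) : g0 f c (a • m) = f a • g0 f c m := by
  rw [g0_apply, g0_apply, smul_eq_mul, map_mul, smul_eq_mul, mul_assoc]

/-- `B ⊗ A = B`, scaled by a unit -/
noncomputable def eqv : BT f A ≃ₗ[B] B :=
  LinearEquiv.ofLinearMap (BTlift f (g0 f c) (g0_smul f c))
    (LinearMap.toSpanSingleton B (BT f A) (bt f ((c⁻¹ : Bˣ) : B) 1))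
    (by
      apply LinearMap.ext
      intro y
      change BTlift f (g0 f c) (g0_smul f c) (y • bt f ((c⁻¹ : Bˣ) : B) 1) = y
      rw [map_smul, BTlift_bt, g0_apply, map_one, one_mul, smul_eq_mul, smul_eq_mul,
        Units.inv_mul, mul_one])
    (by
      apply LinearMap.ext
      intro x
      change BTlift f (g0 f c) (g0_smul f c) x • bt f ((c⁻¹ : Bˣ) : B) (1 : A) = x
      refine bt_induction f (P := fun x => BTlift f (g0 f c) (g0_smul f c) x •
        bt f ((c⁻¹ : Bˣ) : B) (1 : A) = x) ?_ ?_ ?_ x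
      · rw [map_zero, zero_smul]
      · intro b m
        rw [BTlift_bt, smul_bt, g0_apply, smul_eq_mul, mul_assoc, mul_assoc, Units.mul_inv,
          mul_one, mul_comm b, ← bt_smul_right, smul_eq_mul, mul_one]
      · intro x y hx hy
        rw [map_add, add_smul, hx, hy])

theorem eqv_bt (b : B) (a : A) : eqv f c (bt f b a) = b * (f a * c) := rfl

end alg

/-- the value of a cocycle on an arrow, as a homomorphism -/
def uHom {K : Type} [CommRing K] {C : Type} [SmallCategory C] {R : PAlg K C} {X Y : Cᵒᵖ}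
    (f : X ⟶ Y) : UCoc R →* (R.obj Y)ˣ where
  toFun c := c.u f
  map_one' := rfl
  map_mul' _ _ := rfl

theorem u_zpow {K : Type} [CommRing K] {C : Type} [SmallCategory C] {R : PAlg K C} {X Y : Cᵒᵖ}
    (f : X ⟶ Y) (c : UCoc R) (j : ℤ) : (c ^ j).u f = (c.u f) ^ j := map_zpow (uHom f) c j

section con
variable {K : Type} [Field K] (a b : Kˣ)

/-- `T` as a unit of the total ring of the conic -/
noncomputable def TC : (ConT a b)ˣ :=
  Units.map (algebraMap (LaurentPolynomial K) (ConT a b) : LaurentPolynomial K →* ConT a b)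
    { val := LaurentPolynomial.T 1
      inv := LaurentPolynomial.T (-1)
      val_inv := by rw [← LaurentPolynomial.T_add]; exact LaurentPolynomial.T_zero
      inv_val := by rw [← LaurentPolynomial.T_add]; exact LaurentPolynomial.T_zero }

theorem TC_zpow (n : ℤ) : ((TC a b ^ n : (ConT a b)ˣ) : ConT a b) =
    algebraMap (LaurentPolynomial K) (ConT a b) (LaurentPolynomial.T n) := by
  rw [TC, ← map_zpow, Units.coe_map, T_unit_zpow]
  rfl

/-- constants as units of the total ring of the conic -/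
noncomputable def AC : Kˣ →* (ConT a b)ˣ := Units.map (algebraMap K (ConT a b) : K →* ConT a b)

theorem single_eq (n : ℤ) (c : Kˣ) :
    (⟨AddMonoidAlgebra.single n (c : K), 0⟩ : ConT a b) =
      ((TC a b ^ n * AC a b c : (ConT a b)ˣ) : ConT a b) := by
  rw [Units.val_mul, TC_zpow]
  change _ = algebraMap (LaurentPolynomial K) (ConT a b) (LaurentPolynomial.T n) *
    algebraMap K (ConT a b) c
  have h1 : algebraMap K (ConT a b) (c : K) =
      algebraMap (LaurentPolynomial K) (ConT a b) (LaurentPolynomial.C (c : K)) := rfl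
  rw [h1, ← map_mul, mul_comm, ← LaurentPolynomial.single_eq_C_mul_T]
  rfl

end con

variable {K : Type} [Field K] {c₁ c₂ : CurveData K} {S : SurfData c₁ c₂} (X : ConicData S)
  (z : S.Pt)

/-- the unit `(h₁ i/h₁ t)^pe` of the local ring -/
noncomputable def kO {s : Ch3} (hs : z.In s.i s.j) : z.Oˣ := z.κO hs ^ pe s.k

/-- its value -/
noncomputable def kK {s : Ch3} (hs : z.In s.i s.j) : Kˣ :=
  Units.map (z.χO.toRingHom : z.O →* K) (kO z hs)

theorem wgen_eq {s : Ch3} (hs : z.In s.i s.j) : X.wgen s =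
    algebraMap S.L X.E ((kO z hs : z.O) : S.L) * X.eta z.z₁.t ^ pe s.k := by
  classical
  unfold ConicData.wgen kO pe
  by_cases h : false ∈ s.k.s
  · rw [if_pos h, if_pos h, zpow_zero, zpow_zero]
    simp
  · rw [if_neg h, if_neg h, zpow_one, zpow_one]
    have n1 := S.h₁_ne s.i
    have n2 := S.h₁_ne z.z₁.t
    have h1 : ((z.κO hs : z.O) : S.L) = S.h₁ s.i / S.h₁ z.z₁.t := rfl
    rw [h1]
    unfold ConicData.eta
    rw [← mul_assoc, ← map_mul]
    congr 2
    field_simp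

theorem evE_single (n : ℤ) (r : z.O) :
    X.evE z (algebraMap S.L X.E (r : S.L) * X.eta z.z₁.t ^ n) =
      ⟨AddMonoidAlgebra.single n (z.χO r), 0⟩ := by
  rw [← X.toEO_re z n r, X.evE_toEO]
  apply QuadraticAlgebra.ext
  · rw [conMap_re, lauMap_single, one_zpow, Units.val_one, mul_one]
    rfl
  · rw [conMap_im]
    change LaurentPolynomial.C _ * lauMap _ _ 0 = 0
    rw [map_zero, mul_zero]

theorem evE_wgen {s t : Ch3} (hs : z.In s.i s.j) (ht : z.In t.i t.j) :
    X.evE z (X.wgen s / X.wgen t) =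
      ((TC z.u z.v ^ (pe s.k - pe t.k) * AC z.u z.v (kK z hs * (kK z ht)⁻¹) :
        (ConT z.u z.v)ˣ) : ConT z.u z.v) := by
  have h1 : X.wgen s / X.wgen t = algebraMap S.L X.E (((kO z hs * (kO z ht)⁻¹ : z.Oˣ) : z.O) : S.L) *
      X.eta z.z₁.t ^ (pe s.k - pe t.k) := by
    rw [wgen_eq X z hs, wgen_eq X z ht]
    have h2 : ((((kO z ht)⁻¹ : z.Oˣ) : z.O) : S.L) = ((kO z ht : z.O) : S.L)⁻¹ := by
      apply eq_inv_of_mul_eq_one_left
      have h3 : (((kO z ht)⁻¹ : z.Oˣ) : z.O) * (kO z ht : z.O) = 1 := Units.inv_mul _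
      exact congrArg Subtype.val h3
    have h3 : (((kO z hs * (kO z ht)⁻¹ : z.Oˣ) : z.O) : S.L) =
        ((kO z hs : z.O) : S.L) * ((kO z ht : z.O) : S.L)⁻¹ := by
      rw [← h2]; rfl
    rw [h3, map_mul, map_inv₀, zpow_sub₀ (X.eta_ne _)]
    rw [div_eq_mul_inv, div_eq_mul_inv, mul_inv]
    ring
  rw [h1, evE_single]
  have h4 : z.χO ((kO z hs * (kO z ht)⁻¹ : z.Oˣ) : z.O) =
      ((kK z hs * (kK z ht)⁻¹ : Kˣ) : K) := by
    unfold kK
    rw [← map_inv, ← map_mul]
    rfl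
  rw [h4]
  exact single_eq z.u z.v _ _

/-- the cocycle of `w^{-j}` -/
noncomputable def wv (j : ℤ) {s t : Ch3} (h : t ≤ s) : X.A t.i t.j t.k :=
  (X.wi ^ j).v (homOfLE h).op

/-- the value of the cocycle of `w^{-j}` on the fibre over `z` -/
theorem ev_wi (j : ℤ) {s t : Ch3} (h : t ≤ s) (hs : z.In s.i s.j) (ht : z.In t.i t.j) :
    X.evE z (wv X j h : X.E) * algebraMap K (ConT z.u z.v) ((kK z ht ^ j : Kˣ) : K) =
      algebraMap (LaurentPolynomial K) (ConT z.u z.v)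
        (LaurentPolynomial.T (j * (pe s.k - pe t.k))) *
        algebraMap K (ConT z.u z.v) ((kK z hs ^ j : Kˣ) : K) := by
  let E : X.A t.i t.j t.k →* ConT z.u z.v :=
    ((conSub z.u z.v K t.k).val.comp (X.ev z ht) : X.A t.i t.j t.k →ₐ[K] ConT z.u z.v)
  let w : (X.A t.i t.j t.k)ˣ := X.wi.u (homOfLE h).op
  have h1 : Units.map E w = TC z.u z.v ^ (pe s.k - pe t.k) *
      AC z.u z.v (kK z hs * (kK z ht)⁻¹) := by
    apply Units.ext
    exact evE_wgen X z hs ht
  have h2 : Units.map E (w ^ j) = TC z.u z.v ^ (j * (pe s.k - pe t.k)) *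
      AC z.u z.v (kK z hs ^ j * (kK z ht ^ j)⁻¹) := by
    rw [map_zpow, h1, mul_zpow, ← zpow_mul, ← map_zpow, mul_zpow, inv_zpow, mul_comm j]
  have h3 : Units.map E (w ^ j) * AC z.u z.v (kK z ht ^ j) =
      TC z.u z.v ^ (j * (pe s.k - pe t.k)) * AC z.u z.v (kK z hs ^ j) := by
    rw [h2, mul_assoc, ← map_mul, inv_mul_cancel_right]
  have h4 := congrArg Units.val h3
  rw [Units.val_mul, Units.val_mul, TC_zpow] at h4
  have h5 : (X.wi ^ j).u (homOfLE h).op = (X.wi.u (homOfLE h).op) ^ j := u_zpow _ _ _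
  have h6 : wv X j h = ((w ^ j : (X.A t.i t.j t.k)ˣ) : X.A t.i t.j t.k) :=
    congrArg Units.val h5
  rw [h6]
  exact h4


/-- the homomorphism to the ring of the fibre is the evaluation -/
theorem gK_h (hZ : Stmt_ZVC) (k : Cov Bool) (f : X.A z.z₁.mn z.z₂.mn k) :
    (X.gK z).h (op k) f = X.ev z (s := ⟨z.z₁.mn, z.z₂.mn, k⟩) z.in_mn f := by
  have h := hZ K c₁ c₂ S X z ⟨z.z₁.mn, z.z₂.mn, k⟩ z.in_mn ((X.cE z.z₁.mn z.z₂.mn k).symm f)
  have e : X.cE z.z₁.mn z.z₂.mn k ((X.cE z.z₁.mn z.z₂.mn k).symm f) = f :=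
    (X.cE z.z₁.mn z.z₂.mn k).apply_symm_apply f
  exact h.symm.trans (congrArg (X.ev z (s := ⟨z.z₁.mn, z.z₂.mn, k⟩) z.in_mn) e)

/-- the constant on the chart `k` -/
noncomputable def cc (j : ℤ) (k : Cov Bool) : (conSub z.u z.v K k)ˣ :=
  Units.map (algebraMap K (conSub z.u z.v K k) : K →* conSub z.u z.v K k)
    (kK z (s := ⟨z.z₁.mn, z.z₂.mn, k⟩) z.in_mn ^ j)

theorem cc_coe (j : ℤ) (k : Cov Bool) :
    (((cc z j k : (conSub z.u z.v K k)ˣ) : conSub z.u z.v K k) : ConT z.u z.v) =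
      algebraMap K (ConT z.u z.v)
        ((kK z (s := ⟨z.z₁.mn, z.z₂.mn, k⟩) z.in_mn ^ j : Kˣ) : K) := rfl


/-- the ring homomorphism on the chart `k` -/
noncomputable def hk (k : Cov Bool) : X.A z.z₁.mn z.z₂.mn k →+* conSub z.u z.v K k :=
  (X.gK z).h (op k)

/-- the isomorphism on the chart `k` -/
noncomputable def eqK (j : ℤ) (k : Cov Bool) :
    BT (hk X z k) (X.A z.z₁.mn z.z₂.mn k) ≃ₗ[conSub z.u z.v K k] conSub z.u z.v K k :=
  eqv (hk X z k) (cc z j k)

/-- naturality of the ring homomorphisms -/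
theorem hk_res {k l : Cov Bool} (h : l ≤ k) (a : X.A z.z₁.mn z.z₂.mn k) :
    hk X z l (Subalgebra.inclusion (X.A_mono le_rfl le_rfl h) a) =
      Subalgebra.inclusion (conSub_mono _ _ K h) (hk X z k a) :=
  ((X.gK z).nat (homOfLE h).op a).symm

/-- the compatibility with the restriction maps -/
theorem eqK_nat (hZ : Stmt_ZVC) (j : ℤ) {k l : Cov Bool} (h : l ≤ k)
    (b : conSub z.u z.v K k) (a : X.A z.z₁.mn z.z₂.mn k) :
    Subalgebra.inclusion (conSub_mono _ _ K h) b *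
      (hk X z l (wv X j (s := ⟨z.z₁.mn, z.z₂.mn, k⟩) (t := ⟨z.z₁.mn, z.z₂.mn, l⟩)
        ⟨le_rfl, le_rfl, h⟩ * Subalgebra.inclusion (X.A_mono le_rfl le_rfl h) a) *
        ((cc z j l : (conSub z.u z.v K l)ˣ) : conSub z.u z.v K l)) =
    Tel z.u z.v K (pe_mem h j) * Subalgebra.inclusion (conSub_mono _ _ K h)
      (b * (hk X z k a * ((cc z j k : (conSub z.u z.v K k)ˣ) : conSub z.u z.v K k))) := by
  have h1 : hk X z l (wv X j (s := ⟨z.z₁.mn, z.z₂.mn, k⟩) (t := ⟨z.z₁.mn, z.z₂.mn, l⟩)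
        ⟨le_rfl, le_rfl, h⟩) * ((cc z j l : (conSub z.u z.v K l)ˣ) : conSub z.u z.v K l) =
      Tel z.u z.v K (pe_mem h j) * Subalgebra.inclusion (conSub_mono _ _ K h)
        ((cc z j k : (conSub z.u z.v K k)ˣ) : conSub z.u z.v K k) := by
    rw [show hk X z l (wv X j (s := ⟨z.z₁.mn, z.z₂.mn, k⟩) (t := ⟨z.z₁.mn, z.z₂.mn, l⟩)
        ⟨le_rfl, le_rfl, h⟩) = _ from gK_h X z hZ l _]
    apply Subtype.ext
    exact ev_wi X z j (s := ⟨z.z₁.mn, z.z₂.mn, k⟩) (t := ⟨z.z₁.mn, z.z₂.mn, l⟩)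
      ⟨le_rfl, le_rfl, h⟩ z.in_mn z.in_mn
  rw [map_mul (hk X z l), hk_res X z h, map_mul, map_mul]
  calc _ = Subalgebra.inclusion (conSub_mono _ _ K h) b *
        Subalgebra.inclusion (conSub_mono _ _ K h) (hk X z k a) *
        (hk X z l (wv X j (s := ⟨z.z₁.mn, z.z₂.mn, k⟩) (t := ⟨z.z₁.mn, z.z₂.mn, l⟩)
        ⟨le_rfl, le_rfl, h⟩) * ((cc z j l : (conSub z.u z.v K l)ˣ) : conSub z.u z.v K l)) := by
          ring
    _ = _ := by
          rw [h1]
          ring

end OXZ_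

open OXZ_ in
theorem oxz_proof (hZVC : Stmt_ZVC) : Stmt_OXZ := by
  intro K _ c₁ c₂ S X z j
  refine ⟨mkIso (M := (X.fz z).obj (X.OX j)) (N := OO z.u z.v K j)
    (fun Y => eqK X z j Y.unop) ?_⟩
  intro Y Y' f x
  refine bt_induction (hk X z Y.unop) (M := X.A z.z₁.mn z.z₂.mn Y.unop)
    (P := fun x => eqK X z j Y'.unop (rs ((X.fz z).obj (X.OX j)) f x) =
      rs (OO z.u z.v K j) f (eqK X z j Y.unop x)) ?_ ?_ ?_ x
  · exact ((congrArg (eqK X z j Y'.unop) (rs_zero ((X.fz z).obj (X.OX j)) f)).trans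
      (map_zero (eqK X z j Y'.unop))).trans ((rs_zero (OO z.u z.v K j) f).symm.trans
      (congrArg (rs (OO z.u z.v K j) f) (map_zero (eqK X z j Y.unop)).symm))
  · intro b a
    exact eqK_nat X z hZVC j (leOfHom f.unop) b a
  · intro x y hx hy
    have e1 := rs_add ((X.fz z).obj (X.OX j)) f x y
    have e2 := map_add (eqK X z j Y'.unop) (rs ((X.fz z).obj (X.OX j)) f x)
      (rs ((X.fz z).obj (X.OX j)) f y)
    have e3 := (eqK X z j Y.unop).map_add x y
    have e4 := rs_add (OO z.u z.v K j) f (eqK X z j Y.unop x) (eqK X z j Y.unop y)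
    exact (congrArg (eqK X z j Y'.unop) e1).trans (e2.trans ((congrArg₂ (· + ·) hx hy).trans
      (e4.symm.trans (congrArg (rs (OO z.u z.v K j) f) e3.symm))))

end Pool.CRD.FB
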