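import Pool.Agent.CRD.Fib.Stmts

/-!
# CRD / Fib: QUI: `N / (J_1, J_2) N = I_z (N_z)`
-/

set_option linter.style.haveILetI false

open CategoryTheory Opposite Limits TensorProduct Pretriangulated

namespace Pool.CRD.FB

namespace QUI_

theorem key {A A' F : Type} [CommRing A] [CommRing A'] [CommRing F] (ι : A →+* A') (ε : A' →+* F)
    (hs : Function.Surjective (ε.comp ι)) {N N' : Type} [AddCommGroup N] [AddCommGroup N']
    [Module A N] [Module A' N'] (ρ : N →+ N') (hρ : ∀ (a : A) (n : N), ρ (a • n) = ι a • ρ n)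
    (hbc : letI := ι.toAlgebra
      letI : Module A N' := Module.compHom N' ι
      haveI : IsScalarTower A A' N' := ⟨fun a b c => by rw [Algebra.smul_def, mul_smul]; rfl⟩
      IsBaseChange A' ({ toFun := ρ, map_add' := map_add ρ, map_smul' := hρ } : N →ₗ[A] N')) :
    (∀ p : BT ε N', ∃ n, bt ε 1 (ρ n) = p) ∧
      ∀ n, bt ε 1 (ρ n) = 0 → n ∈ (RingHom.ker (ε.comp ι)) • (⊤ : Submodule A N) := by
  letI := ι.toAlgebra
  letI : Module A N' := Module.compHom N' ι
  haveI : IsScalarTower A A' N' := ⟨fun a b c => by rw [Algebra.smul_def, mul_smul]; rfl⟩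
  constructor
  · -- surjectivity
    intro p
    have h1 : ∀ (n' : N') (b : F), ∃ n, bt ε 1 (ρ n) = bt ε b n' := by
      intro n'
      induction n' using hbc.inductionOn with
      | zero =>
        intro b
        refine ⟨0, ?_⟩
        have h0 : ∀ c : F, bt ε c (0 : N') = 0 := by
          intro c
          have := bt_add_right ε c (0 : N') 0
          rw [add_zero] at this
          exact left_eq_add.mp this
        rw [map_zero, h0, h0]
      | tmul m =>
        intro b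
        obtain ⟨a, ha⟩ := hs b
        refine ⟨a • m, ?_⟩
        rw [hρ, bt_smul_right, mul_one]
        exact congrArg (fun t => bt ε t (ρ m)) ha
      | smul s n ih =>
        intro b
        obtain ⟨n1, h1⟩ := ih (ε s * b)
        refine ⟨n1, ?_⟩
        rw [h1, bt_smul_right]
      | add n1 n2 ih1 ih2 =>
        intro b
        obtain ⟨m1, h1⟩ := ih1 b
        obtain ⟨m2, h2⟩ := ih2 b
        refine ⟨m1 + m2, ?_⟩
        rw [map_add, bt_add_right, h1, h2, bt_add_right]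
    refine bt_induction ε (P := fun p => ∃ n, bt ε 1 (ρ n) = p) ?_ ?_ ?_ p
    · obtain ⟨n, hn⟩ := h1 0 0
      refine ⟨n, ?_⟩
      rw [hn]
      have := bt_add_right ε (0 : F) (0 : N') 0
      rw [add_zero] at this
      exact left_eq_add.mp this
    · intro b m
      exact h1 m b
    · rintro x y ⟨n1, rfl⟩ ⟨n2, rfl⟩
      exact ⟨n1 + n2, by rw [map_add, bt_add_right]⟩
  · intro n hn
    set I := RingHom.ker (ε.comp ι) with hI
    let e : A ⧸ I ≃+* F := RingHom.quotientKerEquivOfSurjective hs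
    let Q := N ⧸ (I • ⊤ : Submodule A N)
    letI mF : Module F Q := Module.compHom Q (e.symm : F →+* A ⧸ I)
    letI mA' : Module A' Q := Module.compHom Q ((e.symm : F →+* A ⧸ I).comp ε)
    have he : ∀ a : A, e.symm (ε (ι a)) = Ideal.Quotient.mk I a := by
      intro a
      rw [RingEquiv.symm_apply_eq]
      rfl
    have hA' : ∀ (a' : A') (q : Q), a' • q = ε a' • q := fun _ _ => rfl
    have hF : ∀ (a : A) (q : Q), ε (ι a) • q = a • q := by
      intro a q
      change (e.symm (ε (ι a))) • q = a • q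
      rw [he]
      rfl
    haveI : IsScalarTower A A' Q := ⟨fun a b q => by
      rw [Algebra.smul_def, mul_smul, hA', ← hF]
      rfl⟩
    let g : N' →ₗ[A'] Q := hbc.lift (Submodule.mkQ (I • ⊤ : Submodule A N))
    have hg : ∀ m, g (ρ m) = Submodule.mkQ (I • ⊤ : Submodule A N) m := fun m =>
      hbc.lift_eq (Submodule.mkQ (I • ⊤ : Submodule A N)) m
    letI := ε.toAlgebra
    let T : F ⊗[A'] N' →+ Q := TensorProduct.liftAddHom
      { toFun := fun b =>
          { toFun := fun m => b • g m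
            map_zero' := by rw [map_zero, smul_zero]
            map_add' := fun m n => by rw [map_add, smul_add] }
        map_zero' := by
          ext m
          change (0 : F) • g m = 0
          rw [zero_smul]
        map_add' := fun x y => by
          ext m
          change (x + y) • g m = x • g m + y • g m
          rw [add_smul] }
      (fun r x m => by
        change (ε r * x) • g m = x • g (r • m)
        rw [map_smul, hA', mul_comm, mul_smul])
    have hT : T (bt ε 1 (ρ n) : BT ε N') = Submodule.mkQ (I • ⊤ : Submodule A N) n := by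
      change (1 : F) • g (ρ n) = _
      rw [hg, one_smul]
    rw [hn] at hT
    have h3 : T (0 : F ⊗[A'] N') = 0 := map_zero T
    have h4 : Submodule.mkQ (I • ⊤ : Submodule A N) n = 0 := by
      rw [← hT]; exact h3
    rwa [Submodule.mkQ_apply, Submodule.Quotient.mk_eq_zero] at h4

variable {K : Type} [Field K] {c₁ c₂ : CurveData K} {S : SurfData c₁ c₂} (X : ConicData S)
  (z : S.Pt) (N : PMod X.R)

/-- the smallest chart over `k` -/
noncomputable abbrev mc (k : Cov Bool) : Ch3 := ⟨z.z₁.mn, z.z₂.mn, k⟩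

lemma mc_le {s : Ch3} (hs : z.In s.i s.j) : mc z s.k ≤ s :=
  ⟨((z.in_iff _ _).1 hs).1, ((z.in_iff _ _).1 hs).2, le_rfl⟩

/-- the ring homomorphism of `gK` is the evaluation -/
lemma gK_h (hZVC : Stmt_ZVC) (k : Cov Bool) (x : X.A z.z₁.mn z.z₂.mn k) :
    (X.gK z).h (op k) x = X.ev z (s := mc z k) z.in_mn x := by
  have h := hZVC K c₁ c₂ S X z (mc z k) z.in_mn ((X.cE z.z₁.mn z.z₂.mn k).symm x)
  rw [AlgEquiv.apply_symm_apply] at h
  exact h.symm

/-- evaluation through the smallest chart -/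
lemma ev_mc {s : Ch3} (hs : z.In s.i s.j) (f : X.A s.i s.j s.k) :
    X.ev z (s := mc z s.k) z.in_mn
      (Subalgebra.inclusion (X.A_mono (mc_le z hs).1 (mc_le z hs).2.1 (mc_le z hs).2.2) f) =
      X.ev z hs f := by
  rw [X.ev_res z (mc_le z hs) hs z.in_mn]
  exact Subtype.ext rfl

/-- restriction to the smallest chart -/
noncomputable def rmc {s : Ch3} (hs : z.In s.i s.j) (n : N.obj (op s)) :
    N.obj (op (mc z s.k)) := rs N (homOfLE (mc_le z hs)).op n

/-- `1 ⊗ m` -/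
noncomputable def on (k : Cov Bool) (m : N.obj (op (mc z k))) : sec ((X.gK z).obj N) k :=
  (X.gK z).one N (op k) m

lemma on_add (k : Cov Bool) (m n : N.obj (op (mc z k))) :
    on X z N k (m + n) = on X z N k m + on X z N k n :=
  bt_add_right ((X.gK z).h (op k)) 1 (M := N.obj ((X.gK z).m.op.obj (op k))) m n

lemma on_smul (hZVC : Stmt_ZVC) (k : Cov Bool) (f : X.A z.z₁.mn z.z₂.mn k)
    (m : N.obj (op (mc z k))) :
    on X z N k ((show X.R.toRing.obj (op (mc z k)) from f) • m) =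
      X.ev z (s := mc z k) z.in_mn f • on X z N k m := by
  rw [← gK_h X z hZVC]
  refine (bt_smul_right ((X.gK z).h (op k)) 1 f (M := N.obj ((X.gK z).m.op.obj (op k))) m).trans ?_
  exact (smul_bt ((X.gK z).h (op k)) ((X.gK z).h (op k) f) 1
    (M := N.obj ((X.gK z).m.op.obj (op k))) m).symm

/-- `n ↦ 1 ⊗ n|` -/
noncomputable def pre0 {s : Ch3} (hs : z.In s.i s.j) (n : N.obj (op s)) :
    sec ((X.gK z).obj N) s.k := on X z N s.k (rmc X z N hs n)

lemma pre0_add {s : Ch3} (hs : z.In s.i s.j) (m n : N.obj (op s)) :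
    pre0 X z N hs (m + n) = pre0 X z N hs m + pre0 X z N hs n := by
  unfold pre0 rmc
  rw [rs_add, on_add]

lemma pre0_smul (hZVC : Stmt_ZVC) {s : Ch3} (hs : z.In s.i s.j) (f : X.A s.i s.j s.k)
    (n : N.obj (op s)) :
    pre0 X z N hs ((show X.R.toRing.obj (op s) from f) • n) = X.ev z hs f • pre0 X z N hs n := by
  have h1 : rmc X z N hs ((show X.R.toRing.obj (op s) from f) • n) =
      (show X.R.toRing.obj (op (mc z s.k)) from Subalgebra.inclusion
        (X.A_mono (mc_le z hs).1 (mc_le z hs).2.1 (mc_le z hs).2.2) f) • rmc X z N hs n :=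
    rs_smul N (homOfLE (mc_le z hs)).op _ n
  unfold pre0
  rw [h1, on_smul X z N hZVC, ev_mc X z hs]

open Classical in
/-- the map on sections -/
noncomputable def pre (s : Ch3) (n : N.obj (op s)) : ConicData.Icar z ((X.gK z).obj N) s :=
  if hs : z.In s.i s.j then ⟨pre0 X z N hs n, fun h => absurd hs h⟩ else 0

lemma pre_in {s : Ch3} (hs : z.In s.i s.j) (n : N.obj (op s)) :
    (pre X z N s n : sec ((X.gK z).obj N) s.k) = pre0 X z N hs n := by
  unfold pre
  rw [dif_pos hs]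

lemma pre_add (s : Ch3) (m n : N.obj (op s)) :
    pre X z N s (m + n) = pre X z N s m + pre X z N s n := by
  apply ConicData.Icar_eq
  intro hs
  rw [AddSubgroup.coe_add, pre_in X z N hs, pre_in X z N hs, pre_in X z N hs, pre0_add]

lemma pre_smul (hZVC : Stmt_ZVC) (s : Ch3) (f : X.A s.i s.j s.k) (n : N.obj (op s)) :
    pre X z N s ((show X.R.toRing.obj (op s) from f) • n) = f • pre X z N s n := by
  apply ConicData.Icar_eq
  intro hs
  rw [X.Icar_smul_coe, pre_in X z N hs, pre_in X z N hs, X.act_of_in z hs,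
    pre0_smul X z N hZVC]

lemma pre_res {s t : Ch3} (h : t ≤ s) (n : N.obj (op s)) :
    pre X z N t (rs N (homOfLE h).op n) =
      ConicData.Ires z ((X.gK z).obj N) h (pre X z N s n) := by
  apply ConicData.Icar_eq
  intro ht
  have hs : z.In s.i s.j := SurfData.Pt.In.mono z h.1 h.2.1 ht
  rw [ConicData.Ires_in z _ h _ ht, pre_in X z N ht, pre_in X z N hs]
  have h1 := (X.gK z).rs_one N (X := op s.k) (Y := op t.k) (homOfLE h.2.2).op
    (rmc X z N hs n)
  refine Eq.trans ?_ h1.symm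
  have h2 : rmc X z N ht (rs N (homOfLE h).op n) =
      rs N ((X.gK z).m.op.map (homOfLE h.2.2).op) (rmc X z N hs n) := by
    unfold rmc
    refine (rs_comp N _ _ n).symm.trans (Eq.trans ?_ (rs_comp N _ _ n))
    rfl
  exact congrArg (fun x => (X.gK z).one N (op t.k) x) h2

/-- functions of `IX` act as zero on `I_z M` -/
lemma icar_IX (hEVK : Stmt_EVK) (M : PMod (Cnc z.u z.v K)) (s : Ch3) (f : X.A s.i s.j s.k)
    (hf : f ∈ X.IX z s) (x : ConicData.Icar z M s) : f • x = 0 := by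
  apply ConicData.Icar_eq
  intro hs
  rw [X.Icar_smul_coe, X.act_of_in z hs, (((hEVK K c₁ c₂ S X z s).1 hs).2 f).2 hf, zero_smul]
  rfl

lemma e₁_mem_IX (s : Ch3) {f : c₁.A s.i} (hf : f ∈ z.z₁.J s.i) : X.dir₁.e s f ∈ X.IX z s :=
  (le_sup_left : _ ≤ X.IX z s) (Ideal.mem_map_of_mem (X.dir₁.e s).toRingHom hf)

lemma e₂_mem_IX (s : Ch3) {f : c₂.A s.j} (hf : f ∈ z.z₂.J s.j) : X.dir₂.e s f ∈ X.IX z s :=
  (le_sup_right : _ ≤ X.IX z s) (Ideal.mem_map_of_mem (X.dir₂.e s).toRingHom hf)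

/-- the quotient -/
noncomputable abbrev N1 : PMod X.R := (quF X.dir₁ z.z₁).obj N
/-- the double quotient -/
noncomputable abbrev N2 : PMod X.R := (quF X.dir₂ z.z₂).obj (N1 X z N)

/-- the target -/
noncomputable abbrev IT : PMod X.R := (X.IF z).obj ((X.fz z).obj N)

/-- the projection -/
noncomputable def pj : N ⟶ N2 X z N := (quπ X.dir₁ z.z₁).app N ≫ (quπ X.dir₂ z.z₂).app (N1 X z N)

lemma pj_surj (Y : Ch3ᵒᵖ) (q : (N2 X z N).obj Y) : ∃ n : N.obj Y, (pj X z N).app Y n = q := by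
  obtain ⟨q1, rfl⟩ := Submodule.Quotient.mk_surjective _ q
  obtain ⟨n, rfl⟩ := Submodule.Quotient.mk_surjective _ q1
  exact ⟨n, rfl⟩

/-- `pre` as a linear map -/
noncomputable def preL (hZVC : Stmt_ZVC) (Y : Ch3ᵒᵖ) :
    N.obj Y →ₗ[X.R.toRing.obj Y] (IT X z N).obj Y where
  toFun n := (show ConicData.Icar z ((X.gK z).obj N) Y.unop from pre X z N Y.unop n)
  map_add' m n := pre_add X z N Y.unop m n
  map_smul' f n := pre_smul X z N hZVC Y.unop f n

lemma preL_apply (hZVC : Stmt_ZVC) (Y : Ch3ᵒᵖ) (n : N.obj Y) :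
    preL X z N hZVC Y n =
      (show ConicData.Icar z ((X.gK z).obj N) Y.unop from pre X z N Y.unop n) := rfl

lemma IT_IX (hEVK : Stmt_EVK) (Y : Ch3ᵒᵖ) (f : X.R.toRing.obj Y)
    (hf : (show X.A Y.unop.i Y.unop.j Y.unop.k from f) ∈ X.IX z Y.unop)
    (x : (IT X z N).obj Y) : f • x = 0 :=
  icar_IX X z hEVK ((X.gK z).obj N) Y.unop f hf x

/-- the map on the first quotient -/
noncomputable def phi1 (hEVK : Stmt_EVK) (hZVC : Stmt_ZVC) (Y : Ch3ᵒᵖ) :
    (N1 X z N).obj Y →ₗ[X.R.toRing.obj Y] (IT X z N).obj Y :=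
  Submodule.liftQ (idSub X.dir₁ z.z₁ N Y) (preL X z N hZVC Y) (by
    rw [idSub_le_iff]
    intro f hf m
    rw [LinearMap.mem_ker, map_smul]
    exact IT_IX X z N hEVK Y _ (e₁_mem_IX X z Y.unop hf) _)

/-- the map on the double quotient -/
noncomputable def phi (hEVK : Stmt_EVK) (hZVC : Stmt_ZVC) (Y : Ch3ᵒᵖ) :
    (N2 X z N).obj Y →ₗ[X.R.toRing.obj Y] (IT X z N).obj Y :=
  Submodule.liftQ (idSub X.dir₂ z.z₂ (N1 X z N) Y) (phi1 X z N hEVK hZVC Y) (by
    rw [idSub_le_iff]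
    intro f hf m
    rw [LinearMap.mem_ker, map_smul]
    exact IT_IX X z N hEVK Y _ (e₂_mem_IX X z Y.unop hf) _)

lemma phi_pj (hEVK : Stmt_EVK) (hZVC : Stmt_ZVC) (Y : Ch3ᵒᵖ) (n : N.obj Y) :
    phi X z N hEVK hZVC Y ((pj X z N).app Y n) = preL X z N hZVC Y n := rfl

lemma N2_el₁ (Y : Ch3ᵒᵖ) {f : c₁.A Y.unop.i} (hf : f ∈ z.z₁.J Y.unop.i)
    (q : (N2 X z N).obj Y) : X.dir₁.el Y f • q = 0 := by
  obtain ⟨n, rfl⟩ := pj_surj X z N Y q
  have h : (X.dir₁.el Y f • n : N.obj Y) ∈ idSub X.dir₁ z.z₁ N Y :=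
    smul_mem_idSub X.dir₁ z.z₁ hf n
  have h1 : ((quπ X.dir₁ z.z₁).app N).app Y (X.dir₁.el Y f • n) = 0 :=
    (Submodule.Quotient.mk_eq_zero _).2 h
  have h2 : (pj X z N).app Y (X.dir₁.el Y f • n) = 0 := by
    change ((quπ X.dir₂ z.z₂).app (N1 X z N)).app Y
      (((quπ X.dir₁ z.z₁).app N).app Y (X.dir₁.el Y f • n)) = 0
    rw [h1]
    exact map_zero (((quπ X.dir₂ z.z₂).app (N1 X z N)).app Y).hom
  rw [← h2]
  exact (map_smul ((pj X z N).app Y).hom _ _).symm

lemma N2_el₂ (Y : Ch3ᵒᵖ) {f : c₂.A Y.unop.j} (hf : f ∈ z.z₂.J Y.unop.j)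
    (q : (N2 X z N).obj Y) : X.dir₂.el Y f • q = 0 := by
  obtain ⟨q1, rfl⟩ := Submodule.Quotient.mk_surjective _ q
  have h : (X.dir₂.el Y f • q1 : (N1 X z N).obj Y) ∈ idSub X.dir₂ z.z₂ (N1 X z N) Y :=
    smul_mem_idSub X.dir₂ z.z₂ hf q1
  exact (Submodule.Quotient.mk_eq_zero _).2 h

/-- the annihilator of the sections of the double quotient -/
noncomputable def An (Y : Ch3ᵒᵖ) : Ideal (X.A Y.unop.i Y.unop.j Y.unop.k) where
  carrier := {f | ∀ q : (N2 X z N).obj Y, (show X.R.toRing.obj Y from f) • q = 0}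
  zero_mem' := fun q => zero_smul (X.R.toRing.obj Y) q
  add_mem' := fun {f g} hf hg q =>
    (add_smul (show X.R.toRing.obj Y from f) (show X.R.toRing.obj Y from g) q).trans (by
      rw [hf q, hg q, add_zero])
  smul_mem' := fun g f hf q =>
    (mul_smul (show X.R.toRing.obj Y from g) (show X.R.toRing.obj Y from f) q).trans (by
      rw [hf q, smul_zero])

lemma N2_IX (Y : Ch3ᵒᵖ) (f : X.R.toRing.obj Y)
    (hf : (show X.A Y.unop.i Y.unop.j Y.unop.k from f) ∈ X.IX z Y.unop)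
    (q : (N2 X z N).obj Y) : f • q = 0 := by
  have h : X.IX z Y.unop ≤ An X z N Y :=
    sup_le (Ideal.map_le_iff_le_comap.2 (fun g hg q => N2_el₁ X z N Y hg q))
      (Ideal.map_le_iff_le_comap.2 (fun g hg q => N2_el₂ X z N Y hg q))
  exact h hf q

lemma pj_mem_IX (Y : Ch3ᵒᵖ) (n : N.obj Y)
    (hn : n ∈ (show Ideal (X.R.toRing.obj Y) from X.IX z Y.unop) •
      (⊤ : Submodule (X.R.toRing.obj Y) (N.obj Y))) : (pj X z N).app Y n = 0 := by
  refine Submodule.smul_induction_on hn ?_ ?_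
  · intro r hr m _
    have h1 : (pj X z N).app Y (r • m) = r • (pj X z N).app Y m :=
      map_smul ((pj X z N).app Y).hom _ _
    rw [h1]
    exact N2_IX X z N Y r hr _
  · intro a b ha hb
    have h1 : (pj X z N).app Y (a + b) = (pj X z N).app Y a + (pj X z N).app Y b :=
      map_add ((pj X z N).app Y).hom _ _
    rw [h1, ha, hb, add_zero]

/-- `key` for coherent modules -/
theorem keyR {K : Type} [CommRing K] {C : Type} [SmallCategory C] {R : PAlg K C} {F : Type}
    [CommRing F] (M : PMod R) {X Y : Cᵒᵖ} (f : X ⟶ Y) (hM : IsCart M f) (ε : R.obj Y →+* F)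
    (hs : Function.Surjective (ε.comp (R.map f).hom.toRingHom)) :
    letI : Module (R.obj Y) (M.obj Y) := inferInstanceAs (Module (R.toRing.obj Y) (M.obj Y))
    (∀ p : BT ε (M.obj Y), ∃ n : M.obj X, bt ε 1 (rs M f n) = p) ∧
      ∀ n : M.obj X, bt ε 1 (rs M f n) = 0 →
        n ∈ (show Ideal (R.toRing.obj X) from
          RingHom.ker (ε.comp (R.map f).hom.toRingHom)) •
          (⊤ : Submodule (R.toRing.obj X) (M.obj X)) := by
  letI : Module (R.obj X) (M.obj X) := inferInstanceAs (Module (R.toRing.obj X) (M.obj X))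
  letI : Module (R.obj Y) (M.obj Y) := inferInstanceAs (Module (R.toRing.obj Y) (M.obj Y))
  exact key (A := R.obj X) (A' := R.obj Y) (F := F) (R.map f).hom.toRingHom ε hs
    (N := M.obj X) (N' := M.obj Y)
    (AddMonoidHom.mk' (rs M f) (rs_add M f)) (fun a n => rs_smul M f a n) hM

lemma gK_comp (hZVC : Stmt_ZVC) {s : Ch3} (hs : z.In s.i s.j) (x : X.A s.i s.j s.k) :
    (X.gK z).h (op s.k) ((X.R.map (homOfLE (mc_le z hs)).op).hom x) = X.ev z hs x :=
  (gK_h X z hZVC s.k _).trans (ev_mc X z hs x)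

lemma gK_surj (hEVK : Stmt_EVK) (hZVC : Stmt_ZVC) {s : Ch3} (hs : z.In s.i s.j) :
    Function.Surjective (((X.gK z).h (op s.k)).comp
      (X.R.map (homOfLE (mc_le z hs)).op).hom.toRingHom) := by
  intro y
  obtain ⟨x, hx⟩ := ((hEVK K c₁ c₂ S X z s).1 hs).1 y
  exact ⟨x, (gK_comp X z hZVC hs x).trans hx⟩

lemma gK_ker (hEVK : Stmt_EVK) (hZVC : Stmt_ZVC) {s : Ch3} (hs : z.In s.i s.j) :
    RingHom.ker (((X.gK z).h (op s.k)).comp
      (X.R.map (homOfLE (mc_le z hs)).op).hom.toRingHom) ≤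
      (show Ideal (X.R.obj (op s)) from X.IX z s) := by
  intro x hx
  refine (((hEVK K c₁ c₂ S X z s).1 hs).2 x).1 ?_
  rw [← gK_comp X z hZVC hs x]
  exact hx

/-- surjectivity on the charts containing the fibre -/
lemma in_surj (hEVK : Stmt_EVK) (hZVC : Stmt_ZVC) (hN : IsCoh X.R N) {s : Ch3}
    (hs : z.In s.i s.j) (p : sec ((X.gK z).obj N) s.k) :
    ∃ n : N.obj (op s), pre0 X z N hs n = p :=
  (keyR (F := (Cnc z.u z.v K).obj (op s.k)) N (homOfLE (mc_le z hs)).op
    (hN.2 (homOfLE (mc_le z hs)).op) ((X.gK z).h (op s.k)) (gK_surj X z hEVK hZVC hs)).1 p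

/-- injectivity on the charts containing the fibre -/
lemma in_inj (hEVK : Stmt_EVK) (hZVC : Stmt_ZVC) (hN : IsCoh X.R N) {s : Ch3}
    (hs : z.In s.i s.j) (n : N.obj (op s)) (hn : pre0 X z N hs n = 0) :
    (pj X z N).app (op s) n = 0 := by
  have h2 := (keyR (F := (Cnc z.u z.v K).obj (op s.k)) N (homOfLE (mc_le z hs)).op
    (hN.2 (homOfLE (mc_le z hs)).op) ((X.gK z).h (op s.k)) (gK_surj X z hEVK hZVC hs)).2 n hn
  exact pj_mem_IX X z N (op s) n (Submodule.smul_mono_left (gK_ker X z hEVK hZVC hs) h2)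

lemma phi_inj (hEVK : Stmt_EVK) (hZVC : Stmt_ZVC) (hN : IsCoh X.R N) (Y : Ch3ᵒᵖ) :
    Function.Injective (phi X z N hEVK hZVC Y) := by
  rw [injective_iff_map_eq_zero]
  intro q hq
  by_cases hs : z.In Y.unop.i Y.unop.j
  · obtain ⟨n, rfl⟩ := pj_surj X z N Y q
    rw [phi_pj] at hq
    have h1 : pre X z N Y.unop n = 0 := hq
    have h2 : pre0 X z N hs n = 0 := by
      rw [← pre_in X z N hs, h1]
      rfl
    exact in_inj X z N hEVK hZVC hN hs n h2
  · have h1 : X.IX z Y.unop = ⊤ := (hEVK K c₁ c₂ S X z Y.unop).2 hs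
    have h2 := N2_IX X z N Y 1 (by
      change (1 : X.A Y.unop.i Y.unop.j Y.unop.k) ∈ X.IX z Y.unop
      rw [h1]
      exact Submodule.mem_top) q
    rwa [one_smul] at h2

lemma phi_surj (hEVK : Stmt_EVK) (hZVC : Stmt_ZVC) (hN : IsCoh X.R N) (Y : Ch3ᵒᵖ) :
    Function.Surjective (phi X z N hEVK hZVC Y) := by
  intro y
  by_cases hs : z.In Y.unop.i Y.unop.j
  · obtain ⟨n, hn⟩ := in_surj X z N hEVK hZVC hN hs
      (show ConicData.Icar z ((X.gK z).obj N) Y.unop from y).1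
    refine ⟨(pj X z N).app Y n, ?_⟩
    rw [phi_pj]
    refine Subtype.ext ?_
    exact (pre_in X z N hs n).trans hn
  · refine ⟨0, ?_⟩
    rw [map_zero]
    refine Subtype.ext ?_
    exact ((show ConicData.Icar z ((X.gK z).obj N) Y.unop from y).2 hs).symm

lemma phi_nat (hEVK : Stmt_EVK) (hZVC : Stmt_ZVC) {Y Y' : Ch3ᵒᵖ} (f : Y ⟶ Y')
    (q : (N2 X z N).obj Y) :
    phi X z N hEVK hZVC Y' (rs (N2 X z N) f q) =
      rs (IT X z N) f (phi X z N hEVK hZVC Y q) := by
  obtain ⟨n, rfl⟩ := pj_surj X z N Y q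
  rw [← rs_nat, phi_pj, phi_pj]
  exact pre_res X z N (leOfHom f.unop) n

end QUI_

theorem qui_proof (hEVK : Stmt_EVK) (hZVC : Stmt_ZVC) : Stmt_QUI := by
  intro K _ c₁ c₂ S X z N hN
  exact ⟨mkIso (M := QUI_.N2 X z N) (N := QUI_.IT X z N)
    (fun Y => LinearEquiv.ofBijective (QUI_.phi X z N hEVK hZVC Y)
      ⟨QUI_.phi_inj X z N hEVK hZVC hN Y, QUI_.phi_surj X z N hEVK hZVC hN Y⟩)
    (fun f q => QUI_.phi_nat X z N hEVK hZVC f q)⟩

end Pool.CRD.FB
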