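import Pool.Agent.CRD.Fib.Stmts

/-!
# CRD / Fib: SGL, the rings of the charts of `S` are noetherian of global dimension at most 2
-/

open CategoryTheory Opposite Limits TensorProduct

namespace Pool.CRD.FB

namespace SGL_

section
variable {A : Type} [CommRing A]

/-- the short exact sequence `0 → ker f → P → M → 0` -/
noncomputable def sK {P M : Type} [AddCommGroup P] [Module A P] [AddCommGroup M] [Module A M]
    (f : P →ₗ[A] M) : ShortComplex (ModuleCat.{0} A) :=
  ShortComplex.mk
    (ModuleCat.ofHom (LinearMap.ker f).subtype : ModuleCat.of A (LinearMap.ker f) ⟶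
      ModuleCat.of A P)
    (ModuleCat.ofHom f : ModuleCat.of A P ⟶ ModuleCat.of A M) (by
      ext x
      exact x.2)

lemma sK_exact {P M : Type} [AddCommGroup P] [Module A P] [AddCommGroup M] [Module A M]
    (f : P →ₗ[A] M) (hf : Function.Surjective f) : (sK f).ShortExact := by
  refine ModuleCat.shortComplex_shortExact _ ?_ ?_ ?_
  · exact LinearMap.exact_subtype_ker_map f
  · exact Submodule.subtype_injective _
  · exact hf

lemma step {P M : Type} [AddCommGroup P] [Module A P] [AddCommGroup M] [Module A M]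
    [Module.Projective A P] (f : P →ₗ[A] M) (hf : Function.Surjective f) (n : ℕ)
    (h : HasProjectiveDimensionLT (ModuleCat.of A (LinearMap.ker f)) (n + 1)) :
    HasProjectiveDimensionLT (ModuleCat.of A M) (n + 2) := by
  have h2 : Projective (sK f).X₂ := (IsProjective.iff_projective _).1 ‹_›
  exact ((sK_exact f hf).hasProjectiveDimensionLT_X₃_iff n h2).2 h

lemma gdim2 [IsNoetherianRing A]
    (h : ∀ (m n : ℕ) (φ : (Fin m → A) →ₗ[A] (Fin n → A)), Module.Projective A (LinearMap.ker φ)) :
    GDim A 2 := by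
  intro M hM
  obtain ⟨n, π, hπ⟩ := Module.Finite.exists_fin' A M
  have : Module.Finite A (LinearMap.ker π) := inferInstance
  obtain ⟨m, ρ, hρ⟩ := Module.Finite.exists_fin' A (LinearMap.ker π)
  have h1 := h m n ((LinearMap.ker π).subtype ∘ₗ ρ)
  have h2 : LinearMap.ker ((LinearMap.ker π).subtype ∘ₗ ρ) = LinearMap.ker ρ :=
    LinearMap.ker_comp_of_ker_eq_bot _ (Submodule.ker_subtype _)
  rw [h2] at h1
  have h3 : Projective (ModuleCat.of A (LinearMap.ker ρ)) := (IsProjective.iff_projective _).1 h1
  have h4 : HasProjectiveDimensionLT (ModuleCat.of A (LinearMap.ker π)) 2 :=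
    step ρ hρ 0 inferInstance
  exact step π hπ 1 h4

end

section
variable {K : Type} [Field K]

theorem finType (c : CurveData K) (t : Cov Bool) : Algebra.FiniteType K (c.A t) := by
  rw [← Subalgebra.fg_iff_finiteType]
  rcases cov_bool_cases t with rfl | rfl | rfl
  · exact c.fg_a
  · exact c.fg_b
  · rw [c.cab_a]
    exact Subalgebra.FG.sup c.fg_a ⟨{c.w⁻¹}, by simp⟩

theorem bij {c₁ c₂ : CurveData K} (S : SurfData c₁ c₂) (i j : Cov Bool) :
    Function.Bijective (Algebra.TensorProduct.productMap (S.f₁ i j) (S.f₂ i j)) := by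
  have h : Algebra.TensorProduct.productMap (S.f₁ i j) (S.f₂ i j) =
      (S.equivT i j).toAlgHom := by
    apply Algebra.TensorProduct.ext'
    intro x y
    apply Subtype.ext
    change _ = ((S.equivT i j (x ⊗ₜ y) : S.A i j) : S.L)
    rw [S.equivT_coe, S.prodT_tmul, Algebra.TensorProduct.productMap_apply_tmul]
    rfl
  rw [h]
  exact (S.equivT i j).bijective

theorem ft {c₁ c₂ : CurveData K} (S : SurfData c₁ c₂) (i j : Cov Bool) :
    Algebra.FiniteType K (S.A i j) := by
  have := finType c₁ i
  have := finType c₂ j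
  have h1 : Algebra.FiniteType (c₁.A i) ((c₁.A i) ⊗[K] (c₂.A j)) := inferInstance
  have h2 : Algebra.FiniteType K ((c₁.A i) ⊗[K] (c₂.A j)) := Algebra.FiniteType.trans ‹_› h1
  exact Algebra.FiniteType.of_surjective
    (Algebra.TensorProduct.productMap (S.f₁ i j) (S.f₂ i j)) (bij S i j).2

end

end SGL_

open SGL_ in
theorem sgl_proof (hPRF : G.Stmt_PRF) : Stmt_SGL := by
  intro K _ _ c₁ c₂ S i j
  have hft := ft S i j
  have hN : IsNoetherianRing (S.A i j) := Algebra.FiniteType.isNoetherianRing K (S.A i j)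
  have := c₁.ded i
  have := c₂.ded j
  have := finType c₁ i
  have := finType c₂ j
  exact ⟨hN, gdim2 (hPRF K (c₁.A i) (c₂.A j) (S.A i j) (S.f₁ i j) (S.f₂ i j) (bij S i j))⟩

end Pool.CRD.FB
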