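import Pool.Agent.CRD.Fib.Stmts

/-!
# CRD / Fib / SKC: the structure sheaf of a point of `S` is coherent and simple
-/

open CategoryTheory Opposite Limits TensorProduct Pretriangulated

namespace Pool.CRD.FB

namespace SKC_

/-- base change of a cyclic module -/
lemma bcq {A B M N : Type} [CommRing A] [CommRing B] [Algebra A B] [AddCommGroup M]
    [AddCommGroup N] [Module A M] [Module B N] [Module A N] [IsScalarTower A B N]
    (m : M →ₗ[A] N) (e : M) (he : ∀ x : M, ∃ a : A, x = a • e)
    (hN : ∀ y : N, ∃ b : B, y = b • m e)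
    (I : Ideal A) (hI : ∀ a ∈ I, a • e = 0)
    (hann : ∀ b : B, b • m e = 0 → b ∈ Ideal.map (algebraMap A B) I) : IsBaseChange B m := by
  rw [isBaseChange_iff_cmp]
  have gen : ∀ x : B ⊗[A] M, ∃ b : B, x = b ⊗ₜ e := by
    intro x
    induction x using TensorProduct.induction_on with
    | zero => exact ⟨0, by rw [TensorProduct.zero_tmul]⟩
    | tmul b y =>
      obtain ⟨a, rfl⟩ := he y
      exact ⟨a • b, by rw [TensorProduct.smul_tmul]⟩
    | add x y hx hy =>
      obtain ⟨b, rfl⟩ := hx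
      obtain ⟨c, rfl⟩ := hy
      exact ⟨b + c, by rw [TensorProduct.add_tmul]⟩
  have zero : ∀ b ∈ Ideal.map (algebraMap A B) I, (b ⊗ₜ[A] e : B ⊗[A] M) = 0 := by
    intro b hb
    refine Submodule.span_induction (p := fun b _ => (b ⊗ₜ[A] e : B ⊗[A] M) = 0)
      ?_ ?_ ?_ ?_ hb
    · rintro _ ⟨a, ha, rfl⟩
      rw [Algebra.algebraMap_eq_smul_one, TensorProduct.smul_tmul, hI a ha,
        TensorProduct.tmul_zero]
    · rw [TensorProduct.zero_tmul]
    · intro x y _ _ hx hy
      rw [TensorProduct.add_tmul, hx, hy, add_zero]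
    · intro c x _ hx
      have h1 : ((c • x) ⊗ₜ[A] e : B ⊗[A] M) = c • (x ⊗ₜ[A] e) := by
        rw [TensorProduct.smul_tmul']
      rw [h1, hx, smul_zero]
  constructor
  · rw [injective_iff_map_eq_zero]
    intro x hx
    obtain ⟨b, rfl⟩ := gen x
    rw [cmp_tmul] at hx
    exact zero b (hann b hx)
  · intro y
    obtain ⟨b, rfl⟩ := hN y
    exact ⟨b ⊗ₜ e, cmp_tmul _ _ _⟩

lemma bc_sub {A B M N : Type} [CommRing A] [CommRing B] [Algebra A B] [AddCommGroup M]
    [AddCommGroup N] [Module A M] [Module B N] [Module A N] [IsScalarTower A B N]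
    (m : M →ₗ[A] N) (h : IsBaseChange B m) (hM : ∀ x : M, x = 0) (y : N) : y = 0 := by
  rw [isBaseChange_iff_cmp] at h
  obtain ⟨x, rfl⟩ := h.2 y
  have : x = 0 := by
    induction x using TensorProduct.induction_on with
    | zero => rfl
    | tmul b y => rw [hM y, TensorProduct.tmul_zero]
    | add x y hx hy => rw [hx, hy, add_zero]
  rw [this, map_zero]

section
variable {K : Type} [CommRing K] {C : Type} [SmallCategory C] {R : PAlg K C}

lemma cart_sub {M : PMod R} {X Y : Cᵒᵖ} (f : X ⟶ Y) (h : IsCart M f)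
    (hM : ∀ x : M.obj X, x = 0) (y : M.obj Y) : y = 0 := by
  letI : Algebra (R.obj X) (R.obj Y) := (R.map f).hom.toRingHom.toAlgebra
  letI : Module (R.obj X) (M.obj X) := inferInstanceAs (Module (R.toRing.obj X) (M.obj X))
  letI : Module (R.obj Y) (M.obj Y) := inferInstanceAs (Module (R.toRing.obj Y) (M.obj Y))
  letI : Module (R.obj X) (M.obj Y) := Module.compHom (M.obj Y) (R.map f).hom.toRingHom
  haveI : IsScalarTower (R.obj X) (R.obj Y) (M.obj Y) :=
    ⟨fun a b c => by rw [Algebra.smul_def, mul_smul]; rfl⟩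
  exact bc_sub _ h hM y

end

variable {K : Type} [Field K] {c₁ c₂ : CurveData K} {S : SurfData c₁ c₂} (z : S.Pt)

lemma IS_map {i j i' j' : Cov Bool} (hi : i' ≤ i) (hj : j' ≤ j) :
    Ideal.map (Subalgebra.inclusion (S.A_mono hi hj)).toRingHom (z.IS i j) = z.IS i' j' := by
  unfold SurfData.Pt.IS
  rw [Ideal.map_sup, Ideal.map_map, Ideal.map_map]
  have e₁ : (Subalgebra.inclusion (S.A_mono hi hj)).toRingHom.comp (S.inc₁ i j).toRingHom =
      (S.inc₁ i' j').toRingHom.comp (c₁.res hi).toRingHom := by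
    ext f; rfl
  have e₂ : (Subalgebra.inclusion (S.A_mono hi hj)).toRingHom.comp (S.inc₂ i j).toRingHom =
      (S.inc₂ i' j').toRingHom.comp (c₂.res hj).toRingHom := by
    ext f; rfl
  rw [e₁, e₂, ← Ideal.map_map, ← Ideal.map_map]
  have h₁ : Ideal.map (c₁.res hi).toRingHom (z.z₁.J i) = z.z₁.J i' := z.z₁.J_map hi
  have h₂ : Ideal.map (c₂.res hj).toRingHom (z.z₂.J j) = z.z₂.J j' := z.z₂.J_map hj
  rw [h₁, h₂]

/-- class of a function in `sky` -/
noncomputable def cl (s : Ch2) (g : S.A s.i s.j) : z.sky.obj (op s) :=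
  Ideal.Quotient.mk (z.IS s.i s.j) g

lemma cl_surj (s : Ch2) (y : z.sky.obj (op s)) : ∃ g, y = cl z s g := by
  obtain ⟨g, hg⟩ := Ideal.Quotient.mk_surjective (I := z.IS s.i s.j) y
  exact ⟨g, hg.symm⟩

lemma cl_zero_iff (s : Ch2) (g : S.A s.i s.j) : cl z s g = 0 ↔ g ∈ z.IS s.i s.j :=
  Ideal.Quotient.eq_zero_iff_mem

lemma smul_cl (s : Ch2) (f g : S.A s.i s.j) :
    (show S.R.toRing.obj (op s) from f) • cl z s g = cl z s (f * g) := rfl

lemma rs_cl {s t : Ch2} (h : t ≤ s) (g : S.A s.i s.j) :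
    rs z.sky (homOfLE h).op (cl z s g) =
      cl z t (Subalgebra.inclusion (S.A_mono h.1 h.2) g) := rfl

lemma evS_incl {i j i' j' : Cov Bool} (hi : i' ≤ i) (hj : j' ≤ j) (hs : z.In i j)
    (ht : z.In i' j') (g : S.A i j) :
    z.evS ht (Subalgebra.inclusion (S.A_mono hi hj) g) = z.evS hs g := by
  have e : Subalgebra.inclusion (z.A_le_O_of_In ht)
      (Subalgebra.inclusion (S.A_mono hi hj) g) =
      Subalgebra.inclusion (z.A_le_O_of_In hs) g := by
    apply Subtype.ext
    rw [Subalgebra.coe_inclusion, Subalgebra.coe_inclusion, Subalgebra.coe_inclusion]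
  exact congrArg z.χO e

lemma isCart {X Y : Ch2ᵒᵖ} (f : X ⟶ Y) : IsCart z.sky f := by
  letI : Algebra (S.R.obj X) (S.R.obj Y) := (S.R.map f).hom.toRingHom.toAlgebra
  letI : Module (S.R.obj X) (z.sky.obj X) :=
    inferInstanceAs (Module (S.R.toRing.obj X) (z.sky.obj X))
  letI : Module (S.R.obj Y) (z.sky.obj Y) :=
    inferInstanceAs (Module (S.R.toRing.obj Y) (z.sky.obj Y))
  letI : Module (S.R.obj X) (z.sky.obj Y) :=
    Module.compHom (z.sky.obj Y) (S.R.map f).hom.toRingHom
  haveI : IsScalarTower (S.R.obj X) (S.R.obj Y) (z.sky.obj Y) :=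
    ⟨fun a b c => by rw [Algebra.smul_def, mul_smul]; rfl⟩
  have hle : Y.unop ≤ X.unop := leOfHom f.unop
  refine bcq (A := S.R.obj X) (B := S.R.obj Y) (M := z.sky.obj X) (N := z.sky.obj Y) _
    (cl z X.unop 1) ?_ ?_ (z.IS X.unop.i X.unop.j) ?_ ?_
  · intro x
    obtain ⟨g, rfl⟩ := cl_surj z X.unop x
    refine ⟨g, ?_⟩
    refine (congrArg (cl z X.unop) (mul_one g)).symm.trans ?_
    exact (smul_cl z X.unop g 1).symm
  · intro y
    obtain ⟨g, rfl⟩ := cl_surj z Y.unop y
    refine ⟨g, ?_⟩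
    refine (congrArg (cl z Y.unop) (mul_one g)).symm.trans ?_
    exact (smul_cl z Y.unop g 1).symm
  · intro a ha
    have h1 : ∀ a : S.A X.unop.i X.unop.j, a ∈ z.IS X.unop.i X.unop.j →
        cl z X.unop (a * 1) = 0 := by
      intro a ha
      rw [mul_one, cl_zero_iff]; exact ha
    exact h1 a ha
  · intro b hb
    have h1 : ∀ b : S.A Y.unop.i Y.unop.j, cl z Y.unop (b * 1) = 0 →
        b ∈ Ideal.map (Subalgebra.inclusion (S.A_mono hle.1 hle.2)).toRingHom
          (z.IS X.unop.i X.unop.j) := by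
      intro b hb
      rw [mul_one, cl_zero_iff] at hb
      rw [IS_map z hle.1 hle.2]
      exact hb
    exact h1 b hb

end SKC_

open SKC_ in
theorem skc_proof (hZVS : Stmt_ZVS) : Stmt_SKC := by
  intro K _ c₁ c₂ S z
  refine ⟨⟨?_, fun f => isCart z f⟩, ?_⟩
  · intro X
    have : Module.Finite (S.A X.unop.i X.unop.j) (S.A X.unop.i X.unop.j ⧸
      z.IS X.unop.i X.unop.j) := inferInstance
    exact this
  · intro _ Q hQ
    obtain ⟨θ⟩ := hQ
    -- facts on `sky`
    have hin : ∀ {i j : Cov Bool} (h : z.In i j) (f : S.A i j),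
        z.evS h f = 0 ↔ f ∈ z.IS i j := fun {i j} h f => (hZVS K c₁ c₂ S z i j).1 h f
    have hout : ∀ s : Ch2, ¬ z.In s.i s.j → ∀ y : z.sky.obj (op s), y = 0 := by
      intro s hs y
      obtain ⟨g, rfl⟩ := cl_surj z s y
      rw [cl_zero_iff, (hZVS K c₁ c₂ S z s.i s.j).2 hs]
      trivial
    have hB : ∀ s : Ch2, z.In s.i s.j → ∀ y : z.sky.obj (op s), y ≠ 0 →
        ∀ y' : z.sky.obj (op s), ∃ b : S.R.toRing.obj (op s), y' = b • y := by
      intro s hs y hy y'
      obtain ⟨g, rfl⟩ := cl_surj z s y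
      obtain ⟨g', rfl⟩ := cl_surj z s y'
      have hg : z.evS hs g ≠ 0 := by
        intro h0
        exact hy ((cl_zero_iff z s g).2 ((hin hs g).1 h0))
      refine ⟨(show S.A s.i s.j from algebraMap K _ (z.evS hs g' / z.evS hs g)), ?_⟩
      refine Eq.trans ?_ (smul_cl z s _ g).symm
      have h1 : g' - algebraMap K (S.A s.i s.j) (z.evS hs g' / z.evS hs g) * g ∈
          z.IS s.i s.j := by
        rw [← hin hs, map_sub, map_mul, AlgHom.commutes]
        change z.evS hs g' - z.evS hs g' / z.evS hs g * z.evS hs g = 0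
        rw [div_mul_cancel₀ _ hg, sub_self]
      exact Ideal.Quotient.eq.2 h1
    have hC : ∀ {s t : Ch2} (h : t ≤ s), z.In t.i t.j → ∀ y : z.sky.obj (op s),
        rs z.sky (homOfLE h).op y = 0 → y = 0 := by
      intro s t h ht y hy
      obtain ⟨g, rfl⟩ := cl_surj z s y
      have hy1 := (cl_zero_iff z t _).1 ((rs_cl z h g).symm.trans hy)
      have hy2 := (hin ht _).2 hy1
      have hs : z.In s.i s.j := SurfData.Pt.In.mono z h.1 h.2 ht
      rw [evS_incl z h.1 h.2 hs ht] at hy2
      exact (cl_zero_iff z s g).2 ((hin hs g).1 hy2)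
    let m : Ch2 := ⟨z.z₁.mn, z.z₂.mn⟩
    have hm : z.In m.i m.j := z.in_mn
    have hmle : ∀ s : Ch2, z.In s.i s.j → m ≤ s := fun s hs =>
      ⟨((z.in_iff _ _).1 hs).1, ((z.in_iff _ _).1 hs).2⟩
    have h1ne : cl z m 1 ≠ 0 := by
      rw [Ne, cl_zero_iff, ← hin hm, map_one]
      exact one_ne_zero
    have θinv : ∀ X (y : z.sky.obj X), θ.hom.app X (θ.inv.app X y) = y := by
      intro X y
      exact congr(($(θ.inv_hom_id)).app X y)
    have θinj : ∀ X (y : Q.obj.obj X), θ.hom.app X y = 0 → y = 0 := by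
      intro X y hy
      have h1 : θ.inv.app X (θ.hom.app X y) = y := congr(($(θ.hom_inv_id)).app X y)
      rw [← h1, hy]
      exact map_zero (θ.inv.app X).hom
    refine ⟨?_⟩
    intro N f hf
    have finj := (coh_mono_iff f).1 hf
    have finj0 : ∀ X (x : N.obj.obj X), f.hom.app X x = 0 → x = 0 := by
      intro X x hx
      apply finj X
      exact hx.trans (map_zero (f.hom.app X).hom).symm
    have fz : ∀ X, f.hom.app X 0 = 0 := fun X => map_zero (f.hom.app X).hom
    have θz : ∀ X, θ.hom.app X 0 = 0 := fun X => map_zero (θ.hom.app X).hom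
    constructor
    · intro hiso h0
      have hb := (Cn.coh_isIso_iff f).1 hiso (op m)
      obtain ⟨x, hx⟩ := hb.2 (θ.inv.app (op m) (cl z m 1))
      have h2 : f.hom.app (op m) x = 0 := by
        have : f.hom = 0 := by rw [h0]; rfl
        rw [this]
        rfl
      have h3 : θ.inv.app (op m) (cl z m 1) = 0 := hx.symm.trans h2
      apply h1ne
      rw [← θinv (op m) (cl z m 1), h3]
      exact θz (op m)
    · intro hne
      rw [Cn.coh_isIso_iff]
      -- a nonzero value
      have hex : ∃ (X : Ch2ᵒᵖ) (x : N.obj.obj X), f.hom.app X x ≠ 0 := by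
        by_contra hcon
        push Not at hcon
        apply hne
        apply (IsCoh S.R).ι.map_injective
        rw [CategoryTheory.Functor.map_zero]
        apply pmod_ext
        intro X x
        exact hcon X x
      obtain ⟨Y, x₀, hx₀⟩ := hex
      have hY : z.In Y.unop.i Y.unop.j := by
        by_contra hY
        exact hx₀ (θinj _ _ (hout Y.unop hY _))
      have hxm : rs N.obj (homOfLE (hmle _ hY)).op x₀ ≠ 0 := by
        intro h0
        apply hx₀
        apply θinj
        apply hC (hmle _ hY) hm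
        have e1 := rs_nat θ.hom (homOfLE (hmle _ hY)).op (f.hom.app Y x₀)
        have e2 := rs_nat f.hom (homOfLE (hmle _ hY)).op x₀
        rw [h0] at e2
        rw [← e2] at e1
        rw [← e1]
        exact (congrArg _ (fz _)).trans (θz _)
      intro X
      refine ⟨finj X, ?_⟩
      by_cases hX : z.In X.unop.i X.unop.j
      · have hx : ∃ x : N.obj.obj X, x ≠ 0 := by
          by_contra hcon
          push Not at hcon
          apply hxm
          exact cart_sub (M := N.obj) (homOfLE (hmle _ hX)).op (N.property.2 _) hcon _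
        obtain ⟨x, hx⟩ := hx
        have hfx : θ.hom.app X (f.hom.app X x) ≠ 0 := by
          intro h0
          exact hx (finj0 X x (θinj X _ h0))
        intro y
        obtain ⟨b, hb⟩ := hB X.unop hX _ hfx (θ.hom.app X y)
        refine ⟨b • x, ?_⟩
        have e1 : f.hom.app X (b • x) = b • f.hom.app X x := map_smul (f.hom.app X).hom b x
        have e2 : θ.hom.app X (b • f.hom.app X x) = b • θ.hom.app X (f.hom.app X x) :=
          map_smul (θ.hom.app X).hom b _
        have e3 : θ.hom.app X (f.hom.app X (b • x)) = θ.hom.app X y := by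
          rw [e1, e2]
          exact hb.symm
        have e4 : θ.hom.app X (f.hom.app X (b • x) - y) = 0 := by
          have := map_sub (θ.hom.app X).hom (f.hom.app X (b • x)) y
          refine this.trans ?_
          exact sub_eq_zero.2 e3
        exact sub_eq_zero.1 (θinj X _ e4)
      · intro y
        refine ⟨0, ?_⟩
        rw [θinj X y (hout X.unop hX _)]
        exact fz X

end Pool.CRD.FB
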