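import Pool.Agent.CRD.Fib.Stmts
import Pool.Agent.CRD.G.DefsE

/-!
# CRD / Fib, module SKP: `I_z O(j) = p^*(k(z)) ⊗ w^{-j}`
-/

set_option autoImplicit false

open CategoryTheory Opposite Limits TensorProduct Pretriangulated

namespace Pool.CRD.FB

namespace SKP_

/-- the value of a cocycle on an arrow, as a homomorphism -/
def uHom {K : Type} [CommRing K] {C : Type} [SmallCategory C] {R : PAlg K C} {X Y : Cᵒᵖ}
    (f : X ⟶ Y) : UCoc R →* (R.obj Y)ˣ where
  toFun c := c.u f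
  map_one' := rfl
  map_mul' _ _ := rfl

theorem u_zpow {K : Type} [CommRing K] {C : Type} [SmallCategory C] {R : PAlg K C} {X Y : Cᵒᵖ}
    (f : X ⟶ Y) (c : UCoc R) (j : ℤ) : (c ^ j).u f = (c.u f) ^ j := map_zpow (uHom f) c j

section con
variable {K : Type} [Field K] (a b : Kˣ)

/-- `T` as a unit of the total ring of the conic -/
noncomputable def TC : (ConT a b)ˣ :=
  Units.map (algebraMap (LaurentPolynomial K) (ConT a b) : LaurentPolynomial K →* ConT a b)
    { val := LaurentPolynomial.T 1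
      inv := LaurentPolynomial.T (-1)
      val_inv := by rw [← LaurentPolynomial.T_add]; exact LaurentPolynomial.T_zero
      inv_val := by rw [← LaurentPolynomial.T_add]; exact LaurentPolynomial.T_zero }

theorem TC_zpow (n : ℤ) : ((TC a b ^ n : (ConT a b)ˣ) : ConT a b) =
    algebraMap (LaurentPolynomial K) (ConT a b) (LaurentPolynomial.T n) := by
  rw [TC, ← map_zpow, Units.coe_map, T_unit_zpow]
  rfl

/-- constants as units of the total ring of the conic -/
noncomputable def AC : Kˣ →* (ConT a b)ˣ := Units.map (algebraMap K (ConT a b) : K →* ConT a b)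

theorem single_eq (n : ℤ) (c : Kˣ) :
    (⟨AddMonoidAlgebra.single n (c : K), 0⟩ : ConT a b) =
      ((TC a b ^ n * AC a b c : (ConT a b)ˣ) : ConT a b) := by
  rw [Units.val_mul, TC_zpow]
  change _ = algebraMap (LaurentPolynomial K) (ConT a b) (LaurentPolynomial.T n) *
    algebraMap K (ConT a b) c
  have h1 : algebraMap K (ConT a b) (c : K) =
      algebraMap (LaurentPolynomial K) (ConT a b) (LaurentPolynomial.C (c : K)) := rfl
  rw [h1, ← map_mul, mul_comm, ← LaurentPolynomial.single_eq_C_mul_T]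
  rfl

end con

variable {K : Type} [Field K] {c₁ c₂ : CurveData K} {S : SurfData c₁ c₂} (X : ConicData S)
  (z : S.Pt)

/-- the unit `(h₁ i/h₁ t)^pe` of the local ring -/
noncomputable def kO {s : Ch3} (hs : z.In s.i s.j) : z.Oˣ := z.κO hs ^ pe s.k

/-- its value -/
noncomputable def kK {s : Ch3} (hs : z.In s.i s.j) : Kˣ :=
  Units.map (z.χO.toRingHom : z.O →* K) (kO z hs)

theorem wgen_eq {s : Ch3} (hs : z.In s.i s.j) : X.wgen s =
    algebraMap S.L X.E ((kO z hs : z.O) : S.L) * X.eta z.z₁.t ^ pe s.k := by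
  classical
  unfold ConicData.wgen kO pe
  by_cases h : false ∈ s.k.s
  · rw [if_pos h, if_pos h, zpow_zero, zpow_zero]
    simp
  · rw [if_neg h, if_neg h, zpow_one, zpow_one]
    have n1 := S.h₁_ne s.i
    have n2 := S.h₁_ne z.z₁.t
    have h1 : ((z.κO hs : z.O) : S.L) = S.h₁ s.i / S.h₁ z.z₁.t := rfl
    rw [h1]
    unfold ConicData.eta
    rw [← mul_assoc, ← map_mul]
    congr 2
    field_simp

theorem evE_single (n : ℤ) (r : z.O) :
    X.evE z (algebraMap S.L X.E (r : S.L) * X.eta z.z₁.t ^ n) =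
      ⟨AddMonoidAlgebra.single n (z.χO r), 0⟩ := by
  rw [← X.toEO_re z n r, X.evE_toEO]
  apply QuadraticAlgebra.ext
  · rw [conMap_re, lauMap_single, one_zpow, Units.val_one, mul_one]
    rfl
  · rw [conMap_im]
    change LaurentPolynomial.C _ * lauMap _ _ 0 = 0
    rw [map_zero, mul_zero]

theorem evE_wgen {s t : Ch3} (hs : z.In s.i s.j) (ht : z.In t.i t.j) :
    X.evE z (X.wgen s / X.wgen t) =
      ((TC z.u z.v ^ (pe s.k - pe t.k) * AC z.u z.v (kK z hs * (kK z ht)⁻¹) :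
        (ConT z.u z.v)ˣ) : ConT z.u z.v) := by
  have h1 : X.wgen s / X.wgen t = algebraMap S.L X.E (((kO z hs * (kO z ht)⁻¹ : z.Oˣ) : z.O) : S.L) *
      X.eta z.z₁.t ^ (pe s.k - pe t.k) := by
    rw [wgen_eq X z hs, wgen_eq X z ht]
    have h2 : ((((kO z ht)⁻¹ : z.Oˣ) : z.O) : S.L) = ((kO z ht : z.O) : S.L)⁻¹ := by
      apply eq_inv_of_mul_eq_one_left
      have h3 : (((kO z ht)⁻¹ : z.Oˣ) : z.O) * (kO z ht : z.O) = 1 := Units.inv_mul _
      exact congrArg Subtype.val h3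
    have h3 : (((kO z hs * (kO z ht)⁻¹ : z.Oˣ) : z.O) : S.L) =
        ((kO z hs : z.O) : S.L) * ((kO z ht : z.O) : S.L)⁻¹ := by
      rw [← h2]; rfl
    rw [h3, map_mul, map_inv₀, zpow_sub₀ (X.eta_ne _)]
    rw [div_eq_mul_inv, div_eq_mul_inv, mul_inv]
    ring
  rw [h1, evE_single]
  have h4 : z.χO ((kO z hs * (kO z ht)⁻¹ : z.Oˣ) : z.O) =
      ((kK z hs * (kK z ht)⁻¹ : Kˣ) : K) := by
    unfold kK
    rw [← map_inv, ← map_mul]
    rfl
  rw [h4]
  exact single_eq z.u z.v _ _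

/-- the cocycle of `w^{-j}` -/
noncomputable def wv (j : ℤ) {s t : Ch3} (h : t ≤ s) : X.A t.i t.j t.k :=
  (X.wi ^ j).v (homOfLE h).op

/-- the value of the cocycle of `w^{-j}` on the fibre over `z` -/
theorem ev_wi (j : ℤ) {s t : Ch3} (h : t ≤ s) (hs : z.In s.i s.j) (ht : z.In t.i t.j) :
    X.evE z (wv X j h : X.E) * algebraMap K (ConT z.u z.v) ((kK z ht ^ j : Kˣ) : K) =
      algebraMap (LaurentPolynomial K) (ConT z.u z.v)
        (LaurentPolynomial.T (j * (pe s.k - pe t.k))) *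
        algebraMap K (ConT z.u z.v) ((kK z hs ^ j : Kˣ) : K) := by
  let E : X.A t.i t.j t.k →* ConT z.u z.v :=
    ((conSub z.u z.v K t.k).val.comp (X.ev z ht) : X.A t.i t.j t.k →ₐ[K] ConT z.u z.v)
  let w : (X.A t.i t.j t.k)ˣ := X.wi.u (homOfLE h).op
  have h1 : Units.map E w = TC z.u z.v ^ (pe s.k - pe t.k) *
      AC z.u z.v (kK z hs * (kK z ht)⁻¹) := by
    apply Units.ext
    exact evE_wgen X z hs ht
  have h2 : Units.map E (w ^ j) = TC z.u z.v ^ (j * (pe s.k - pe t.k)) *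
      AC z.u z.v (kK z hs ^ j * (kK z ht ^ j)⁻¹) := by
    rw [map_zpow, h1, mul_zpow, ← zpow_mul, ← map_zpow, mul_zpow, inv_zpow, mul_comm j]
  have h3 : Units.map E (w ^ j) * AC z.u z.v (kK z ht ^ j) =
      TC z.u z.v ^ (j * (pe s.k - pe t.k)) * AC z.u z.v (kK z hs ^ j) := by
    rw [h2, mul_assoc, ← map_mul, inv_mul_cancel_right]
  have h4 := congrArg Units.val h3
  rw [Units.val_mul, Units.val_mul, TC_zpow] at h4
  have h5 : (X.wi ^ j).u (homOfLE h).op = (X.wi.u (homOfLE h).op) ^ j := u_zpow _ _ _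
  have h6 : wv X j h = ((w ^ j : (X.A t.i t.j t.k)ˣ) : X.A t.i t.j t.k) :=
    congrArg Units.val h5
  rw [h6]
  exact h4

/-- the generator of `I_z O(j)` on the chart `s` -/
noncomputable def es (j : ℤ) (s : Ch3) : ConicData.Icar z (OO z.u z.v K j) s := by
  classical
  exact if hs : z.In s.i s.j then
    ⟨(algebraMap K (conSub z.u z.v K s.k) ((kK z hs ^ j : Kˣ) : K) : conSub z.u z.v K s.k),
      fun h => absurd hs h⟩ else 0

theorem es_in (j : ℤ) {s : Ch3} (hs : z.In s.i s.j) :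
    ((es z j s : ConicData.Icar z (OO z.u z.v K j) s) : sec (OO z.u z.v K j) s.k) =
      (algebraMap K (conSub z.u z.v K s.k) ((kK z hs ^ j : Kˣ) : K) :
        conSub z.u z.v K s.k) := by
  unfold es
  rw [dif_pos hs]

/-- value of a section of `O(j)` in the total ring -/
noncomputable def vl {j : ℤ} {k : Cov Bool} (x : sec (OO z.u z.v K j) k) : ConT z.u z.v :=
  ((show conSub z.u z.v K k from x) : ConT z.u z.v)

theorem vl_inj {j : ℤ} {k : Cov Bool} {x y : sec (OO z.u z.v K j) k} (h : vl z x = vl z y) :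
    x = y := Subtype.ext h

theorem vl_smul {j : ℤ} {k : Cov Bool} (r : conSub z.u z.v K k) (x : sec (OO z.u z.v K j) k) :
    vl z (r • x) = (r : ConT z.u z.v) * vl z x := rfl

theorem vl_rsC {j : ℤ} {k l : Cov Bool} (h : l ≤ k) (x : sec (OO z.u z.v K j) k) :
    vl z (rsC (OO z.u z.v K j) h x) =
      algebraMap (LaurentPolynomial K) (ConT z.u z.v)
        (LaurentPolynomial.T (j * (pe k - pe l))) * vl z x := rfl

theorem Ires_es (j : ℤ) {s t : Ch3} (h : t ≤ s) :
    ConicData.Ires z (OO z.u z.v K j) h (es z j s) = wv X j h • es z j t := by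
  apply ConicData.Icar_eq
  intro ht
  have hs : z.In s.i s.j := SurfData.Pt.In.mono z h.1 h.2.1 ht
  rw [ConicData.Ires_in z _ _ _ ht, ConicData.Icar_smul_coe, X.act_of_in z ht, es_in z j hs,
    es_in z j ht]
  apply vl_inj
  rw [vl_rsC, vl_smul]
  exact (ev_wi X z j h hs ht).symm

section evk
variable (hIX : ∀ s : Ch3, (∀ hs : z.In s.i s.j, Function.Surjective (X.ev z hs) ∧
      ∀ f : X.A s.i s.j s.k, X.ev z hs f = 0 ↔ f ∈ X.IX z s) ∧
    (¬ z.In s.i s.j → X.IX z s = ⊤))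
include hIX

theorem smul_es (j : ℤ) (s : Ch3) (f : X.A s.i s.j s.k) :
    f • es z j s = 0 ↔ f ∈ X.IX z s := by
  by_cases hs : z.In s.i s.j
  · rw [← ((hIX s).1 hs).2 f]
    constructor
    · intro h
      have h1 : X.act z s f • ((es z j s : ConicData.Icar z (OO z.u z.v K j) s) :
          sec (OO z.u z.v K j) s.k) = 0 := congrArg Subtype.val h
      rw [X.act_of_in z hs, es_in z j hs] at h1
      have h2 : X.ev z hs f * algebraMap K (conSub z.u z.v K s.k) ((kK z hs ^ j : Kˣ) : K) = 0 :=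
        h1
      have h3 : IsUnit (algebraMap K (conSub z.u z.v K s.k) ((kK z hs ^ j : Kˣ) : K)) :=
        (Units.isUnit _).map _
      exact (h3.mul_left_eq_zero).1 h2
    · intro h
      apply ConicData.Icar_eq
      intro _
      rw [ConicData.Icar_smul_coe, X.act_of_in z hs, h, zero_smul]
      rfl
  · rw [(hIX s).2 hs]
    constructor
    · intro _
      exact Submodule.mem_top
    · intro _
      apply ConicData.Icar_eq
      intro h
      exact absurd h hs

omit hIX in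
theorem prA_IS (s : Ch3) (x : S.A s.i s.j) (hx : x ∈ z.IS s.i s.j) : X.prA s x ∈ X.IX z s := by
  have h1 : z.IS s.i s.j ≤ Ideal.comap (X.prA s).toRingHom (X.IX z s) := by
    unfold SurfData.Pt.IS
    refine sup_le ?_ ?_
    · rw [Ideal.map_le_iff_le_comap]
      intro g hg
      exact (le_sup_left : _ ≤ Ideal.map (X.dir₁.e s).toRingHom (z.z₁.J s.i) ⊔ _)
        (Ideal.mem_map_of_mem (X.dir₁.e s).toRingHom hg)
    · rw [Ideal.map_le_iff_le_comap]
      intro g hg
      exact (le_sup_right : _ ≤ _ ⊔ Ideal.map (X.dir₂.e s).toRingHom (z.z₂.J s.j))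
        (Ideal.mem_map_of_mem (X.dir₂.e s).toRingHom hg)
  exact h1 hx

/-- the additive map on the residue ring -/
noncomputable def gg (j : ℤ) (s : Ch3) :
    (S.A s.i s.j ⧸ z.IS s.i s.j) →+ ConicData.Icar z (OO z.u z.v K j) s :=
  QuotientAddGroup.lift _
    { toFun := fun x : S.A s.i s.j => X.prA s x • es z j s
      map_zero' := by rw [map_zero, zero_smul]
      map_add' := fun x y => by rw [map_add, add_smul] }
    (fun x hx => (smul_es X z hIX j s _).2 (prA_IS X z s x hx))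

theorem gg_mk (j : ℤ) (s : Ch3) (x : S.A s.i s.j) :
    gg X z hIX j s (Ideal.Quotient.mk _ x) = X.prA s x • es z j s := rfl

/-- the map on the chart `s` -/
noncomputable def phi (j : ℤ) (s : Ch3) :
    BT (X.prA s).toRingHom (S.A s.i s.j ⧸ z.IS s.i s.j) →ₗ[X.A s.i s.j s.k]
      ConicData.Icar z (OO z.u z.v K j) s :=
  BTlift (X.prA s).toRingHom (gg X z hIX j s) (fun a m => by
    obtain ⟨x, rfl⟩ := Ideal.Quotient.mk_surjective m
    change gg X z hIX j s (Ideal.Quotient.mk _ (a * x)) = X.prA s a • _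
    rw [gg_mk, gg_mk, map_mul, mul_smul])

theorem phi_bt (j : ℤ) (s : Ch3) (r : X.A s.i s.j s.k) :
    phi X z hIX j s (bt _ r (Ideal.Quotient.mk _ 1)) = r • es z j s := by
  have h1 : phi X z hIX j s (bt _ r (Ideal.Quotient.mk _ 1)) =
    r • gg X z hIX j s (Ideal.Quotient.mk _ 1) := rfl
  rw [h1, gg_mk, map_one, one_smul]

omit hIX in
theorem exists_bt (s : Ch3) (x : BT (X.prA s).toRingHom (S.A s.i s.j ⧸ z.IS s.i s.j)) :
    ∃ r : X.A s.i s.j s.k, x = bt _ r (Ideal.Quotient.mk _ 1) := by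
  refine bt_induction _ (P := fun x => ∃ r : X.A s.i s.j s.k,
    x = bt _ r (Ideal.Quotient.mk _ 1)) ?_ ?_ ?_ x
  · refine ⟨0, ?_⟩
    have h := smul_bt (X.prA s).toRingHom (0 : X.A s.i s.j s.k) 0
      (Ideal.Quotient.mk (z.IS s.i s.j) 1)
    rw [zero_smul, zero_mul] at h
    exact h
  · intro b m
    obtain ⟨y, rfl⟩ := Ideal.Quotient.mk_surjective m
    refine ⟨(X.prA s).toRingHom y * b, ?_⟩
    rw [← bt_smul_right]
    congr 1
    change Ideal.Quotient.mk _ y = Ideal.Quotient.mk _ (y * 1)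
    rw [mul_one]
  · rintro x y ⟨r, rfl⟩ ⟨r', rfl⟩
    exact ⟨r + r', (bt_add_left _ _ _ _).symm⟩

omit hIX in
theorem dir1_eq (s : Ch3) (g : c₁.A s.i) : X.dir₁.e s g = X.prA s (S.inc₁ s.i s.j g) :=
  Subtype.ext rfl

omit hIX in
theorem dir2_eq (s : Ch3) (g : c₂.A s.j) : X.dir₂.e s g = X.prA s (S.inc₂ s.i s.j g) :=
  Subtype.ext rfl

omit hIX in
theorem bt_IX (s : Ch3) (f : X.A s.i s.j s.k) (hf : f ∈ X.IX z s) :
    (bt (X.prA s).toRingHom f (Ideal.Quotient.mk (z.IS s.i s.j) 1)) = 0 := by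
  let L : X.A s.i s.j s.k →ₗ[X.A s.i s.j s.k]
      BT (X.prA s).toRingHom (S.A s.i s.j ⧸ z.IS s.i s.j) :=
    LinearMap.toSpanSingleton _ _ (bt (X.prA s).toRingHom 1 (Ideal.Quotient.mk (z.IS s.i s.j) 1))
  have hL : ∀ f, L f = bt (X.prA s).toRingHom f (Ideal.Quotient.mk (z.IS s.i s.j) 1) := by
    intro f
    change f • bt (X.prA s).toRingHom 1 (Ideal.Quotient.mk (z.IS s.i s.j) 1) = _
    rw [smul_bt, mul_one]
  have hkey : ∀ x ∈ z.IS s.i s.j, L (X.prA s x) = 0 := by
    intro x hx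
    rw [hL]
    have h1 := bt_smul_right (X.prA s).toRingHom 1 x (Ideal.Quotient.mk (z.IS s.i s.j) 1)
    rw [mul_one] at h1
    have h2 : (x • (Ideal.Quotient.mk (z.IS s.i s.j) 1 : S.A s.i s.j ⧸ z.IS s.i s.j)) = 0 := by
      change Ideal.Quotient.mk (z.IS s.i s.j) (x * 1) = 0
      rw [mul_one]
      exact Ideal.Quotient.eq_zero_iff_mem.2 hx
    rw [h2] at h1
    refine h1.symm.trans ?_
    have h3 := bt_add_right (X.prA s).toRingHom 1 (0 : S.A s.i s.j ⧸ z.IS s.i s.j) 0
    rw [add_zero] at h3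
    exact left_eq_add.1 h3
  have hle : X.IX z s ≤ LinearMap.ker L := by
    unfold ConicData.IX
    refine sup_le ?_ ?_
    · refine Ideal.span_le.2 ?_
      rintro _ ⟨g, hg, rfl⟩
      have h1 : (X.dir₁.e s).toRingHom g = X.prA s (S.inc₁ s.i s.j g) := dir1_eq X s g
      have h2 : S.inc₁ s.i s.j g ∈ z.IS s.i s.j := by
        unfold SurfData.Pt.IS
        exact Submodule.mem_sup_left (Ideal.mem_map_of_mem (S.inc₁ s.i s.j).toRingHom hg)
      have h3 := hkey _ h2
      rw [← h1] at h3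
      exact LinearMap.mem_ker.2 h3
    · refine Ideal.span_le.2 ?_
      rintro _ ⟨g, hg, rfl⟩
      have h1 : (X.dir₂.e s).toRingHom g = X.prA s (S.inc₂ s.i s.j g) := dir2_eq X s g
      have h2 : S.inc₂ s.i s.j g ∈ z.IS s.i s.j := by
        unfold SurfData.Pt.IS
        exact Submodule.mem_sup_right (Ideal.mem_map_of_mem (S.inc₂ s.i s.j).toRingHom hg)
      have h3 := hkey _ h2
      rw [← h1] at h3
      exact LinearMap.mem_ker.2 h3
  rw [← hL]
  exact hle hf

theorem phi_bij (j : ℤ) (s : Ch3) : Function.Bijective (phi X z hIX j s) := by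
  constructor
  · rw [injective_iff_map_eq_zero]
    intro x hx
    obtain ⟨r, rfl⟩ := exists_bt X z s x
    rw [phi_bt, smul_es X z hIX] at hx
    exact bt_IX X z s r hx
  · intro m
    by_cases hs : z.In s.i s.j
    · obtain ⟨r, hr⟩ := ((hIX s).1 hs).1
        ((algebraMap K (conSub z.u z.v K s.k) (((kK z hs ^ j)⁻¹ : Kˣ) : K)) *
          (show conSub z.u z.v K s.k from (m : sec (OO z.u z.v K j) s.k)))
      refine ⟨bt _ r (Ideal.Quotient.mk _ 1), ?_⟩
      rw [phi_bt]
      apply ConicData.Icar_eq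
      intro _
      rw [ConicData.Icar_smul_coe, X.act_of_in z hs, es_in z j hs, hr]
      change (algebraMap K (conSub z.u z.v K s.k) (((kK z hs ^ j)⁻¹ : Kˣ) : K)) *
          (show conSub z.u z.v K s.k from (m : sec (OO z.u z.v K j) s.k)) *
          (algebraMap K (conSub z.u z.v K s.k) ((kK z hs ^ j : Kˣ) : K)) =
          (show conSub z.u z.v K s.k from (m : sec (OO z.u z.v K j) s.k))
      rw [mul_right_comm, ← map_mul, Units.inv_mul, map_one, one_mul]
    · refine ⟨0, ?_⟩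
      apply ConicData.Icar_eq
      intro h
      exact absurd h hs

end evk

end SKP_

open SKP_ in
theorem skp_proof (hEVK : Stmt_EVK) : Stmt_SKP := by
  intro K _ c₁ c₂ S X z j
  have hIX := hEVK K c₁ c₂ S X z
  refine ⟨Iso.symm (mkIso (M := (X.Phi j).obj z.sky) (N := (X.IF z).obj (OO z.u z.v K j))
    (fun Y => LinearEquiv.ofBijective (phi X z hIX j Y.unop) (phi_bij X z hIX j Y.unop)) ?_)⟩
  intro Y Y' f x
  obtain ⟨r, rfl⟩ := exists_bt X z Y.unop x
  change phi X z hIX j Y'.unop (wv X j (leOfHom f.unop) • bt (X.prA Y'.unop).toRingHom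
    (Subalgebra.inclusion (X.A_mono (leOfHom f.unop).1 (leOfHom f.unop).2.1
      (leOfHom f.unop).2.2) r) (Ideal.Quotient.mk _ 1)) =
    ConicData.Ires z (OO z.u z.v K j) (leOfHom f.unop) (phi X z hIX j Y.unop
      (bt (X.prA Y.unop).toRingHom r (Ideal.Quotient.mk _ 1)))
  rw [map_smul, phi_bt, phi_bt, X.Ires_smul, Ires_es X, smul_smul, smul_smul, mul_comm]

end Pool.CRD.FB
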