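import Pool.Agent.CRD.Fib.Stmts

/-!
# CRD, area FB, module SLO: the restriction maps of `S` are localisations
-/

set_option autoImplicit false

open CategoryTheory Opposite Limits TensorProduct Pretriangulated

namespace Pool.CRD.FB

namespace SLO_

theorem away {K E : Type} [Field K] [Field E] [Algebra K E] {A A' : Subalgebra K E} (h : A ≤ A')
    (v : A) (hv0 : (v : E) ≠ 0) (hvi : (v : E)⁻¹ ∈ A')
    (hl : ∀ z ∈ A', ∃ n : ℕ, (v : E) ^ n * z ∈ A) :
    letI := (Subalgebra.inclusion h).toRingHom.toAlgebra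
    IsLocalization.Away v A' := by
  let := (Subalgebra.inclusion h).toRingHom.toAlgebra
  refine { map_units := ?_, surj := ?_, exists_of_eq := ?_ }
  · rintro ⟨_, n, rfl⟩
    refine IsUnit.of_mul_eq_one ⟨((v : E)⁻¹) ^ n, pow_mem hvi n⟩ ?_
    apply Subtype.ext
    change (v : E) ^ n * (v : E)⁻¹ ^ n = 1
    rw [← mul_pow, mul_inv_cancel₀ hv0, one_pow]
  · intro f
    obtain ⟨n, hn⟩ := hl f f.2
    refine ⟨(⟨_, hn⟩, ⟨v ^ n, n, rfl⟩), ?_⟩
    apply Subtype.ext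
    change (f : E) * (v : E) ^ n = (v : E) ^ n * f
    ring
  · intro x y hxy
    refine ⟨1, ?_⟩
    have h1 : x = y := Subtype.ext (congrArg (fun z : A' => (z : E)) hxy)
    rw [h1]

/-- the elements which are in `A` after multiplication by a power of `v` -/
def loc {K E : Type} [Field K] [Field E] [Algebra K E] (A : Subalgebra K E) (v : E) (hv : v ∈ A) :
    Subalgebra K E where
  carrier := {x | ∃ n : ℕ, v ^ n * x ∈ A}
  mul_mem' := by
    rintro x y ⟨n, hn⟩ ⟨m, hm⟩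
    refine ⟨n + m, ?_⟩
    have h : v ^ (n + m) * (x * y) = (v ^ n * x) * (v ^ m * y) := by ring
    rw [h]
    exact mul_mem hn hm
  add_mem' := by
    rintro x y ⟨n, hn⟩ ⟨m, hm⟩
    refine ⟨n + m, ?_⟩
    have h : v ^ (n + m) * (x + y) = v ^ m * (v ^ n * x) + v ^ n * (v ^ m * y) := by ring
    rw [h]
    exact add_mem (mul_mem (pow_mem hv _) hn) (mul_mem (pow_mem hv _) hm)
  algebraMap_mem' k := ⟨0, by rw [pow_zero, one_mul]; exact A.algebraMap_mem k⟩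

theorem le_loc {K E : Type} [Field K] [Field E] [Algebra K E] (A : Subalgebra K E) (v : E)
    (hv : v ∈ A) : A ≤ loc A v hv := fun x hx => ⟨0, by rw [pow_zero, one_mul]; exact hx⟩

theorem curve {K : Type} [Field K] (c : CurveData K) (U : Cov Bool) {z : c.F} (hz : z ∈ c.A cab) :
    ∃ n : ℕ, c.v U ^ n * z ∈ c.A U := by
  obtain ⟨n, hn⟩ := c.exists_mul_mem U hz
  exact ⟨n, by rw [mul_comm]; exact hn⟩

variable {K : Type} [Field K] {c₁ c₂ : CurveData K} (S : SurfData c₁ c₂)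

theorem S1 (i j : Cov Bool) :
    S.A cab j ≤ loc (S.A i j) (S.e₁ (c₁.v i)) (S.e₁_mem j (c₁.v_mem i)) := by
  refine sup_le ?_ ?_
  · rintro _ ⟨z, hz, rfl⟩
    obtain ⟨n, hn⟩ := curve c₁ i hz
    refine ⟨n, ?_⟩
    have h := S.e₁_mem j hn
    rw [map_mul, map_pow] at h
    exact h
  · rintro _ ⟨z, hz, rfl⟩
    exact le_loc _ _ _ (S.e₂_mem i hz)

theorem S2 (i j : Cov Bool) :
    S.A i cab ≤ loc (S.A i j) (S.e₂ (c₂.v j)) (S.e₂_mem i (c₂.v_mem j)) := by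
  refine sup_le ?_ ?_
  · rintro _ ⟨z, hz, rfl⟩
    exact le_loc _ _ _ (S.e₁_mem j hz)
  · rintro _ ⟨z, hz, rfl⟩
    obtain ⟨n, hn⟩ := curve c₂ j hz
    refine ⟨n, ?_⟩
    have h := S.e₂_mem i hn
    rw [map_mul, map_pow] at h
    exact h

end SLO_

open SLO_

theorem slo_proof : Stmt_SLO := by
  intro K _ c₁ c₂ S s
  refine ⟨?_, ?_⟩
  · refine away (A := S.A s.i s.j) (A' := S.A cab s.j) (S.A_mono (cab_le s.i) le_rfl)
      (S.inc₁ s.i s.j (c₁.vt s.i)) ?_ ?_ fun z hz => S1 S s.i s.j hz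
    · change S.e₁ (c₁.v s.i) ≠ 0
      rw [Ne, map_eq_zero]
      exact c₁.v_ne s.i
    · change (S.e₁ (c₁.v s.i))⁻¹ ∈ _
      rw [← map_inv₀]
      exact S.e₁_mem s.j (c₁.vinv_mem s.i)
  · refine away (A := S.A s.i s.j) (A' := S.A s.i cab) (S.A_mono le_rfl (cab_le s.j))
      (S.inc₂ s.i s.j (c₂.vt s.j)) ?_ ?_ fun z hz => S2 S s.i s.j hz
    · change S.e₂ (c₂.v s.j) ≠ 0
      rw [Ne, map_eq_zero]
      exact c₂.v_ne s.j
    · change (S.e₂ (c₂.v s.j))⁻¹ ∈ _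
      rw [← map_inv₀]
      exact S.e₂_mem s.i (c₂.vinv_mem s.j)

end Pool.CRD.FB
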