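import Pool.Agent.CRD.Fib.Stmts

/-!
# CRD / Fib: XGL, the rings of the charts of `X` are noetherian of global dimension at most 3
-/

open CategoryTheory Opposite Limits TensorProduct

namespace Pool.CRD.FB

namespace XGL_

attribute [local instance] RingHomInvPair.of_ringEquiv in
lemma gdim_equiv {A B : Type} [CommRing A] [CommRing B] (e : A ≃+* B) (r : ℕ) (h : GDim A r) :
    GDim B r := by
  intro N hN
  letI : Algebra A B := e.toRingHom.toAlgebra
  letI : Module A N := Module.compHom N e.toRingHom
  have : IsScalarTower A B N := ⟨fun a b x => by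
    change (e a * b) • x = e a • b • x
    rw [mul_smul]⟩
  have h1 : Module.Finite A B := Module.Finite.of_surjective (Algebra.linearMap A B) e.surjective
  have h2 : Module.Finite A N := Module.Finite.trans B N
  have h3 : HasProjectiveDimensionLE (ModuleCat.of A N) r := h (ModuleCat.of A N) h2
  let e' : (ModuleCat.of A N) ≃ₛₗ[RingHomClass.toRingHom e] N :=
    { toFun := fun x => x
      invFun := fun x => x
      map_add' := fun _ _ => rfl
      map_smul' := fun _ _ => rfl
      left_inv := fun _ => rfl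
      right_inv := fun _ => rfl }
  exact ModuleCat.hasProjectiveDimensionLE_of_semiLinearEquiv e e' r

end XGL_

open XGL_ in
theorem xgl_proof (hSGL : Stmt_SGL) (hAUS : Stmt_AUS) (hCGL : Stmt_CGL) : Stmt_XGL := by
  intro K _ _ h2 c₁ c₂ S X s
  obtain ⟨hN, hG⟩ := hSGL K c₁ c₂ S s.i s.j
  have hu : IsUnit (2 : S.A s.i s.j) := by
    have h : algebraMap K (S.A s.i s.j) 2 = 2 := map_ofNat _ 2
    rw [← h]
    exact (IsUnit.mk0 _ h2).map _
  have hall := hAUS (S.A s.i s.j) 2 (fun I => hG _ inferInstance)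
  obtain ⟨g1, g2⟩ := hCGL (S.A s.i s.j) (S.ua s.i s.j) (S.ub s.i s.j) K 2 hu hall s.k
  refine ⟨?_, gdim_equiv (X.cE s.i s.j s.k).toRingEquiv 3 g2⟩
  exact isNoetherianRing_of_ringEquiv _ (X.cE s.i s.j s.k).toRingEquiv

end Pool.CRD.FB
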