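import Pool.Agent.CRD.Fib.Stmts
import Pool.Agent.CRD.G.STF

/-!
# CRD, area FB, module XLO: the restriction maps of `X` are localisations
-/

set_option autoImplicit false

open CategoryTheory Opposite Limits TensorProduct Pretriangulated

namespace Pool.CRD.FB

namespace XLO_

theorem away {K E : Type} [Field K] [Field E] [Algebra K E] {A A' : Subalgebra K E} (h : A ≤ A')
    (v : A) (hv0 : (v : E) ≠ 0) (hvi : (v : E)⁻¹ ∈ A')
    (hl : ∀ z ∈ A', ∃ n : ℕ, (v : E) ^ n * z ∈ A) :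
    letI := (Subalgebra.inclusion h).toRingHom.toAlgebra
    IsLocalization.Away v A' := by
  let := (Subalgebra.inclusion h).toRingHom.toAlgebra
  refine { map_units := ?_, surj := ?_, exists_of_eq := ?_ }
  · rintro ⟨_, n, rfl⟩
    refine IsUnit.of_mul_eq_one ⟨((v : E)⁻¹) ^ n, pow_mem hvi n⟩ ?_
    apply Subtype.ext
    change (v : E) ^ n * (v : E)⁻¹ ^ n = 1
    rw [← mul_pow, mul_inv_cancel₀ hv0, one_pow]
  · intro f
    obtain ⟨n, hn⟩ := hl f f.2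
    refine ⟨(⟨_, hn⟩, ⟨v ^ n, n, rfl⟩), ?_⟩
    apply Subtype.ext
    change (f : E) * (v : E) ^ n = (v : E) ^ n * f
    ring
  · intro x y hxy
    refine ⟨1, ?_⟩
    have h1 : x = y := Subtype.ext (congrArg (fun z : A' => (z : E)) hxy)
    rw [h1]

/-- the elements which are in `A` after multiplication by a power of `v` -/
def loc {K E : Type} [Field K] [Field E] [Algebra K E] (A : Subalgebra K E) (v : E) (hv : v ∈ A) :
    Subalgebra K E where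
  carrier := {x | ∃ n : ℕ, v ^ n * x ∈ A}
  mul_mem' := by
    rintro x y ⟨n, hn⟩ ⟨m, hm⟩
    refine ⟨n + m, ?_⟩
    have h : v ^ (n + m) * (x * y) = (v ^ n * x) * (v ^ m * y) := by ring
    rw [h]
    exact mul_mem hn hm
  add_mem' := by
    rintro x y ⟨n, hn⟩ ⟨m, hm⟩
    refine ⟨n + m, ?_⟩
    have h : v ^ (n + m) * (x + y) = v ^ m * (v ^ n * x) + v ^ n * (v ^ m * y) := by ring
    rw [h]
    exact add_mem (mul_mem (pow_mem hv _) hn) (mul_mem (pow_mem hv _) hm)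
  algebraMap_mem' k := ⟨0, by rw [pow_zero, one_mul]; exact A.algebraMap_mem k⟩

theorem le_loc {K E : Type} [Field K] [Field E] [Algebra K E] (A : Subalgebra K E) (v : E)
    (hv : v ∈ A) : A ≤ loc A v hv := fun x hx => ⟨0, by rw [pow_zero, one_mul]; exact hx⟩

theorem curve {K : Type} [Field K] (c : CurveData K) (U : Cov Bool) {z : c.F} (hz : z ∈ c.A cab) :
    ∃ n : ℕ, c.v U ^ n * z ∈ c.A U := by
  obtain ⟨n, hn⟩ := c.exists_mul_mem U hz
  exact ⟨n, by rw [mul_comm]; exact hn⟩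

variable {K : Type} [Field K] {c₁ c₂ : CurveData K} (S : SurfData c₁ c₂)

theorem S1 (i j : Cov Bool) :
    S.A cab j ≤ loc (S.A i j) (S.e₁ (c₁.v i)) (S.e₁_mem j (c₁.v_mem i)) := by
  refine sup_le ?_ ?_
  · rintro _ ⟨z, hz, rfl⟩
    obtain ⟨n, hn⟩ := curve c₁ i hz
    refine ⟨n, ?_⟩
    have h := S.e₁_mem j hn
    rw [map_mul, map_pow] at h
    exact h
  · rintro _ ⟨z, hz, rfl⟩
    exact le_loc _ _ _ (S.e₂_mem i hz)

theorem S2 (i j : Cov Bool) :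
    S.A i cab ≤ loc (S.A i j) (S.e₂ (c₂.v j)) (S.e₂_mem i (c₂.v_mem j)) := by
  refine sup_le ?_ ?_
  · rintro _ ⟨z, hz, rfl⟩
    exact le_loc _ _ _ (S.e₁_mem j hz)
  · rintro _ ⟨z, hz, rfl⟩
    obtain ⟨n, hn⟩ := curve c₂ j hz
    refine ⟨n, ?_⟩
    have h := S.e₂_mem i hn
    rw [map_mul, map_pow] at h
    exact h


variable {S} (X : ConicData S)

theorem m1 (i j k : Cov Bool) :
    algebraMap S.L X.E (S.e₁ (c₁.v i)) ∈ X.A i j k := X.mem_of_S (S.e₁_mem j (c₁.v_mem i))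

theorem m2 (i j k : Cov Bool) :
    algebraMap S.L X.E (S.e₂ (c₂.v j)) ∈ X.A i j k := X.mem_of_S (S.e₂_mem i (c₂.v_mem j))

theorem XS1 (i j k : Cov Bool) {z : S.L} (hz : z ∈ S.A cab j) :
    algebraMap S.L X.E z ∈ loc (X.A i j k) _ (m1 X i j k) := by
  obtain ⟨n, hn⟩ := S1 S i j hz
  refine ⟨n, ?_⟩
  have h := X.mem_of_S (k := k) hn
  rwa [map_mul, map_pow] at h

theorem XS2 (i j k : Cov Bool) {z : S.L} (hz : z ∈ S.A i cab) :
    algebraMap S.L X.E z ∈ loc (X.A i j k) _ (m2 X i j k) := by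
  obtain ⟨n, hn⟩ := S2 S i j hz
  refine ⟨n, ?_⟩
  have h := X.mem_of_S (k := k) hn
  rwa [map_mul, map_pow] at h

theorem X1 (i j k : Cov Bool) : X.A cab j k ≤ loc (X.A i j k) _ (m1 X i j k) := by
  have h1a : algebraMap S.L X.E (S.h₁ cab / S.h₁ i) ∈ loc (X.A i j k) _ (m1 X i j k) := by
    refine XS1 X i j k ?_
    have h := S.e₁_mem j (c₁.h_div (cab_le i)).2
    rwa [map_div₀] at h
  have h1b : algebraMap S.L X.E (S.h₁ i / S.h₁ cab) ∈ loc (X.A i j k) _ (m1 X i j k) := by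
    refine XS1 X i j k ?_
    have h := S.e₁_mem j (c₁.h_div (cab_le i)).1
    rwa [map_div₀] at h
  have a1 : algebraMap S.L X.E (S.h₁ i) ≠ 0 := by simpa using G.h1_ne S i
  have a2 : algebraMap S.L X.E (S.h₁ cab) ≠ 0 := by simpa using G.h1_ne S cab
  have hη : X.eta i ≠ 0 := G.eta_ne X i
  have e1 : X.eta cab = algebraMap S.L X.E (S.h₁ cab / S.h₁ i) * X.eta i := by
    rw [map_div₀]
    unfold ConicData.eta
    field_simp
  have e2 : (algebraMap S.L X.E (S.h₁ cab / S.h₁ i))⁻¹ =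
      algebraMap S.L X.E (S.h₁ i / S.h₁ cab) := by
    rw [← map_inv₀, inv_div]
  have hgen : ∀ w ∈ X.gens i j k, w ∈ loc (X.A i j k) _ (m1 X i j k) := fun w hw =>
    le_loc _ _ _ (X.mem_of_gens hw)
  refine sup_le ?_ (Algebra.adjoin_le ?_)
  · rintro _ ⟨z, hz, rfl⟩
    exact XS1 X i j k hz
  · rintro z (⟨hk1, rfl | rfl⟩ | ⟨hk1, rfl | rfl⟩) <;> rw [SetLike.mem_coe]
    · rw [e1]
      exact mul_mem h1a (hgen _ (Or.inl ⟨hk1, Or.inl rfl⟩))
    · exact hgen _ (Or.inl ⟨hk1, Or.inr rfl⟩)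
    · rw [e1, mul_inv, e2]
      exact mul_mem h1b (hgen _ (Or.inr ⟨hk1, Or.inl rfl⟩))
    · rw [e1, div_eq_mul_inv, mul_inv, e2]
      have h := mul_mem h1b (hgen _ (Or.inr ⟨hk1, Or.inr rfl⟩))
      rw [div_eq_mul_inv] at h
      convert h using 1
      ring_nf

theorem X2 (i j k : Cov Bool) : X.A i cab k ≤ loc (X.A i j k) _ (m2 X i j k) := by
  have h1a : algebraMap S.L X.E (S.h₂ cab / S.h₂ j) ∈ loc (X.A i j k) _ (m2 X i j k) := by
    refine XS2 X i j k ?_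
    have h := S.e₂_mem i (c₂.h_div (cab_le j)).2
    rwa [map_div₀] at h
  have a1 : algebraMap S.L X.E (S.h₂ j) ≠ 0 := by simpa using G.h2_ne S j
  have e1 : X.zeta cab = algebraMap S.L X.E (S.h₂ cab / S.h₂ j) * X.zeta j := by
    rw [map_div₀]
    unfold ConicData.zeta
    field_simp
  have hgen : ∀ w ∈ X.gens i j k, w ∈ loc (X.A i j k) _ (m2 X i j k) := fun w hw =>
    le_loc _ _ _ (X.mem_of_gens hw)
  refine sup_le ?_ (Algebra.adjoin_le ?_)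
  · rintro _ ⟨z, hz, rfl⟩
    exact XS2 X i j k hz
  · rintro z (⟨hk1, rfl | rfl⟩ | ⟨hk1, rfl | rfl⟩) <;> rw [SetLike.mem_coe]
    · exact hgen _ (Or.inl ⟨hk1, Or.inl rfl⟩)
    · rw [e1]
      exact mul_mem h1a (hgen _ (Or.inl ⟨hk1, Or.inr rfl⟩))
    · exact hgen _ (Or.inr ⟨hk1, Or.inl rfl⟩)
    · rw [e1, mul_div_assoc]
      exact mul_mem h1a (hgen _ (Or.inr ⟨hk1, Or.inr rfl⟩))

end XLO_

open XLO_

theorem xlo_proof : Stmt_XLO := by
  intro K _ c₁ c₂ S X s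
  obtain ⟨-, -, h3, h4⟩ := G.stf_proof K c₁ c₂ S X ⟨s.i, s.j⟩
  refine ⟨?_, ?_, ?_, ?_⟩
  · refine away (A := X.A s.i s.j s.k) (A' := X.A cab s.j s.k)
      (X.A_mono (cab_le s.i) le_rfl le_rfl) (X.dir₁.e s (c₁.vt s.i)) ?_ ?_
      fun z hz => X1 X s.i s.j s.k hz
    · change algebraMap S.L X.E (S.e₁ (c₁.v s.i)) ≠ 0
      rw [Ne, map_eq_zero, map_eq_zero]
      exact c₁.v_ne s.i
    · change (algebraMap S.L X.E (S.e₁ (c₁.v s.i)))⁻¹ ∈ _
      rw [← map_inv₀, ← map_inv₀]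
      exact X.mem_of_S (S.e₁_mem s.j (c₁.vinv_mem s.i))
  · refine away (A := X.A s.i s.j s.k) (A' := X.A s.i cab s.k)
      (X.A_mono le_rfl (cab_le s.j) le_rfl) (X.dir₂.e s (c₂.vt s.j)) ?_ ?_
      fun z hz => X2 X s.i s.j s.k hz
    · change algebraMap S.L X.E (S.e₂ (c₂.v s.j)) ≠ 0
      rw [Ne, map_eq_zero, map_eq_zero]
      exact c₂.v_ne s.j
    · change (algebraMap S.L X.E (S.e₂ (c₂.v s.j)))⁻¹ ∈ _
      rw [← map_inv₀, ← map_inv₀]
      exact X.mem_of_S (S.e₂_mem s.i (c₂.vinv_mem s.j))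
  · refine away (A := X.A s.i s.j ca) (A' := X.A s.i s.j cab)
      (X.A_mono le_rfl le_rfl (cab_le ca)) (G.etF X ⟨s.i, s.j⟩) ?_ ?_ fun z hz => h3 z hz
    · exact G.eta_ne X s.i
    · exact G.etainv_mem X ⟨s.i, s.j⟩ G.t_cab
  · refine away (A := X.A s.i s.j cb) (A' := X.A s.i s.j cab)
      (X.A_mono le_rfl le_rfl (cab_le cb)) (G.yT X ⟨s.i, s.j⟩) ?_ ?_ fun z hz => h4 z hz
    · exact inv_ne_zero (G.eta_ne X s.i)
    · change ((X.eta s.i)⁻¹)⁻¹ ∈ _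
      rw [inv_inv]
      exact G.eta_mem X ⟨s.i, s.j⟩ G.f_cab

end Pool.CRD.FB
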