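import Pool.Agent.CRD.Fib.Stmts

/-!
# CRD / Fib / ZVC: the evaluation on the fibre over `z` in the coordinates of the chart
-/

open CategoryTheory Opposite Limits TensorProduct Pretriangulated

namespace Pool.CRD.FB

namespace ZVC_

lemma conMap_congr {B B' : Type} [CommRing B] [CommRing B'] (f : B →+* B') {a b : Bˣ}
    {a' b' : B'ˣ} {κ μ κ' μ' : B'ˣ} (h1 : κ = κ') (h2 : μ = μ')
    (ha : (a' : B') = (κ : B') ^ 2 * f a) (hb : (b' : B') = (μ : B') ^ 2 * f b)
    (ha' : (a' : B') = (κ' : B') ^ 2 * f a) (hb' : (b' : B') = (μ' : B') ^ 2 * f b)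
    (w : ConT a b) : conMap f κ μ ha hb w = conMap f κ' μ' ha' hb' w := by
  subst h1
  subst h2
  rfl

lemma C_mul_single {B : Type} [CommRing B] (r x : B) (n : ℤ) :
    (LaurentPolynomial.C r * AddMonoidAlgebra.single n x : LaurentPolynomial B) =
      AddMonoidAlgebra.single n (r * x) := by
  rw [← LaurentPolynomial.single_eq_C, AddMonoidAlgebra.single_mul_single, zero_add]

variable {K : Type} [Field K] {c₁ c₂ : CurveData K} {S : SurfData c₁ c₂} (X : ConicData S)
  (z : S.Pt) {s : Ch3} (hs : z.In s.i s.j)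

/-- the total conic ring over the chart maps to the total conic ring over the local ring -/
noncomputable def inO : ConT (S.ua s.i s.j) (S.ub s.i s.j) →+* ConT z.uO z.vO :=
  conMap (Subalgebra.inclusion (z.A_le_O_of_In hs)).toRingHom (z.κO hs) (z.μO hs)
    (z.uO_eq hs) (z.vO_eq hs)

lemma eta_eq : X.eta s.i = algebraMap S.L X.E ((z.κO hs : z.O) : S.L) * X.eta z.z₁.t := by
  have n2 := S.h₁_ne z.z₁.t
  change X.eta s.i = algebraMap S.L X.E (S.h₁ s.i / S.h₁ z.z₁.t) * X.eta z.z₁.t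
  unfold ConicData.eta
  rw [← mul_assoc, ← map_mul]
  congr 2
  field_simp

lemma zeta_eq : X.zeta s.j = algebraMap S.L X.E ((z.μO hs : z.O) : S.L) * X.zeta z.z₂.t := by
  have n2 := S.h₂_ne z.z₂.t
  change X.zeta s.j = algebraMap S.L X.E (S.h₂ s.j / S.h₂ z.z₂.t) * X.zeta z.z₂.t
  unfold ConicData.zeta
  rw [← mul_assoc, ← map_mul]
  congr 2
  field_simp

lemma coe_zpow (κ : z.Oˣ) (n : ℤ) : (((κ ^ n : z.Oˣ) : z.O) : S.L) = ((κ : z.O) : S.L) ^ n := by
  have h : Units.map (z.O.val.toRingHom : z.O →* S.L) (κ ^ n) =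
      (Units.map (z.O.val.toRingHom : z.O →* S.L) κ) ^ n := map_zpow _ _ _
  have h2 := congrArg (fun x : S.Lˣ => (x : S.L)) h
  rw [Units.val_zpow_eq_zpow_val] at h2
  exact h2

lemma toEc_eq (w : ConT (S.ua s.i s.j) (S.ub s.i s.j)) :
    X.toEc s.i s.j w = X.toEO z (inO z hs w) := by
  refine conT_induction (P := fun w => X.toEc s.i s.j w = X.toEO z (inO z hs w)) ?_
    Set.univ Set.univ ?_ ?_ ?_ w (fun n hn => absurd trivial hn) (fun n hn => absurd trivial hn)
  · intro x y hx hy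
    rw [map_add, map_add, map_add, hx, hy]
  · intro n _ r
    have e : inO z hs ⟨AddMonoidAlgebra.single n r, 0⟩ =
        ⟨AddMonoidAlgebra.single n (Subalgebra.inclusion (z.A_le_O_of_In hs) r *
          ((z.κO hs ^ n : z.Oˣ) : z.O)), 0⟩ := by
      apply QuadraticAlgebra.ext
      · exact lauMap_single _ _ _ _
      · change LaurentPolynomial.C _ * lauMap _ _ 0 = 0
        rw [map_zero, mul_zero]
    rw [e, ConicData.toEc_re, ConicData.toEO_re, eta_eq X z hs, mul_zpow]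
    change _ = algebraMap S.L X.E ((r : S.L) * (((z.κO hs ^ n : z.Oˣ) : z.O) : S.L)) * _
    rw [coe_zpow, map_mul, map_zpow₀, mul_assoc]
  · intro n _ r
    have e : inO z hs ⟨0, AddMonoidAlgebra.single n r⟩ =
        ⟨0, AddMonoidAlgebra.single n ((z.μO hs : z.O) *
          (Subalgebra.inclusion (z.A_le_O_of_In hs) r * ((z.κO hs ^ n : z.Oˣ) : z.O)))⟩ := by
      apply QuadraticAlgebra.ext
      · exact map_zero (lauMap _ _)
      · change LaurentPolynomial.C _ * lauMap _ _ (AddMonoidAlgebra.single n r) = _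
        rw [lauMap_single, C_mul_single]
        rfl
    rw [e, ConicData.toEc_im, ConicData.toEO_im, eta_eq X z hs, zeta_eq X z hs, mul_zpow]
    change _ = algebraMap S.L X.E (((z.μO hs : z.O) : S.L) *
      ((r : S.L) * (((z.κO hs ^ n : z.Oˣ) : z.O) : S.L))) * _ * _
    rw [coe_zpow, map_mul, map_mul, map_zpow₀]
    ring
  · rw [map_zero, map_zero, map_zero]

end ZVC_

open ZVC_ in
theorem zvc_proof (hCMC : Stmt_CMC) : Stmt_ZVC := by
  intro K _ c₁ c₂ S X z s hs w
  apply Subtype.ext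
  rw [ConicData.ev_coe, ConicData.cE_coe, toEc_eq X z hs, ConicData.evE_toEO, conMapR_coe]
  have h1 : (1 : Kˣ) * Units.map (z.χO.toRingHom : z.O →* K) (z.κO hs) =
    Units.map (z.χO.toRingHom : z.O →* K) (z.κO hs) := one_mul _
  have h2 : (1 : Kˣ) * Units.map (z.χO.toRingHom : z.O →* K) (z.μO hs) =
    Units.map (z.χO.toRingHom : z.O →* K) (z.μO hs) := one_mul _
  have h3 : ((z.u : Kˣ) : K) =
      (((1 : Kˣ) * Units.map (z.χO.toRingHom : z.O →* K) (z.κO hs) : Kˣ) : K) ^ 2 *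
      (z.evS hs).toRingHom (S.ua s.i s.j) := by
    rw [h1]; exact z.u_eq hs
  have h4 : ((z.v : Kˣ) : K) =
      (((1 : Kˣ) * Units.map (z.χO.toRingHom : z.O →* K) (z.μO hs) : Kˣ) : K) ^ 2 *
      (z.evS hs).toRingHom (S.ub s.i s.j) := by
    rw [h2]; exact z.v_eq hs
  have key := hCMC (S.A s.i s.j) z.O K (Subalgebra.inclusion (z.A_le_O_of_In hs)).toRingHom
    z.χO.toRingHom (S.ua s.i s.j) (S.ub s.i s.j) z.uO z.vO (z.κO hs) (z.μO hs) z.u z.v 1 1
    (z.uO_eq hs) (z.vO_eq hs) (by rw [Units.val_one, one_pow, one_mul]; rfl)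
    (by rw [Units.val_one, one_pow, one_mul]; rfl) h3 h4 w
  refine key.trans ?_
  exact conMap_congr _ h1 h2 _ _ _ _ _

end Pool.CRD.FB
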