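import Pool.Agent.CRD.Fib.Stmts

/-!
# CRD / Fib / ZVS: the ideal of a point of `S` in the rings of the charts of `S`
-/

open CategoryTheory Opposite Limits TensorProduct Pretriangulated

namespace Pool.CRD.FB

namespace ZVS_

variable {K : Type} [Field K] {c₁ c₂ : CurveData K} {S : SurfData c₁ c₂} (z : S.Pt)

lemma val₁ {i : Cov Bool} (h : z.z₁.J i ≠ ⊤) (g : c₁.A i) (n : ℕ) (g' : c₁.A z.z₁.t)
    (hg : (g : c₁.F) * c₁.v z.z₁.t ^ n = g') :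
    z.χO ⟨S.e₁ g, z.e₁_mem_O h g.2⟩ * z.z₁.χ (c₁.vt z.z₁.t) ^ n = z.z₁.χ g' := by
  have h1 : ∀ f : c₁.A z.z₁.t, z.χO ⟨S.e₁ f, z.A_le_O (S.f₁ z.z₁.t z.z₂.t f).2⟩ = z.z₁.χ f := by
    intro f
    rw [← z.χ_f₁ f, ← z.χO_of_mem]
    rfl
  rw [← h1 g', ← h1 (c₁.vt z.z₁.t), ← map_pow, ← map_mul]
  congr 1
  apply Subtype.ext
  change S.e₁ g * (S.e₁ (c₁.v z.z₁.t)) ^ n = S.e₁ g'
  rw [← hg, map_mul, map_pow]

lemma val₂ {j : Cov Bool} (h : z.z₂.J j ≠ ⊤) (g : c₂.A j) (n : ℕ) (g' : c₂.A z.z₂.t)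
    (hg : (g : c₂.F) * c₂.v z.z₂.t ^ n = g') :
    z.χO ⟨S.e₂ g, z.e₂_mem_O h g.2⟩ * z.z₂.χ (c₂.vt z.z₂.t) ^ n = z.z₂.χ g' := by
  have h1 : ∀ f : c₂.A z.z₂.t, z.χO ⟨S.e₂ f, z.A_le_O (S.f₂ z.z₁.t z.z₂.t f).2⟩ = z.z₂.χ f := by
    intro f
    rw [← z.χ_f₂ f, ← z.χO_of_mem]
    rfl
  rw [← h1 g', ← h1 (c₂.vt z.z₂.t), ← map_pow, ← map_mul]
  congr 1
  apply Subtype.ext
  change S.e₂ g * (S.e₂ (c₂.v z.z₂.t)) ^ n = S.e₂ g'
  rw [← hg, map_mul, map_pow]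

lemma ev₁ {i j : Cov Bool} (h : z.In i j) {g : c₁.A i} (hg : g ∈ z.z₁.J i) :
    z.evS h (S.inc₁ i j g) = 0 := by
  obtain ⟨n, g', hn, hg', hgg⟩ := z.z₁.mem_J.1 hg
  have h1 := val₁ z h.1 g n g' hgg
  rw [hg'] at h1
  have h2 : z.evS h (S.inc₁ i j g) = z.χO ⟨S.e₁ g, z.e₁_mem_O h.1 g.2⟩ := rfl
  rw [h2]
  by_cases hi : i = z.z₁.t
  · rw [hn hi, pow_zero, mul_one] at h1
    exact h1
  · rcases mul_eq_zero.1 h1 with h3 | h3
    · exact h3
    · exact absurd (eq_zero_of_pow_eq_zero h3) (z.z₁.χ_vt_ne h.1 hi)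

lemma ev₂ {i j : Cov Bool} (h : z.In i j) {g : c₂.A j} (hg : g ∈ z.z₂.J j) :
    z.evS h (S.inc₂ i j g) = 0 := by
  obtain ⟨n, g', hn, hg', hgg⟩ := z.z₂.mem_J.1 hg
  have h1 := val₂ z h.2 g n g' hgg
  rw [hg'] at h1
  have h2 : z.evS h (S.inc₂ i j g) = z.χO ⟨S.e₂ g, z.e₂_mem_O h.2 g.2⟩ := rfl
  rw [h2]
  by_cases hi : j = z.z₂.t
  · rw [hn hi, pow_zero, mul_one] at h1
    exact h1
  · rcases mul_eq_zero.1 h1 with h3 | h3
    · exact h3
    · exact absurd (eq_zero_of_pow_eq_zero h3) (z.z₂.χ_vt_ne h.2 hi)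

lemma IS_le {i j : Cov Bool} (h : z.In i j) : z.IS i j ≤ RingHom.ker (z.evS h).toRingHom := by
  unfold SurfData.Pt.IS
  refine sup_le ?_ ?_
  · rw [Ideal.map_le_iff_le_comap]
    intro g hg
    exact ev₁ z h hg
  · rw [Ideal.map_le_iff_le_comap]
    intro g hg
    exact ev₂ z h hg

lemma exists_const {i j : Cov Bool} (h : z.In i j) (f : S.A i j) :
    ∃ c : K, f - algebraMap K _ c ∈ z.IS i j := by
  obtain ⟨x, rfl⟩ := (S.equivT i j).surjective f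
  obtain ⟨χ₁, k₁, -⟩ := z.z₁.exists_ev i h.1
  obtain ⟨χ₂, k₂, -⟩ := z.z₂.exists_ev j h.2
  induction x using TensorProduct.induction_on with
  | zero =>
    refine ⟨0, ?_⟩
    rw [map_zero, map_zero, sub_zero]
    exact zero_mem _
  | tmul a b =>
    refine ⟨χ₁ a * χ₂ b, ?_⟩
    have e : S.equivT i j (a ⊗ₜ b) = S.inc₁ i j a * S.inc₂ i j b := by
      apply Subtype.ext
      rw [S.equivT_coe, S.prodT_tmul]
      rfl
    have m₁ : S.inc₁ i j (a - algebraMap K _ (χ₁ a)) ∈ z.IS i j := by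
      refine Ideal.mem_sup_left (Ideal.mem_map_of_mem (S.inc₁ i j).toRingHom ?_)
      rw [← k₁, RingHom.mem_ker, map_sub, AlgHom.commutes]
      exact sub_self _
    have m₂ : S.inc₂ i j (b - algebraMap K _ (χ₂ b)) ∈ z.IS i j := by
      refine Ideal.mem_sup_right (Ideal.mem_map_of_mem (S.inc₂ i j).toRingHom ?_)
      rw [← k₂, RingHom.mem_ker, map_sub, AlgHom.commutes]
      exact sub_self _
    rw [map_sub, AlgHom.commutes] at m₁ m₂
    rw [e, map_mul]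
    have e2 : S.inc₁ i j a * S.inc₂ i j b -
        algebraMap K (S.A i j) (χ₁ a) * algebraMap K (S.A i j) (χ₂ b) =
        S.inc₂ i j b * (S.inc₁ i j a - algebraMap K (S.A i j) (χ₁ a)) +
        algebraMap K (S.A i j) (χ₁ a) * (S.inc₂ i j b - algebraMap K (S.A i j) (χ₂ b)) := by
      ring
    rw [e2]
    exact add_mem (Ideal.mul_mem_left _ _ m₁) (Ideal.mul_mem_left _ _ m₂)
  | add x y hx hy =>
    obtain ⟨c, hc⟩ := hx
    obtain ⟨d, hd⟩ := hy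
    refine ⟨c + d, ?_⟩
    rw [map_add, map_add, add_sub_add_comm]
    exact add_mem hc hd

end ZVS_

open ZVS_ in
theorem zvs_proof : Stmt_ZVS := by
  intro K _ c₁ c₂ S z i j
  refine ⟨?_, ?_⟩
  · intro h f
    constructor
    · intro hf
      obtain ⟨c, hc⟩ := exists_const z h f
      have h1 : z.evS h (f - algebraMap K _ c) = 0 := IS_le z h hc
      rw [map_sub, hf, AlgHom.commutes, zero_sub, neg_eq_zero] at h1
      have h2 : c = 0 := h1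
      rw [h2, map_zero, sub_zero] at hc
      exact hc
    · intro hf
      exact IS_le z h hf
  · intro h
    unfold SurfData.Pt.IS
    unfold SurfData.Pt.In at h
    rw [not_and_or, not_not, not_not] at h
    rcases h with h | h
    · rw [h, Ideal.map_top, top_sup_eq]
    · rw [h, Ideal.map_top, sup_top_eq]

end Pool.CRD.FB
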